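import Pool.Agent.H4.Singer3.SProd

/-!
# Singer project, part three: the growth on `W` depends only on the graph on `W`
-/

set_option autoImplicit false
set_option linter.unusedSectionVars false

open Finset

namespace Pool.Agent.H4.Singer3

variable {V : Type} [DecidableEq V] [Fintype V]

theorem KU_agree {G H : SimpleGraph V} {W : Finset V}
    (hadj : ∀ x ∈ W, ∀ y ∈ W, (G.Adj x y ↔ H.Adj x y)) (σ : Finset V) :
    KU G W σ ↔ KU H W σ := by
  unfold KU
  refine and_congr_right fun hσ => ?_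
  constructor
  · intro h x hx y hy hne
    exact (hadj x (hσ (by exact_mod_cast hx)) y (hσ (by exact_mod_cast hy))).1 (h hx hy hne)
  · intro h x hx y hy hne
    exact (hadj x (hσ (by exact_mod_cast hx)) y (hσ (by exact_mod_cast hy))).2 (h hx hy hne)

theorem CK_agree {G H : SimpleGraph V} {Ω : Type} (X : Act G Ω) (Y : Act H Ω) (W : Finset V)
    (hs : ∀ v ∈ W, ∀ ω, X.s v ω = Y.s v ω)
    (hadj : ∀ x ∈ W, ∀ y ∈ W, (G.Adj x y ↔ H.Adj x y)) (i : ℕ) :
    CK X (KU G W) i = CK Y (KU H W) i := by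
  ext f
  rw [mem_CK, mem_CK]
  constructor
  · rintro ⟨h1, h2⟩
    refine ⟨fun σ ω hne => ⟨(KU_agree hadj σ).1 (h1 σ ω hne).1, (h1 σ ω hne).2⟩,
      fun σ v hv ω => ?_⟩
    by_cases h0 : ∀ ω', f σ ω' = 0
    · rw [h0, h0]
    · push Not at h0
      obtain ⟨ω', hne⟩ := h0
      rw [← hs v ((h1 σ ω' hne).1.1 hv), h2 σ v hv]
  · rintro ⟨h1, h2⟩
    refine ⟨fun σ ω hne => ⟨(KU_agree hadj σ).2 (h1 σ ω hne).1, (h1 σ ω hne).2⟩,
      fun σ v hv ω => ?_⟩
    by_cases h0 : ∀ ω', f σ ω' = 0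
    · rw [h0, h0]
    · push Not at h0
      obtain ⟨ω', hne⟩ := h0
      rw [hs v ((h1 σ ω' hne).1.1 hv), h2 σ v hv]

theorem bet_agree {G H : SimpleGraph V} {Ω : Type} (X : Act G Ω) (Y : Act H Ω) (W : Finset V)
    (hs : ∀ v ∈ W, ∀ ω, X.s v ω = Y.s v ω)
    (hadj : ∀ x ∈ W, ∀ y ∈ W, (G.Adj x y ↔ H.Adj x y)) (i : ℕ) :
    bet X (KU G W) i = bet Y (KU H W) i := by
  unfold bet ZK BK
  rw [CK_agree X Y W hs hadj, CK_agree X Y W hs hadj]

/-- the free abelian generators -/
def cubeGen (G : SimpleGraph V) : Gen G (V → Multiplicative (ZMod 2)) where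
  g v := Pi.mulSingle v (Multiplicative.ofAdd 1)
  sq v := by
    rw [← Pi.mulSingle_mul]
    have : (Multiplicative.ofAdd 1 * Multiplicative.ofAdd 1 : Multiplicative (ZMod 2)) = 1 := by
      decide
    rw [this, Pi.mulSingle_one]
  comm u v _ := mul_comm _ _
  bit p v := decide (p v ≠ 1)
  bit_mul p v := by
    have hc : ∀ c : Multiplicative (ZMod 2), decide (c * Multiplicative.ofAdd 1 ≠ 1) =
        !decide (c ≠ 1) := by decide
    funext x
    by_cases h : x = v
    · subst h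
      rw [Function.update_self, Pi.mul_apply, Pi.mulSingle_eq_same, hc]
    · rw [Function.update_of_ne h, Pi.mul_apply, Pi.mulSingle_eq_of_ne h, mul_one]

theorem isPGroup_cube : IsPGroup 2 (V → Multiplicative (ZMod 2)) := by
  intro a
  refine ⟨1, ?_⟩
  funext v
  rw [pow_one, Pi.pow_apply, Pi.one_apply]
  have h : ∀ b : Multiplicative (ZMod 2), b ^ 2 = 1 := by decide
  exact h _

theorem isPGroup_prod {A B : Type} [Group A] [Group B] (hA : IsPGroup 2 A) (hB : IsPGroup 2 B) :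
    IsPGroup 2 (A × B) := by
  rintro ⟨a, b⟩
  obtain ⟨k1, hk1⟩ := hA a
  obtain ⟨k2, hk2⟩ := hB b
  refine ⟨k1 + k2, ?_⟩
  rw [Prod.pow_mk, pow_add, pow_mul, hk1, one_pow, mul_comm, pow_mul, hk2, one_pow]
  rfl

/-- generators for `G` from generators for `H` on `W` -/
def agreeGen {G H : SimpleGraph V} {P : Type} [Group P] (D : Gen H P) (W : Finset V)
    (hadj : ∀ x ∈ W, ∀ y ∈ W, (G.Adj x y ↔ H.Adj x y)) :
    Gen G (P × (V → Multiplicative (ZMod 2))) where
  g v := (if v ∈ W then D.g v else 1, (cubeGen G).g v)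
  sq v := by
    rw [Prod.mk_mul_mk, (cubeGen G).sq]
    by_cases h : v ∈ W
    · rw [if_pos h, D.sq]; rfl
    · rw [if_neg h, mul_one]; rfl
  comm u v huv := by
    rw [Prod.mk_mul_mk, Prod.mk_mul_mk, (cubeGen G).comm u v huv]
    by_cases hu : u ∈ W
    · by_cases hv : v ∈ W
      · rw [if_pos hu, if_pos hv, D.comm u v ((hadj u hu v hv).1 huv)]
      · rw [if_neg hv, mul_one, one_mul]
    · rw [if_neg hu, mul_one, one_mul]
  bit p := (cubeGen G).bit p.2
  bit_mul p v := (cubeGen G).bit_mul p.2 v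

theorem dens_agree {G H : SimpleGraph V} {W : Finset V} {i : ℕ}
    (hadj : ∀ x ∈ W, ∀ y ∈ W, (G.Adj x y ↔ H.Adj x y)) (h : Dens H W i) : Dens G W i := by
  intro m
  obtain ⟨P, _, _, D, hP, hb⟩ := h m
  refine ⟨P × (V → Multiplicative (ZMod 2)), inferInstance, inferInstance, agreeGen D W hadj,
    isPGroup_prod hP isPGroup_cube, ?_⟩
  have h1 : bet (agreeGen D W hadj).act (KU G W) i = bet (D.prod (cubeGen H)).act (KU H W) i := by
    refine bet_agree _ _ W ?_ hadj i
    intro v hv p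
    change p * (if v ∈ W then D.g v else 1, (cubeGen G).g v) = p * (D.g v, (cubeGen H).g v)
    rw [if_pos hv]
    rfl
  rw [h1, Fintype.card_prod]
  calc m * bet (D.prod (cubeGen H)).act (KU H W) i
      ≤ m * (Fintype.card (V → Multiplicative (ZMod 2)) * bet D.act (KU H W) i) :=
        Nat.mul_le_mul_left _ (bet_prod_left isPGroup_cube D (cubeGen H) W i)
    _ = m * bet D.act (KU H W) i * Fintype.card (V → Multiplicative (ZMod 2)) := by ring
    _ ≤ _ := Nat.mul_le_mul_right _ hb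

/-- there are no simplices of positive size in the empty complex -/
theorem dens_empty (G : SimpleGraph V) (i : ℕ) : Dens G ∅ (i + 1) := by
  intro m
  refine ⟨V → Multiplicative (ZMod 2), inferInstance, inferInstance, cubeGen G, isPGroup_cube, ?_⟩
  have h : ZK (cubeGen G).act (KU G ∅) (i + 1) = ⊥ := by
    rw [eq_bot_iff]
    rintro f ⟨hf, _⟩
    rw [Submodule.mem_bot]
    funext σ p
    by_contra hne
    obtain ⟨h1, h2⟩ := hf.1 σ p hne
    have h3 : σ = ∅ := Finset.subset_empty.1 h1.1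
    rw [h3] at h2
    simp at h2
  have h2 : bet (cubeGen G).act (KU G ∅) (i + 1) = 0 := by
    unfold bet hdim
    rw [h]
    simp
  rw [h2, mul_zero]
  exact Nat.zero_le _

end Pool.Agent.H4.Singer3
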