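import Pool.Agent.H4.Singer3.SProd
import Pool.Agent.H4.Singer.Core

/-!
# Singer project, part three: from growth modulo two to `ℓ²`
-/

set_option autoImplicit false
set_option linter.unusedSectionVars false

open Finset Filter Topology

namespace Pool.Agent.H4.Singer3

open Pool.Agent.H4.Singer Pool.Agent.H4.Atiyah

variable {V : Type} [DecidableEq V] [Fintype V]

/-- the coloured graph with all colours different -/
def fl2Graph (G : SimpleGraph V) : ColGraph V V where
  adj := G.Adj
  symm _ _ h := h.symm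
  col := id
  ne _ _ h := h.ne

theorem fl2Graph_Cl (G : SimpleGraph V) (σ : Finset V) : (fl2Graph G).Cl σ ↔ KU G univ σ := by
  constructor
  · intro h
    exact ⟨Finset.subset_univ _, fun a ha b hb hab => h a (by exact_mod_cast ha) b
      (by exact_mod_cast hb) hab⟩
  · intro h a ha b hb hab
    exact h.2 (by exact_mod_cast ha) (by exact_mod_cast hb) hab

theorem fl2_neg (x : ZMod 2) : -x = x := CharTwo.neg_eq x

/-- an action as a set with involutions for the coloured graph -/
def fl2Inv {G : SimpleGraph V} {Ω : Type} (X : Act G Ω) : InvAct (fl2Graph G) Ω where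
  s := X.s
  invol := X.invol
  comm := X.comm
  bit := X.bit
  bit_s := X.bit_s

theorem fl2_Ch {G : SimpleGraph V} {Ω : Type} (X : Act G Ω) (i : ℕ) :
    Ch (ZMod 2) (fl2Inv X) i = CK X (KU G univ) i := by
  ext f
  rw [Singer.mem_Ch, mem_CK]
  constructor
  · rintro ⟨h1, h2⟩
    refine ⟨fun σ ω h => ⟨(fl2Graph_Cl G σ).1 (h1 σ ω h).1, (h1 σ ω h).2⟩, fun σ v hv ω => ?_⟩
    rw [← fl2_neg (f σ ω)]
    exact h2 σ v hv ω
  · rintro ⟨h1, h2⟩
    refine ⟨fun σ ω h => ⟨(fl2Graph_Cl G σ).2 (h1 σ ω h).1, (h1 σ ω h).2⟩, fun σ v hv ω => ?_⟩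
    rw [fl2_neg (f σ ω)]
    exact h2 σ v hv ω

theorem fl2_dl {Ω : Type} (ν : V → ℕ) :
    (Singer.dl (ZMod 2) ν : (Finset V → Ω → ZMod 2) →ₗ[ZMod 2] (Finset V → Ω → ZMod 2)) = bd := by
  refine LinearMap.ext fun f => ?_
  funext τ ω
  rw [Singer.dl_apply, bd_apply]
  refine Finset.sum_congr rfl fun v _ => ?_
  have h1 : ((sg ν v τ : ℤ) : ZMod 2) = 1 := by
    unfold sg
    push_cast
    rw [fl2_neg, one_pow]
  rw [h1, one_mul]

theorem fl2_bet {G : SimpleGraph V} {Ω : Type} (X : Act G Ω) (ν : V → ℕ) (i : ℕ) :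
    Singer.bet (ZMod 2) (fl2Inv X) ν i = bet X (KU G univ) i := by
  unfold Singer.bet bet hdim Zc Bc ZK BK
  rw [fl2_Ch, fl2_Ch, fl2_dl]

/-- the generators of the elementary abelian group -/
def fl2Cube (v : V) : V → Multiplicative (ZMod 2) :=
  Pi.mulSingle v (Multiplicative.ofAdd 1)

theorem fl2_mul_self (x : Multiplicative (ZMod 2)) : x * x = 1 := by
  revert x
  decide

theorem fl2Cube_sq (v : V) : fl2Cube v * fl2Cube v = (1 : V → Multiplicative (ZMod 2)) := by
  funext u
  exact fl2_mul_self _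

theorem fl2_isPGroup_cube : IsPGroup 2 (V → Multiplicative (ZMod 2)) := by
  intro x
  refine ⟨1, ?_⟩
  rw [pow_one, pow_two]
  funext u
  exact fl2_mul_self _

/-- generators of the product of a group with the cube -/
def fl2Ext {G : SimpleGraph V} {P : Type} [Group P] (g : V → P) (hg : ∀ v, g v * g v = 1)
    (hgc : ∀ u v, G.Adj u v → g u * g v = g v * g u) :
    Gen G (P × (V → Multiplicative (ZMod 2))) where
  g v := (g v, fl2Cube v)
  sq v := by
    rw [Prod.mk_mul_mk, hg, fl2Cube_sq]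
    rfl
  comm u v h := by
    rw [Prod.mk_mul_mk, Prod.mk_mul_mk, hgc u v h, mul_comm (fl2Cube u)]
  bit p u := decide (p.2 u = Multiplicative.ofAdd 1)
  bit_mul p v := by
    funext u
    by_cases h : u = v
    · subst h
      rw [Function.update_self]
      have h1 : (p * (g u, fl2Cube u)).2 u = p.2 u * Multiplicative.ofAdd 1 := by
        change p.2 u * (fl2Cube u : V → Multiplicative (ZMod 2)) u = _
        unfold fl2Cube
        rw [Pi.mulSingle_eq_same]
      rw [h1]
      generalize p.2 u = x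
      revert x
      decide
    · rw [Function.update_of_ne h]
      have h1 : (p * (g v, fl2Cube v)).2 u = p.2 u := by
        change p.2 u * (fl2Cube v : V → Multiplicative (ZMod 2)) u = _
        unfold fl2Cube
        rw [Pi.mulSingle_eq_of_ne h, mul_one]
      rw [h1]

theorem fl2_isPGroup_prod {P Q : Type} [Group P] [Group Q] (hP : IsPGroup 2 P) (hQ : IsPGroup 2 Q) :
    IsPGroup 2 (P × Q) := by
  rintro ⟨a, b⟩
  obtain ⟨k1, hk1⟩ := hP a
  obtain ⟨k2, hk2⟩ := hQ b
  refine ⟨k1 + k2, ?_⟩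
  rw [Prod.pow_mk, pow_add, pow_mul, hk1, one_pow, mul_comm, pow_mul, hk2, one_pow]
  rfl

/-- The proof of `Pool.Agent.H4.Singer.core` (part one, Core.lean) with the following changes.
Coloured graph: `Γ : ColGraph V V` with `col = id` and `adj = G.Adj`. For `j : ℕ` take
`P j = P₁ j × P₂ j` where `P₁ j` comes from `exists_two_group G j` (as in `exists_levels`,
Levels.lean) and `P₂ j`, `D j` from `h (2 ^ j)` (the hypothesis `Dens`);
`π j = (π₁ j).prod (the lift of (D j).g)` (`exists_lift`), `XP j : InvAct Γ (P j)` the right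
multiplication by `π j (gen G v)` with the bits of `(D j).bit` on the second factor.
For a finite set `Ω` with an `InvAct Γ Ω` whose involutions and that of an `Act G Ω` agree one has
`Singer.bet (ZMod 2) X ν i = Singer3.bet X' (KU G univ) i` (signs are `1` modulo two, `Γ.Cl σ` is
`G.IsClique σ`). By `bet_prod_right` (with `P := P₁ j`) `bet (XP j) ≤ |P₁ j| * bet (D j).act`, and
`2 ^ j * bet (D j).act ≤ |P₂ j|`, so `2 ^ j * bet (XP j) ≤ |P j|`. Then conclude as in `core` with
`bet_complex_le`, `l2_hodge`, `exists_harm_matrix`, `l2ker_trivial`. -/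
theorem l2_of_dens (G : SimpleGraph V) (i : ℕ) (h : Dens G univ i) : L2HomologyZero G i := by
  classical
  intro ν hν z hz hdz ε hε
  refine l2_hodge G ν hν i ?_ z hz hdz ε hε
  obtain ⟨kk, n, A, hA, hdim⟩ := exists_harm_matrix G (fl2Graph G) (fun _ _ => Iff.rfl) ν hν i
  have h1 := fun L => exists_two_group G L
  choose P₁ grp₁ fin₁ π₁ hP₁ hsep using h1
  have h2 := fun j : ℕ => h (2 ^ j)
  choose P₂ grp₂ fin₂ D hP₂ hD using h2
  let E : ∀ j, Gen G (P₁ j × (V → Multiplicative (ZMod 2))) := fun j =>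
    fl2Ext (fun v => π₁ j (gen G v)) (fun v => by rw [← map_mul, gen_mul_gen, map_one])
      (fun u v huv => by rw [← map_mul, ← map_mul, gen_comm G u v huv])
  obtain ⟨σ, hσ⟩ := exists_lift G (fl2Cube : V → V → Multiplicative (ZMod 2)) fl2Cube_sq
    (fun u v _ => mul_comm _ _)
  have h3 : ∀ j, ∃ π : RGrp G →* P₂ j, ∀ v, π (gen G v) = (D j).g v := fun j =>
    exists_lift G (D j).g (D j).sq (D j).comm
  choose π₂ hπ₂ using h3
  let π : ∀ j, RGrp G →* (P₁ j × (V → Multiplicative (ZMod 2))) × P₂ j := fun j =>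
    ((π₁ j).prod σ).prod (π₂ j)
  have hπ : ∀ j v, π j (gen G v) = ((E j).prod (D j)).g v := by
    intro j v
    change (((π₁ j) (gen G v), σ (gen G v)), (π₂ j) (gen G v)) =
      ((π₁ j (gen G v), fl2Cube v), (D j).g v)
    rw [hσ, hπ₂]
  have hsep' : ∀ w : RGrp G, w ≠ 1 → ∀ᶠ j in atTop, π j w ≠ 1 := by
    intro w hw
    filter_upwards [eventually_ge_atTop ((racg G).toCoxeterSystem.length w)] with j hj h0
    exact hsep j w hw hj (congrArg Prod.fst (congrArg Prod.fst h0))
  refine hA (l2ker_trivial π hsep' A ?_)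
  intro η hη
  have hbd : ∀ j, (Singer.bet ℂ (fl2Inv ((E j).prod (D j)).act) ν i : ℝ) ≤
      1 / 2 ^ j * Fintype.card ((P₁ j × (V → Multiplicative (ZMod 2))) × P₂ j) := by
    intro j
    have h4 : Singer.bet ℂ (fl2Inv ((E j).prod (D j)).act) ν i ≤
        Singer.bet (ZMod 2) (fl2Inv ((E j).prod (D j)).act) ν i :=
      bet_complex_le _ ν hν i (ZMod 2)
    rw [fl2_bet] at h4
    have h5 := bet_prod_right (fl2_isPGroup_prod (hP₁ j) fl2_isPGroup_cube) (E j) (D j) univ i
    have h6 := hD j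
    have h7 : 2 ^ j * Singer.bet ℂ (fl2Inv ((E j).prod (D j)).act) ν i ≤
        Fintype.card ((P₁ j × (V → Multiplicative (ZMod 2))) × P₂ j) := by
      rw [Fintype.card_prod]
      calc 2 ^ j * Singer.bet ℂ (fl2Inv ((E j).prod (D j)).act) ν i
          ≤ 2 ^ j * (Fintype.card (P₁ j × (V → Multiplicative (ZMod 2))) *
            bet (D j).act (KU G univ) i) := Nat.mul_le_mul_left _ (h4.trans h5)
        _ = Fintype.card (P₁ j × (V → Multiplicative (ZMod 2))) *
            (2 ^ j * bet (D j).act (KU G univ) i) := by ring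
        _ ≤ _ := Nat.mul_le_mul_left _ h6
    have h8 : (2 ^ j * Singer.bet ℂ (fl2Inv ((E j).prod (D j)).act) ν i : ℝ) ≤
        Fintype.card ((P₁ j × (V → Multiplicative (ZMod 2))) × P₂ j) := by exact_mod_cast h7
    rw [div_mul_eq_mul_div, le_div_iff₀ (by positivity)]
    linarith
  have hlim : Tendsto (fun j : ℕ => (1 : ℝ) / 2 ^ j) atTop (𝓝 0) := by
    have h9 : Tendsto (fun j : ℕ => (1 / 2 : ℝ) ^ j) atTop (𝓝 0) :=
      tendsto_pow_atTop_nhds_zero_of_lt_one (by norm_num) (by norm_num)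
    refine h9.congr fun j => ?_
    rw [div_pow, one_pow]
  filter_upwards [hlim.eventually (eventually_le_nhds hη)] with j hj
  refine (hdim _ (π j) (fl2Inv ((E j).prod (D j)).act) (fun v p => ?_)).trans ((hbd j).trans ?_)
  · rw [hπ]
    rfl
  · exact mul_le_mul_of_nonneg_right hj (Nat.cast_nonneg _)

end Pool.Agent.H4.Singer3
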