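import Pool.Agent.H4.Singer3.SDefs

/-!
# Singer project, part three: basic facts
-/

set_option autoImplicit false
set_option linter.unusedSectionVars false

open Finset

namespace Pool.Agent.H4.Singer3

/-! ## Dimensions -/

section Dim

variable {M M' M'' : Type} [AddCommGroup M] [Module (ZMod 2) M] [Module.Finite (ZMod 2) M]
  [AddCommGroup M'] [Module (ZMod 2) M'] [Module.Finite (ZMod 2) M']
  [AddCommGroup M''] [Module (ZMod 2) M''] [Module.Finite (ZMod 2) M'']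

theorem hdim_eq (Z B : Submodule (ZMod 2) M) (hB : B ≤ Z) :
    hdim Z B = Module.finrank (ZMod 2) (Z.map B.mkQ) := by
  have h := LinearMap.finrank_range_add_finrank_ker (B.mkQ.comp Z.subtype)
  rw [LinearMap.range_comp, Submodule.range_subtype, LinearMap.ker_comp, Submodule.ker_mkQ] at h
  have h2 : Module.finrank (ZMod 2) (B.comap Z.subtype) = Module.finrank (ZMod 2) B :=
    LinearEquiv.finrank_eq (Submodule.comapSubtypeEquivOfLe hB)
  rw [h2] at h
  unfold hdim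
  omega

/-- the exactness lemma -/
theorem hdim_le (Z B : Submodule (ZMod 2) M) (Z' B' : Submodule (ZMod 2) M')
    (Z'' B'' : Submodule (ZMod 2) M'') (hB : B ≤ Z) (hB' : B' ≤ Z') (hB'' : B'' ≤ Z'')
    (ψ : M →ₗ[ZMod 2] M'') (φ : M' →ₗ[ZMod 2] M) (h1 : ∀ z ∈ Z, ψ z ∈ Z'')
    (h2 : ∀ b ∈ B, ψ b ∈ B'') (h3 : ∀ z ∈ Z, ψ z ∈ B'' → ∃ z' ∈ Z', φ z' - z ∈ B)
    (h4 : ∀ b ∈ B', φ b ∈ B) : hdim Z B ≤ hdim Z' B' + hdim Z'' B'' := by
  rw [hdim_eq Z B hB, hdim_eq Z' B' hB', hdim_eq Z'' B'' hB'']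
  let ψq := Submodule.mapQ B B'' ψ h2
  let φq := Submodule.mapQ B' B φ h4
  have h5 := LinearMap.finrank_range_add_finrank_ker (ψq.comp (Z.map B.mkQ).subtype)
  have h6 : Module.finrank (ZMod 2) (LinearMap.range (ψq.comp (Z.map B.mkQ).subtype)) ≤
      Module.finrank (ZMod 2) (Z''.map B''.mkQ) := by
    refine Submodule.finrank_mono ?_
    rintro _ ⟨⟨x, hx⟩, rfl⟩
    obtain ⟨z, hz, rfl⟩ := hx
    exact ⟨ψ z, h1 z hz, rfl⟩
  have h7 : Module.finrank (ZMod 2) (LinearMap.ker (ψq.comp (Z.map B.mkQ).subtype)) ≤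
      Module.finrank (ZMod 2) (Z'.map B'.mkQ) := by
    have h8 : (LinearMap.ker (ψq.comp (Z.map B.mkQ).subtype)).map (Z.map B.mkQ).subtype ≤
        (Z'.map B'.mkQ).map φq := by
      rintro _ ⟨⟨x, hx⟩, hk, rfl⟩
      obtain ⟨z, hz, rfl⟩ := hx
      have h9 : ψ z ∈ B'' := by
        have : (Submodule.Quotient.mk (ψ z) : M'' ⧸ B'') = 0 := hk
        exact (Submodule.Quotient.mk_eq_zero _).1 this
      obtain ⟨z', hz', hd⟩ := h3 z hz h9
      refine ⟨B'.mkQ z', ⟨z', hz', rfl⟩, ?_⟩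
      change Submodule.Quotient.mk (φ z') = Submodule.Quotient.mk z
      rwa [Submodule.Quotient.eq]
    have h10 := Submodule.finrank_mono h8
    have h11 := (Submodule.equivMapOfInjective (Z.map B.mkQ).subtype
      (Submodule.injective_subtype _)
      (LinearMap.ker (ψq.comp (Z.map B.mkQ).subtype))).finrank_eq
    rw [h11]
    exact h10.trans (Submodule.finrank_map_le _ _)
  omega

/-- injective maps on homology -/
theorem hdim_le_of_inj (Z B : Submodule (ZMod 2) M) (Z'' B'' : Submodule (ZMod 2) M'')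
    (hB : B ≤ Z) (hB'' : B'' ≤ Z'') (ψ : M →ₗ[ZMod 2] M'') (h1 : ∀ z ∈ Z, ψ z ∈ Z'')
    (h2 : ∀ b ∈ B, ψ b ∈ B'') (h3 : ∀ z ∈ Z, ψ z ∈ B'' → z ∈ B) :
    hdim Z B ≤ hdim Z'' B'' := by
  have h := hdim_le Z B B B Z'' B'' hB le_rfl hB'' ψ LinearMap.id h1 h2
    (fun z hz hz' => ⟨0, Submodule.zero_mem _, by
      simpa using h3 z hz hz'⟩) (fun b hb => hb)
  simpa [hdim] using h

/-- surjective maps on homology -/
theorem hdim_le_of_surj (Z B : Submodule (ZMod 2) M) (Z' B' : Submodule (ZMod 2) M')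
    (hB : B ≤ Z) (hB' : B' ≤ Z') (φ : M' →ₗ[ZMod 2] M)
    (h3 : ∀ z ∈ Z, ∃ z' ∈ Z', φ z' - z ∈ B) (h4 : ∀ b ∈ B', φ b ∈ B) :
    hdim Z B ≤ hdim Z' B' := by
  have h := hdim_le Z B Z' B' (⊥ : Submodule (ZMod 2) M) ⊥ hB hB' le_rfl 0 φ
    (fun z _ => Submodule.zero_mem _) (fun z _ => Submodule.zero_mem _)
    (fun z hz _ => h3 z hz) h4
  simpa [hdim] using h

end Dim

/-! ## Chains -/

section Chains

variable {V : Type} [DecidableEq V] [Fintype V] {G : SimpleGraph V} {Ω : Type}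

theorem bd_apply (f : Finset V → Ω → ZMod 2) (τ : Finset V) (ω : Ω) :
    bd f τ ω = ∑ v ∈ τᶜ, f (insert v τ) ω := rfl

theorem mem_CK {X : Act G Ω} {𝒦 : Finset V → Prop} {i : ℕ} {f : Finset V → Ω → ZMod 2} :
    f ∈ CK X 𝒦 i ↔ (∀ σ ω, f σ ω ≠ 0 → 𝒦 σ ∧ σ.card = i) ∧
      ∀ σ, ∀ v ∈ σ, ∀ ω, f σ (X.s v ω) = f σ ω := Iff.rfl

theorem mem_ZK {X : Act G Ω} {𝒦 : Finset V → Prop} {i : ℕ} {f : Finset V → Ω → ZMod 2} :
    f ∈ ZK X 𝒦 i ↔ f ∈ CK X 𝒦 i ∧ bd f = 0 := Iff.rfl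

theorem mem_BK {X : Act G Ω} {𝒦 : Finset V → Prop} {i : ℕ} {f : Finset V → Ω → ZMod 2} :
    f ∈ BK X 𝒦 i ↔ ∃ y ∈ CK X 𝒦 (i + 1), bd y = f := Iff.rfl

instance [Fintype Ω] : Module.Finite (ZMod 2) (Finset V → Ω → ZMod 2) := inferInstance

theorem CK_mono (X : Act G Ω) {𝒦 𝒦' : Finset V → Prop} (h : ∀ σ, 𝒦 σ → 𝒦' σ) (i : ℕ) :
    CK X 𝒦 i ≤ CK X 𝒦' i :=
  fun _ hf => ⟨fun σ ω hne => ⟨h σ (hf.1 σ ω hne).1, (hf.1 σ ω hne).2⟩, hf.2⟩

theorem KU_down {U σ τ : Finset V} (h : KU G U σ) (hτ : τ ⊆ σ) : KU G U τ :=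
  ⟨hτ.trans h.1, h.2.subset (by exact_mod_cast hτ)⟩

/-- the boundary of a chain is a chain -/
theorem bd_mem_CK (X : Act G Ω) {𝒦 : Finset V → Prop} (h𝒦 : ∀ σ, 𝒦 σ → ∀ τ ⊆ σ, 𝒦 τ) {i : ℕ}
    {f : Finset V → Ω → ZMod 2} (hf : f ∈ CK X 𝒦 (i + 1)) : bd f ∈ CK X 𝒦 i := by
  obtain ⟨h1, h2⟩ := hf
  refine ⟨fun τ ω h => ?_, fun τ v hv ω => ?_⟩
  · rw [bd_apply] at h
    obtain ⟨u, hu, hne⟩ := Finset.exists_ne_zero_of_sum_ne_zero h
    rw [Finset.mem_compl] at hu
    obtain ⟨h3, h4⟩ := h1 _ _ hne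
    rw [Finset.card_insert_of_notMem hu] at h4
    exact ⟨h𝒦 _ h3 τ (subset_insert _ _), by omega⟩
  · rw [bd_apply, bd_apply]
    exact Finset.sum_congr rfl fun u _ => h2 (insert u τ) v (mem_insert_of_mem hv) ω

/-- `∂∂ = 0` -/
theorem bd_bd (f : Finset V → Ω → ZMod 2) : bd (bd f) = 0 := by
  funext τ ω
  rw [bd_apply]
  simp only [bd_apply, Pi.zero_apply]
  rw [Finset.sum_sigma']
  refine Finset.sum_involution (fun p _ => ⟨p.2, p.1⟩) ?_ ?_ ?_ ?_
  · rintro ⟨v, u⟩ h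
    simp only
    rw [Finset.insert_comm v u τ]
    exact CharTwo.add_self_eq_zero _
  · rintro ⟨v, u⟩ h _ heq
    simp only [Finset.mem_sigma, Finset.mem_compl, Finset.mem_insert, not_or] at h
    simp only [Sigma.mk.injEq, heq_eq_eq] at heq
    exact h.2.1 heq.1
  · rintro ⟨v, u⟩ h
    simp only [Finset.mem_sigma, Finset.mem_compl, Finset.mem_insert, not_or] at h ⊢
    exact ⟨h.2.2, fun h1 => h.2.1 h1.symm, h.1⟩
  · rintro ⟨v, u⟩ _
    rfl

theorem BK_le_ZK (X : Act G Ω) {𝒦 : Finset V → Prop} (h𝒦 : ∀ σ, 𝒦 σ → ∀ τ ⊆ σ, 𝒦 τ) (i : ℕ) :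
    BK X 𝒦 i ≤ ZK X 𝒦 i := by
  rintro _ ⟨f, hf, rfl⟩
  exact ⟨bd_mem_CK X h𝒦 hf, bd_bd f⟩

theorem KU_down' (G : SimpleGraph V) (U : Finset V) : ∀ σ, KU G U σ → ∀ τ ⊆ σ, KU G U τ :=
  fun _ h _ hτ => KU_down h hτ

/-! ### Operators -/

/-- the cone with vertex `w` -/
def cn (w : V) : (Finset V → Ω → ZMod 2) →ₗ[ZMod 2] (Finset V → Ω → ZMod 2) where
  toFun f σ ω := if w ∈ σ then f (σ.erase w) ω else 0
  map_add' f g := by
    funext σ ω
    simp only [Pi.add_apply]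
    split_ifs <;> simp
  map_smul' c f := by
    funext σ ω
    simp only [Pi.smul_apply, smul_eq_mul, RingHom.id_apply]
    split_ifs <;> simp

/-- the link part at `w` -/
def lk (w : V) : (Finset V → Ω → ZMod 2) →ₗ[ZMod 2] (Finset V → Ω → ZMod 2) where
  toFun f τ ω := if w ∈ τ then 0 else f (insert w τ) ω
  map_add' f g := by
    funext σ ω
    simp only [Pi.add_apply]
    split_ifs <;> simp
  map_smul' c f := by
    funext σ ω
    simp only [Pi.smul_apply, smul_eq_mul, RingHom.id_apply]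
    split_ifs <;> simp

/-- the part away from `w` -/
def dl (w : V) : (Finset V → Ω → ZMod 2) →ₗ[ZMod 2] (Finset V → Ω → ZMod 2) where
  toFun f σ ω := if w ∈ σ then 0 else f σ ω
  map_add' f g := by
    funext σ ω
    simp only [Pi.add_apply]
    split_ifs <;> simp
  map_smul' c f := by
    funext σ ω
    simp only [Pi.smul_apply, smul_eq_mul, RingHom.id_apply]
    split_ifs <;> simp

/-- translation by the involution `w` -/
def sh (X : Act G Ω) (w : V) : (Finset V → Ω → ZMod 2) →ₗ[ZMod 2] (Finset V → Ω → ZMod 2) where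
  toFun f σ ω := f σ (X.s w ω)
  map_add' _ _ := rfl
  map_smul' _ _ := rfl

/-- the part where the bit of `w` vanishes -/
def hf (X : Act G Ω) (w : V) : (Finset V → Ω → ZMod 2) →ₗ[ZMod 2] (Finset V → Ω → ZMod 2) where
  toFun f σ ω := if X.bit ω w then 0 else f σ ω
  map_add' f g := by
    funext σ ω
    simp only [Pi.add_apply]
    split_ifs <;> simp
  map_smul' c f := by
    funext σ ω
    simp only [Pi.smul_apply, smul_eq_mul, RingHom.id_apply]
    split_ifs <;> simp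

/-- the part supported on the simplices in `𝒜` -/
def rs (𝒜 : Finset V → Prop) [DecidablePred 𝒜] :
    (Finset V → Ω → ZMod 2) →ₗ[ZMod 2] (Finset V → Ω → ZMod 2) where
  toFun f σ ω := if 𝒜 σ then f σ ω else 0
  map_add' f g := by
    funext σ ω
    simp only [Pi.add_apply]
    split_ifs <;> simp
  map_smul' c f := by
    funext σ ω
    simp only [Pi.smul_apply, smul_eq_mul, RingHom.id_apply]
    split_ifs <;> simp

theorem cn_apply (w : V) (f : Finset V → Ω → ZMod 2) (σ : Finset V) (ω : Ω) :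
    cn w f σ ω = if w ∈ σ then f (σ.erase w) ω else 0 := rfl

theorem lk_apply (w : V) (f : Finset V → Ω → ZMod 2) (σ : Finset V) (ω : Ω) :
    lk w f σ ω = if w ∈ σ then 0 else f (insert w σ) ω := rfl

theorem dl_apply (w : V) (f : Finset V → Ω → ZMod 2) (σ : Finset V) (ω : Ω) :
    dl w f σ ω = if w ∈ σ then 0 else f σ ω := rfl

theorem sh_apply (X : Act G Ω) (w : V) (f : Finset V → Ω → ZMod 2) (σ : Finset V) (ω : Ω) :
    sh X w f σ ω = f σ (X.s w ω) := rfl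

theorem hf_apply (X : Act G Ω) (w : V) (f : Finset V → Ω → ZMod 2) (σ : Finset V) (ω : Ω) :
    hf X w f σ ω = if X.bit ω w then 0 else f σ ω := rfl

theorem rs_apply (𝒜 : Finset V → Prop) [DecidablePred 𝒜] (f : Finset V → Ω → ZMod 2)
    (σ : Finset V) (ω : Ω) : rs 𝒜 f σ ω = if 𝒜 σ then f σ ω else 0 := rfl

/-- decomposition of a chain at a vertex -/
theorem dl_add_cn_lk (w : V) (f : Finset V → Ω → ZMod 2) : dl w f + cn w (lk w f) = f := by
  funext σ ω
  simp only [Pi.add_apply, dl_apply, cn_apply, lk_apply]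
  by_cases h : w ∈ σ
  · simp [h]
  · simp [h]

/-- the boundary of a cone -/
theorem bd_cn (w : V) (f : Finset V → Ω → ZMod 2) (hf : dl w f = f) :
    bd (cn w f) = f + cn w (bd f) := by
  have hf0 : ∀ σ ω, w ∈ σ → f σ ω = 0 := by
    intro σ ω h
    rw [← hf, dl_apply, if_pos h]
  funext τ ω
  simp only [Pi.add_apply, cn_apply, bd_apply]
  by_cases h : w ∈ τ
  · rw [hf0 τ ω h, zero_add, if_pos h]
    have h1 : (τ.erase w)ᶜ = insert w τᶜ := by
      ext x
      simp only [mem_compl, mem_erase, mem_insert, not_and_or, not_not]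
    rw [h1, Finset.sum_insert (by simp [h]), hf0 _ _ (mem_insert_self _ _), zero_add]
    refine Finset.sum_congr rfl fun v hv => ?_
    rw [mem_compl] at hv
    rw [if_pos (mem_insert_of_mem h), Finset.erase_insert_of_ne (fun h2 => hv (by rw [h2]; exact h))]
  · rw [if_neg h, add_zero, Finset.sum_eq_single w]
    · rw [if_pos (mem_insert_self _ _), Finset.erase_insert h]
    · intro v hv hne
      rw [if_neg]
      rw [mem_insert, not_or]
      exact ⟨fun h2 => hne h2.symm, h⟩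
    · intro h2
      exact absurd (mem_compl.2 h) h2

/-- the boundary away from `w` -/
theorem dl_bd (w : V) (f : Finset V → Ω → ZMod 2) : dl w (bd f) = bd (dl w f) + lk w f := by
  funext τ ω
  simp only [Pi.add_apply, dl_apply, bd_apply, lk_apply]
  by_cases h : w ∈ τ
  · rw [if_pos h, if_pos h, add_zero, Finset.sum_eq_zero]
    intro v _
    rw [if_pos (mem_insert_of_mem h)]
  · rw [if_neg h, if_neg h, ← Finset.sum_erase_add _ _ (mem_compl.2 h),
      ← Finset.sum_erase_add (a := w) _ _ (mem_compl.2 h)]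
    rw [if_pos (mem_insert_self _ _), add_zero]
    congr 1
    refine Finset.sum_congr rfl fun v hv => ?_
    rw [mem_erase] at hv
    rw [if_neg]
    rw [mem_insert, not_or]
    exact ⟨fun h2 => hv.1 h2.symm, h⟩

/-- the link part of the boundary -/
theorem lk_bd (w : V) (f : Finset V → Ω → ZMod 2) : lk w (bd f) = bd (lk w f) := by
  funext τ ω
  simp only [bd_apply, lk_apply]
  by_cases h : w ∈ τ
  · rw [if_pos h, Finset.sum_eq_zero]
    intro v _
    rw [if_pos (mem_insert_of_mem h)]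
  · rw [if_neg h, ← Finset.sum_erase_add (a := w) τᶜ _ (mem_compl.2 h),
      if_pos (mem_insert_self _ _), add_zero, Finset.compl_insert]
    refine Finset.sum_congr rfl fun v hv => ?_
    rw [mem_erase] at hv
    rw [if_neg, Finset.insert_comm]
    rw [mem_insert, not_or]
    exact ⟨fun h2 => hv.1 h2.symm, h⟩

theorem dl_dl (w : V) (f : Finset V → Ω → ZMod 2) : dl w (dl w f) = dl w f := by
  funext σ ω
  simp only [dl_apply]
  split_ifs <;> rfl

theorem dl_lk (w : V) (f : Finset V → Ω → ZMod 2) : dl w (lk w f) = lk w f := by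
  funext σ ω
  simp only [dl_apply, lk_apply]
  split_ifs <;> rfl

theorem lk_cn (w : V) (f : Finset V → Ω → ZMod 2) : lk w (cn w f) = dl w f := by
  funext σ ω
  simp only [dl_apply, lk_apply, cn_apply]
  by_cases h : w ∈ σ <;> simp [h]

theorem bd_sh (X : Act G Ω) (w : V) (f : Finset V → Ω → ZMod 2) :
    bd (sh X w f) = sh X w (bd f) := rfl

theorem bd_hf (X : Act G Ω) (w : V) (f : Finset V → Ω → ZMod 2) :
    bd (hf X w f) = hf X w (bd f) := by
  funext τ ω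
  simp only [bd_apply, hf_apply]
  split_ifs <;> simp

theorem dl_sh (X : Act G Ω) (w v : V) (f : Finset V → Ω → ZMod 2) :
    dl v (sh X w f) = sh X w (dl v f) := rfl

theorem bit_self (X : Act G Ω) (w : V) (ω : Ω) : X.bit (X.s w ω) w = !X.bit ω w := by
  rw [X.bit_s, Function.update_self]

theorem bit_ne (X : Act G Ω) {v w : V} (h : v ≠ w) (ω : Ω) :
    X.bit (X.s v ω) w = X.bit ω w := by
  rw [X.bit_s, Function.update_of_ne h.symm]

/-- a `w`-invariant chain is the trace of its half -/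
theorem hf_add_sh_hf (X : Act G Ω) (w : V) (f : Finset V → Ω → ZMod 2) (h : sh X w f = f) :
    hf X w f + sh X w (hf X w f) = f := by
  funext σ ω
  have h1 : f σ (X.s w ω) = f σ ω := congrFun (congrFun h σ) ω
  simp only [Pi.add_apply, hf_apply, sh_apply, bit_self, h1]
  cases X.bit ω w <;> simp

theorem sh_sh (X : Act G Ω) (w : V) (f : Finset V → Ω → ZMod 2) : sh X w (sh X w f) = f := by
  funext σ ω
  simp only [sh_apply, X.invol]

/-- traces are invariant -/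
theorem sh_add_sh (X : Act G Ω) (w : V) (f : Finset V → Ω → ZMod 2) :
    sh X w (f + sh X w f) = f + sh X w f := by
  rw [map_add, sh_sh, add_comm]

/-- halves of chains are chains -/
theorem hf_mem_CK (X : Act G Ω) (w : V) {𝒦 : Finset V → Prop} (h𝒦 : ∀ σ, 𝒦 σ → w ∉ σ) {i : ℕ}
    {f : Finset V → Ω → ZMod 2} (h : f ∈ CK X 𝒦 i) : hf X w f ∈ CK X 𝒦 i := by
  refine ⟨fun σ ω hne => h.1 σ ω ?_, fun σ v hv ω => ?_⟩
  · intro h0
    simp [hf_apply, h0] at hne
  · simp only [hf_apply]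
    by_cases hvw : v = w
    · subst hvw
      have h1 : ∀ ω', f σ ω' = 0 := fun ω' => by
        by_contra hne
        exact h𝒦 σ (h.1 σ ω' hne).1 hv
      rw [h1, h1, ite_self, ite_self]
    · rw [bit_ne X hvw, h.2 σ v hv]

/-- translates of chains are chains -/
theorem sh_mem_CK (X : Act G Ω) (w : V) {𝒦 : Finset V → Prop}
    (h𝒦 : ∀ σ, 𝒦 σ → ∀ v ∈ σ, v = w ∨ G.Adj w v) {i : ℕ}
    {f : Finset V → Ω → ZMod 2} (h : f ∈ CK X 𝒦 i) : sh X w f ∈ CK X 𝒦 i := by
  refine ⟨fun σ ω hne => h.1 σ _ hne, fun σ v hv ω => ?_⟩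
  simp only [sh_apply]
  by_cases h0 : ∀ ω', f σ ω' = 0
  · rw [h0, h0]
  · push Not at h0
    obtain ⟨ω', hne⟩ := h0
    rcases h𝒦 σ (h.1 σ ω' hne).1 v hv with h1 | h1
    · subst h1
      rw [h.2 σ v hv, h.2 σ v hv]
    · rw [X.comm w v h1, h.2 σ v hv]

end Chains

end Pool.Agent.H4.Singer3
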