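import Pool.Agent.H4.Singer3.SConFacts

/-!
# Singer project, part three: contraction, steps B and D
-/

set_option autoImplicit false
set_option linter.unusedSectionVars false

open Finset

namespace Pool.Agent.H4.Singer3

variable {V : Type} [DecidableEq V] [Fintype V] {G : SimpleGraph V} {U : Finset V} {u w : V}
  {Ω : Type}

private theorem SConB_sh_mem_CK (huw : G.Adj u w) (Y : Act (contr G u w) Ω) (i : ℕ)
    {f : Finset V → Ω → ZMod 2} (hf : f ∈ CK Y (Su G U u) i) :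
    sh Y w f ∈ CK Y (Su G U u) i := by
  refine sh_mem_CK Y w (fun σ hσ v hv => ?_) hf
  by_cases h : v = w
  · exact Or.inl h
  · exact Or.inr (adj_of_mem_BB (U := U) huw (Finset.mem_erase.2 ⟨h, hσ.1 hv⟩))

private theorem SConB_sh_mem_BK (huw : G.Adj u w) (Y : Act (contr G u w) Ω) (i : ℕ)
    {f : Finset V → Ω → ZMod 2} (hf : f ∈ BK Y (Su G U u) i) :
    sh Y w f ∈ BK Y (Su G U u) i := by
  obtain ⟨y, hy, rfl⟩ := hf
  exact ⟨sh Y w y, SConB_sh_mem_CK huw Y (i + 1) hy, bd_sh Y w y⟩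

private theorem SConB_Su_D2 {σ : Finset V} (h : Su G U u σ) : D2 G U u σ := by
  refine ⟨fun x hx => ?_, h.2⟩
  have h1 := mem_nbr.1 (h.1 hx)
  exact Finset.mem_erase.2 ⟨h1.2.ne.symm, h1.1⟩

private theorem SConB_BK_mono (Y : Act (contr G u w) Ω) {A B : Finset V → Prop}
    (h : ∀ σ, A σ → B σ) (i : ℕ) : BK Y A i ≤ BK Y B i := by
  rintro _ ⟨y, hy, rfl⟩
  exact ⟨y, CK_mono Y h (i + 1) hy, rfl⟩

private theorem SConB_BK_le_XZ (huw : G.Adj u w) (Y : Act (contr G u w) Ω) (i : ℕ) :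
    BK Y (Su G U u) i ≤ XZ G U u w Y i := by
  intro x hx
  refine ⟨⟨BK_le_ZK Y (fun σ h τ hτ => KU_down h hτ) i hx, ?_⟩, ?_⟩
  · exact SConB_BK_mono Y (fun σ h => SConB_Su_D2 h) i hx
  · exact SConB_BK_mono Y (fun σ h => SConB_Su_D2 h) i (SConB_sh_mem_BK huw Y i hx)

private theorem SConB_BK_le_XG (huw : G.Adj u w) (Y : Act (contr G u w) Ω) (i : ℕ) :
    BK Y (Su G U u) i ≤ XG G U u w Y i := by
  intro x hx
  exact ⟨SConB_BK_le_XZ huw Y i hx, Submodule.add_mem _ hx (SConB_sh_mem_BK huw Y i hx)⟩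

private theorem SConB_sh_mem_XZ (huw : G.Adj u w) (Y : Act (contr G u w) Ω) (i : ℕ)
    {f : Finset V → Ω → ZMod 2} (hf : f ∈ XZ G U u w Y i) :
    sh Y w f ∈ XZ G U u w Y i := by
  obtain ⟨⟨h1, h2⟩, h3⟩ := hf
  refine ⟨⟨⟨SConB_sh_mem_CK huw Y i h1.1, ?_⟩, h3⟩, ?_⟩
  · have h4 : bd f = 0 := h1.2
    change bd (sh Y w f) = 0
    rw [bd_sh, h4, map_zero]
  · change sh Y w (sh Y w f) ∈ BK Y (D2 G U u) i
    rw [sh_sh]
    exact h2

private theorem SConB_two (f : Finset V → Ω → ZMod 2) : f + f = 0 := by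
  funext σ ω
  exact CharTwo.add_self_eq_zero _

/-- An involution in characteristic two: `dim X ≤ 2 dim X^w`. `hdim_le` with `Z' = Z'' = XG`,
`φ = id`, `ψ = id + sh Y w`. The space `XZ` is stable under `sh Y w` (`sh_mem_CK`: every element of
`BB` is adjacent to `w` in `contr G u w`, and `sh_sh`), `ψ` maps `XZ` to `XG` since
`(1 + w)² = 0`, and it maps `BK Su` to itself; if `x ∈ XZ` and `ψ x ∈ BK Su` then `x ∈ XG`. -/
theorem contr_stepB [Fintype Ω] (huw : G.Adj u w) (hw : w ∈ U) (Y : Act (contr G u w) Ω) (i : ℕ) :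
    hdim (XZ G U u w Y i) (BK Y (Su G U u) i) ≤
      2 * hdim (XG G U u w Y i) (BK Y (Su G U u) i) := by
  have h := hdim_le (XZ G U u w Y i) (BK Y (Su G U u) i) (XG G U u w Y i) (BK Y (Su G U u) i)
    (XG G U u w Y i) (BK Y (Su G U u) i) (SConB_BK_le_XZ huw Y i) (SConB_BK_le_XG huw Y i)
    (SConB_BK_le_XG huw Y i) (LinearMap.id + sh Y w) LinearMap.id
    (fun z hz => ?_) (fun b hb => ?_) (fun z hz hz' => ?_) (fun b hb => hb)
  · omega
  · refine ⟨Submodule.add_mem _ hz (SConB_sh_mem_XZ huw Y i hz), ?_⟩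
    change (z + sh Y w z) + sh Y w (z + sh Y w z) ∈ BK Y (Su G U u) i
    rw [sh_add_sh, SConB_two]
    exact Submodule.zero_mem _
  · exact Submodule.add_mem _ hb (SConB_sh_mem_BK huw Y i hb)
  · exact ⟨z, ⟨hz, hz'⟩, by simp⟩

/-- `hdim_le_of_surj` with `φ = id` -/
theorem contr_stepD [Fintype Ω] (huw : G.Adj u w) (hw : w ∈ U) (Y : Act (contr G u w) Ω) (i : ℕ) :
    hdim (WZ G U u w Y i) (BK Y (KU G (BB G U u w)) i) ≤ bet Y (KU G (ZZ G U u w)) i := by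
  refine hdim_le_of_surj _ _ _ _ le_sup_right (BK_le_ZK Y (KU_down' G _) i) LinearMap.id
    (fun z hz => ?_) (fun b hb => ?_)
  · obtain ⟨z', hz', b, hb, rfl⟩ := Submodule.mem_sup.1 hz
    refine ⟨z', hz', ?_⟩
    rw [LinearMap.id_apply, sub_add_cancel_left]
    exact Submodule.neg_mem _ hb
  · exact SConB_BK_mono Y (fun σ h => ⟨h.1.trans ZZ_subset_BB, h.2⟩) i hb

end Pool.Agent.H4.Singer3
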