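import Pool.Agent.H4.Singer3.SConFacts

/-!
# Singer project, part three: contraction, step C
-/

set_option autoImplicit false
set_option linter.unusedSectionVars false

open Finset

namespace Pool.Agent.H4.Singer3

variable {V : Type} [DecidableEq V] [Fintype V] {G : SimpleGraph V} {U : Finset V} {u w : V}
  {Ω : Type}

theorem stepC_rs_mem {H : SimpleGraph V} (Y : Act H Ω) (𝒜 : Finset V → Prop)
    [DecidablePred 𝒜] {𝒦 𝒦' : Finset V → Prop} (h : ∀ σ, 𝒜 σ → 𝒦 σ → 𝒦' σ) {i : ℕ}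
    {f : Finset V → Ω → ZMod 2} (hf : f ∈ CK Y 𝒦 i) : rs 𝒜 f ∈ CK Y 𝒦' i := by
  refine ⟨fun σ ω hne => ?_, fun σ v hv ω => ?_⟩
  · rw [rs_apply] at hne
    by_cases hA : 𝒜 σ
    · rw [if_pos hA] at hne
      exact ⟨h σ hA (hf.1 σ ω hne).1, (hf.1 σ ω hne).2⟩
    · rw [if_neg hA] at hne
      exact absurd rfl hne
  · rw [rs_apply, rs_apply, hf.2 σ v hv]

theorem stepC_rs_zero {H : SimpleGraph V} (Y : Act H Ω) (𝒜 : Finset V → Prop)
    [DecidablePred 𝒜] {𝒦 : Finset V → Prop} (h : ∀ σ, 𝒦 σ → ¬ 𝒜 σ) {i : ℕ}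
    {f : Finset V → Ω → ZMod 2} (hf : f ∈ CK Y 𝒦 i) : rs 𝒜 f = 0 := by
  funext σ ω
  rw [rs_apply]
  by_cases hA : 𝒜 σ
  · rw [if_pos hA]
    by_contra hne
    exact h σ (hf.1 σ ω hne).1 hA
  · rw [if_neg hA]
    rfl

theorem stepC_add_self (f : Finset V → Ω → ZMod 2) : f + f = 0 := by
  funext σ ω
  simp only [Pi.add_apply, Pi.zero_apply]
  exact CharTwo.add_self_eq_zero _

theorem stepC_sub (f g : Finset V → Ω → ZMod 2) : f - g = f + g := by
  funext σ ω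
  simp only [Pi.add_apply, Pi.sub_apply]
  exact CharTwo.sub_eq_add _ _

theorem stepC_of_add_eq_zero {f g : Finset V → Ω → ZMod 2} (h : f + g = 0) : f = g := by
  have := stepC_sub f g
  rw [h] at this
  exact sub_eq_zero.mp this

theorem stepC_rs_compl (𝒜 ℬ : Finset V → Prop) [DecidablePred 𝒜] [DecidablePred ℬ]
    (h : ∀ σ, ℬ σ ↔ ¬ 𝒜 σ) (f : Finset V → Ω → ZMod 2) : rs ℬ f = f + rs 𝒜 f := by
  funext σ ω
  simp only [Pi.add_apply, rs_apply]
  by_cases hA : 𝒜 σ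
  · rw [if_pos hA, if_neg (fun hb => (h σ).1 hb hA)]
    exact (CharTwo.add_self_eq_zero _).symm
  · rw [if_neg hA, if_pos ((h σ).2 hA), add_zero]

theorem stepC_hf_hf {H : SimpleGraph V} (Y : Act H Ω) (w : V) (f : Finset V → Ω → ZMod 2) :
    hf Y w (hf Y w f) = hf Y w f := by
  funext σ ω
  simp only [hf_apply]
  split_ifs <;> rfl

theorem stepC_lk_inv {H : SimpleGraph V} (Y : Act H Ω) {𝒦 : Finset V → Prop} {i : ℕ}
    {f : Finset V → Ω → ZMod 2} (hf : f ∈ CK Y 𝒦 i) (w : V) : sh Y w (lk w f) = lk w f := by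
  funext τ ω
  rw [sh_apply, lk_apply, lk_apply, hf.2 _ w (mem_insert_self _ _)]

theorem stepC_Su_down : ∀ σ, Su G U u σ → ∀ τ ⊆ σ, Su G U u τ := fun _ h _ hτ => KU_down h hτ

theorem stepC_D2_down : ∀ σ, D2 G U u σ → ∀ τ ⊆ σ, D2 G U u τ := fun _ h _ hτ => KU_down h hτ

theorem stepC_D1_down : ∀ σ, D1 G U u w σ → ∀ τ ⊆ σ, D1 G U u w τ := fun _ h _ hτ => KU_down h hτ

theorem stepC_Lc_down : ∀ σ, Lc G U u w σ → ∀ τ ⊆ σ, Lc G U u w τ := fun _ h _ hτ => KU_down h hτ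

theorem stepC_Su_adj (huw : G.Adj u w) (σ : Finset V) (h : Su G U u σ) :
    ∀ v ∈ σ, v = w ∨ (contr G u w).Adj w v := by
  intro v hv
  by_cases hvw : v = w
  · exact Or.inl hvw
  · exact Or.inr (adj_of_mem_BB huw (mem_erase.2 ⟨hvw, h.1 hv⟩))

theorem stepC_BB_adj (huw : G.Adj u w) (σ : Finset V) (h : KU G (BB G U u w) σ) :
    ∀ v ∈ σ, v = w ∨ (contr G u w).Adj w v :=
  fun _ hv => Or.inr (adj_of_mem_BB huw (h.1 hv))

theorem stepC_BB_notMem (σ : Finset V) (h : KU G (BB G U u w) σ) : w ∉ σ :=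
  fun hw => notMem_BB.1 (h.1 hw)

theorem stepC_ZZ_notMem (σ : Finset V) (h : KU G (ZZ G U u w) σ) : w ∉ σ :=
  fun hw => notMem_ZZ.1 (h.1 hw)

theorem stepC_dl_mem (huw : G.Adj u w) (hw : w ∈ U) (Y : Act (contr G u w) Ω) {i : ℕ}
    {f : Finset V → Ω → ZMod 2} (hf : f ∈ CK Y (Su G U u) i) :
    dl w f ∈ CK Y (KU G (BB G U u w)) i := by
  refine ⟨fun σ ω hne => ?_, fun σ v hv ω => ?_⟩
  · rw [dl_apply] at hne
    by_cases h : w ∈ σ
    · rw [if_pos h] at hne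
      exact absurd rfl hne
    · rw [if_neg h] at hne
      refine ⟨?_, (hf.1 σ ω hne).2⟩
      rcases (Su_cases huw hw σ).1 (hf.1 σ ω hne).1 with h1 | h1
      · exact h1
      · exact absurd h1.1 h
  · rw [dl_apply, dl_apply, hf.2 σ v hv]

theorem stepC_lk_mem (huw : G.Adj u w) (hw : w ∈ U) (Y : Act (contr G u w) Ω) {i : ℕ}
    {f : Finset V → Ω → ZMod 2} (hf : f ∈ CK Y (Su G U u) (i + 1)) :
    lk w f ∈ CK Y (KU G (ZZ G U u w)) i := by
  refine ⟨fun σ ω hne => ?_, fun σ v hv ω => ?_⟩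
  · rw [lk_apply] at hne
    by_cases h : w ∈ σ
    · rw [if_pos h] at hne
      exact absurd rfl hne
    · rw [if_neg h] at hne
      have h2 := (hf.1 _ ω hne).2
      rw [card_insert_of_notMem h] at h2
      refine ⟨?_, by omega⟩
      rcases (Su_cases huw hw _).1 (hf.1 _ ω hne).1 with h1 | h1
      · exact absurd (mem_insert_self w σ) (stepC_BB_notMem _ h1)
      · rw [erase_insert h] at h1
        exact h1.2
  · rw [lk_apply, lk_apply, hf.2 _ v (mem_insert_of_mem hv)]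

/-- The key step. `hdim_le` with `Z = XG`, `B = BK Su`, `Z' = ZK Lc`, `B' = BK Lc` (degree `i + 1`),
`Z'' = WZ`, `B'' = BK BB`, `ψ x = hf Y w (x₀ + sh Y w x₀)` with `x₀ = dl w x`, and
`φ z = bd (rs 𝒜 z)`, `𝒜 σ = ¬ D2 σ` (so for `z` on `Lc`, `rs 𝒜 z` is the part on the simplices
`w ∪ τ` with `τ` a clique of `BB` not contained in `ZZ`).
(1) `ψ XG ⊆ WZ`: let `x ∈ XG`, `x + sh Y w x = bd y` with `y` on `Su` of degree `i + 1`. Apply
`dl w`: `x₀ + sh Y w x₀ = bd (dl w y) + lk w y` (`dl_bd`), where `dl w y` is a chain on `BB` and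
`lk w y` one on `ZZ` (`Su_cases`), so after `hf Y w` (commutes with `bd`): `ψ x ∈ BK BB + CK ZZ`, and
`bd (lk w y) = lk w (bd y) = lk w (x + sh Y w x) = 0`, because `lk w x` is invariant under `w`.
(2) `ψ (BK Su) ⊆ BK BB`: `x = bd y`: `x₀ = bd (dl w y) + lk w y` and `lk w y` is invariant under `w`,
so `ψ x = bd (hf Y w (1 + sh Y w) (dl w y))`.
(3) Let `x ∈ XG` with `ψ x = bd t`, `t` on `BB` of degree `i + 1`. Put `t₀ = hf Y w t`; `bd t₀ = ψ x`;
as `x₀ + sh Y w x₀` is invariant under `w`, `x₀ + sh Y w x₀ = ψ x + sh Y w (ψ x)`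
(`hf_add_sh_hf`), so `r = x₀ + bd t₀` is invariant under `w`; `c₁ = cn w r + t₀` is a chain on `D1` of
degree `i + 1`. From `bd x = 0`: `bd x₀ = lk w x` (`dl_bd`), so `bd r = lk w x` and
`bd c₁ = r + cn w (lk w x) + bd t₀ = x` (`bd_cn`, `dl_add_cn_lk`). Since `x ∈ XZ` there is `c₂` on `D2`
with `bd c₂ = x`. Then `z = c₁ + c₂` is a cycle on `Lc` and
`φ z - x = bd (rs 𝒜 c₁) - bd c₁ = bd (rs (D2) c₁)` is in `BK Su` (`Su_iff`).
(4) `φ (BK Lc) ⊆ BK Su`: `z = bd y`, `y` on `Lc` of degree `i + 2`, `y = y₁ + y₂`, `y₁ = rs 𝒜 y` (on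
`D1`), `y₂ = rs (D2) y`; `rs 𝒜 (bd y₂) = 0` as `D2` is closed under faces, so
`rs 𝒜 z = rs 𝒜 (bd y₁) = bd y₁ + rs (D2) (bd y₁)` and `φ z = bd (rs (D2) (bd y₁))` with
`rs (D2) (bd y₁)` a chain on `Su` of degree `i + 1`. -/
theorem contr_stepC [Fintype Ω] (huw : G.Adj u w) (hw : w ∈ U) (hsq : NoSquare G U u w)
    (Y : Act (contr G u w) Ω) (i : ℕ) :
    hdim (XG G U u w Y i) (BK Y (Su G U u) i) ≤
      bet Y (Lc G U u w) (i + 1) + hdim (WZ G U u w Y i) (BK Y (KU G (BB G U u w)) i) := by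
  classical
  have hSuD2 : ∀ σ, Su G U u σ → D2 G U u σ := fun σ h => ((Su_iff huw hw σ).1 h).2
  refine hdim_le (XG G U u w Y i) (BK Y (Su G U u) i) (ZK Y (Lc G U u w) (i + 1))
    (BK Y (Lc G U u w) (i + 1)) (WZ G U u w Y i) (BK Y (KU G (BB G U u w)) i) ?_
    (BK_le_ZK Y stepC_Lc_down _) le_sup_right
    ((hf Y w).comp ((LinearMap.id + sh Y w).comp (dl w)))
    (bd.comp (rs fun σ => ¬ D2 G U u σ)) ?_ ?_ ?_ ?_
  · -- boundaries are in `XG`
    rintro _ ⟨y, hy, rfl⟩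
    have hsy : sh Y w y ∈ CK Y (Su G U u) (i + 1) := sh_mem_CK Y w (stepC_Su_adj huw) hy
    refine ⟨⟨⟨BK_le_ZK Y stepC_Su_down i ⟨y, hy, rfl⟩, ⟨y, CK_mono Y hSuD2 _ hy, rfl⟩⟩,
      ⟨sh Y w y, CK_mono Y hSuD2 _ hsy, rfl⟩⟩, ?_⟩
    exact ⟨y + sh Y w y, add_mem hy hsy, by rw [map_add]; rfl⟩
  · -- `ψ` maps `XG` to `WZ`
    rintro x ⟨⟨⟨⟨hx1, hx2⟩, _⟩, _⟩, ⟨y, hy, hxy⟩⟩
    have hxy' : bd y = x + sh Y w x := hxy
    have hlk0 : bd (lk w y) = 0 := by
      rw [← lk_bd, hxy', map_add]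
      have h1 : lk w (sh Y w x) = sh Y w (lk w x) := rfl
      rw [h1, stepC_lk_inv Y hx1 w]
      exact stepC_add_self _
    have h2 : dl w x + sh Y w (dl w x) = bd (dl w y) + lk w y := by
      rw [← dl_bd, hxy', map_add]
      rfl
    have h3 : hf Y w (dl w x + sh Y w (dl w x)) =
        hf Y w (lk w y) + bd (hf Y w (dl w y)) := by
      rw [h2, map_add, bd_hf, add_comm]
    change hf Y w (dl w x + sh Y w (dl w x)) ∈ _
    rw [h3]
    refine Submodule.add_mem_sup ⟨hf_mem_CK Y w stepC_ZZ_notMem (stepC_lk_mem huw hw Y hy), ?_⟩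
      ⟨hf Y w (dl w y), hf_mem_CK Y w stepC_BB_notMem (stepC_dl_mem huw hw Y hy), rfl⟩
    change bd (hf Y w (lk w y)) = 0
    rw [bd_hf, hlk0, map_zero]
  · -- `ψ` maps boundaries to boundaries
    rintro _ ⟨y, hy, rfl⟩
    have hd := stepC_dl_mem huw hw Y hy
    refine ⟨hf Y w (dl w y + sh Y w (dl w y)), hf_mem_CK Y w stepC_BB_notMem
      (add_mem hd (sh_mem_CK Y w (stepC_BB_adj huw) hd)), ?_⟩
    change _ = (hf Y w) (dl w (bd y) + sh Y w (dl w (bd y)))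
    rw [dl_bd, bd_hf]
    congr 1
    rw [map_add, map_add, stepC_lk_inv Y hy w, bd_sh]
    have h5 : bd (dl w y) + lk w y + (sh Y w (bd (dl w y)) + lk w y) =
        bd (dl w y) + sh Y w (bd (dl w y)) + (lk w y + lk w y) := by abel
    rw [h5, stepC_add_self, add_zero]
  · -- exactness
    rintro x ⟨⟨⟨⟨hx1, hx2⟩, ⟨c₂, hc₂, hc₂'⟩⟩, _⟩, _⟩ ⟨t, ht, htx⟩
    have hx2' : bd x = 0 := hx2
    have htx' : bd t = hf Y w (dl w x + sh Y w (dl w x)) := htx
    set x₀ := dl w x with hx₀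
    set p := hf Y w (x₀ + sh Y w x₀) with hp
    have hx₀m : x₀ ∈ CK Y (KU G (BB G U u w)) i := stepC_dl_mem huw hw Y hx1
    have ht₀ : hf Y w t ∈ CK Y (KU G (BB G U u w)) (i + 1) := hf_mem_CK Y w stepC_BB_notMem ht
    have hbt : bd (hf Y w t) = p := by rw [bd_hf, htx', stepC_hf_hf]
    have hps : p + sh Y w p = x₀ + sh Y w x₀ := hf_add_sh_hf Y w _ (sh_add_sh Y w x₀)
    have hrm : x₀ + p ∈ CK Y (KU G (BB G U u w)) i := by
      rw [← hbt]
      exact add_mem hx₀m (bd_mem_CK Y (KU_down' G _) ht₀)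
    have hrs : sh Y w (x₀ + p) = x₀ + p := by
      rw [map_add]
      refine stepC_of_add_eq_zero ?_
      have h6 : sh Y w x₀ + sh Y w p + (x₀ + p) = (x₀ + sh Y w x₀) + (p + sh Y w p) := by abel
      rw [h6, hps]
      exact stepC_add_self _
    have hdr : dl w (x₀ + p) = x₀ + p := by
      funext σ ω
      rw [dl_apply]
      by_cases h : w ∈ σ
      · rw [if_pos h]
        by_contra hne
        exact stepC_BB_notMem σ (hrm.1 σ ω (fun h0 => hne h0.symm)).1 h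
      · rw [if_neg h]
    have hbx : bd x₀ = lk w x := by
      refine stepC_of_add_eq_zero ?_
      rw [hx₀, ← dl_bd, hx2', map_zero]
    have hbp : bd p = 0 := by rw [← hbt, bd_bd]
    have hbc : bd (cn w (x₀ + p) + hf Y w t) = x := by
      rw [map_add, bd_cn w _ hdr, map_add bd x₀ p, hbx, hbp, add_zero, hbt]
      have h7 : x₀ + p + cn w (lk w x) + p = (x₀ + cn w (lk w x)) + (p + p) := by abel
      rw [h7, stepC_add_self, add_zero, hx₀, dl_add_cn_lk]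
    have hc₁ : cn w (x₀ + p) + hf Y w t ∈ CK Y (D1 G U u w) (i + 1) := by
      refine add_mem ⟨fun σ ω hne => ?_, fun σ v hv ω => ?_⟩
        (CK_mono Y (fun σ h => (D1_cases huw σ).2 (Or.inl h)) _ ht₀)
      · rw [cn_apply] at hne
        by_cases h : w ∈ σ
        · rw [if_pos h] at hne
          have h8 := hrm.1 _ _ hne
          rw [card_erase_of_mem h] at h8
          have h9 : 0 < σ.card := card_pos.2 ⟨w, h⟩
          exact ⟨(D1_cases huw σ).2 (Or.inr ⟨h, h8.1⟩), by omega⟩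
        · rw [if_neg h] at hne
          exact absurd rfl hne
      · rw [cn_apply, cn_apply]
        by_cases h : w ∈ σ
        · rw [if_pos h, if_pos h]
          by_cases hvw : v = w
          · subst hvw
            exact congrFun (congrFun hrs _) ω
          · exact hrm.2 _ v (mem_erase.2 ⟨hvw, hv⟩) ω
        · rw [if_neg h, if_neg h]
    refine ⟨cn w (x₀ + p) + hf Y w t + c₂, ⟨add_mem
      (CK_mono Y (fun σ h => (Lc_iff huw hw hsq σ).2 (Or.inl h)) _ hc₁)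
      (CK_mono Y (fun σ h => (Lc_iff huw hw hsq σ).2 (Or.inr h)) _ hc₂), ?_⟩, ?_⟩
    · change bd (cn w (x₀ + p) + hf Y w t + c₂) = 0
      rw [map_add, hbc, hc₂']
      exact stepC_add_self _
    · refine ⟨rs (fun σ => D2 G U u σ) (cn w (x₀ + p) + hf Y w t),
        stepC_rs_mem Y _ (fun σ h1 h2 => (Su_iff huw hw σ).2 ⟨h2, h1⟩) hc₁, ?_⟩
      change _ = bd (rs (fun σ => ¬ D2 G U u σ) (cn w (x₀ + p) + hf Y w t + c₂)) - x
      rw [map_add (rs fun σ => ¬ D2 G U u σ), stepC_rs_zero Y (fun σ => ¬ D2 G U u σ)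
        (fun σ h => not_not.2 h) hc₂, add_zero, stepC_rs_compl (fun σ => D2 G U u σ)
        (fun σ => ¬ D2 G U u σ) (fun σ => Iff.rfl), map_add bd, hbc]
      abel
  · -- `φ` maps boundaries to boundaries
    rintro _ ⟨y, hy, rfl⟩
    have hy2 : rs (fun σ => D2 G U u σ) y ∈ CK Y (D2 G U u) (i + 1 + 1) :=
      stepC_rs_mem Y _ (fun σ h1 _ => h1) hy
    have hy1 : rs (fun σ => ¬ D2 G U u σ) y ∈ CK Y (D1 G U u w) (i + 1 + 1) :=
      stepC_rs_mem Y _ (fun σ h1 h2 => ((Lc_iff huw hw hsq σ).1 h2).resolve_right h1) hy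
    have hyy : y = rs (fun σ => ¬ D2 G U u σ) y + rs (fun σ => D2 G U u σ) y := by
      rw [stepC_rs_compl (fun σ => D2 G U u σ) (fun σ => ¬ D2 G U u σ) (fun σ => Iff.rfl),
        add_assoc, stepC_add_self, add_zero]
    refine ⟨rs (fun σ => D2 G U u σ) (bd (rs (fun σ => ¬ D2 G U u σ) y)),
      stepC_rs_mem Y _ (fun σ h1 h2 => (Su_iff huw hw σ).2 ⟨h2, h1⟩)
        (bd_mem_CK Y stepC_D1_down hy1), ?_⟩
    change _ = bd (rs (fun σ => ¬ D2 G U u σ) (bd y))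
    have h10 : rs (fun σ => ¬ D2 G U u σ) (bd y) =
        rs (fun σ => ¬ D2 G U u σ) (bd (rs (fun σ => ¬ D2 G U u σ) y)) := by
      conv_lhs => rw [hyy]
      rw [map_add bd, map_add, stepC_rs_zero Y (fun σ => ¬ D2 G U u σ)
        (fun σ h => not_not.2 h) (bd_mem_CK Y stepC_D2_down hy2), add_zero]
    rw [h10, stepC_rs_compl (fun σ => D2 G U u σ) (fun σ => ¬ D2 G U u σ) (fun σ => Iff.rfl)
      (bd (rs (fun σ => ¬ D2 G U u σ) y)), map_add bd (bd _), bd_bd, zero_add]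

end Pool.Agent.H4.Singer3
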