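import Pool.Agent.H4.Singer3.SConFacts

/-!
# Singer project, part three: contraction, step E
-/

set_option autoImplicit false
set_option linter.unusedSectionVars false

open Finset

namespace Pool.Agent.H4.Singer3

variable {V : Type} [DecidableEq V] [Fintype V] {G : SimpleGraph V} {U : Finset V} {u w : V}
  {Ω : Type}

section StepE

/-- cliques of `BB` not contained in `ZZ` -/
def SConE_KA (G : SimpleGraph V) (U : Finset V) (u w : V) (σ : Finset V) : Prop :=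
  KU G (BB G U u w) σ ∧ ¬ KU G (ZZ G U u w) σ

/-- the auxiliary space of relative cycles -/
def SConE_RZ (G : SimpleGraph V) (U : Finset V) (u w : V) (Y : Act (contr G u w) Ω) (i : ℕ) :
    Submodule (ZMod 2) (Finset V → Ω → ZMod 2) :=
  CK Y (SConE_KA G U u w) (i + 1) ⊓ LinearMap.ker (sh Y w - LinearMap.id) ⊓
    (CK Y (KU G (ZZ G U u w)) i).comap bd

open Classical in
/-- the auxiliary space of relative boundaries -/
noncomputable def SConE_RB (G : SimpleGraph V) (U : Finset V) (u w : V) (Y : Act (contr G u w) Ω)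
    (i : ℕ) : Submodule (ZMod 2) (Finset V → Ω → ZMod 2) :=
  (CK Y (KU G (BB G U u w)) (i + 2) ⊓ LinearMap.ker (sh Y w - LinearMap.id)).map
    ((rs (SConE_KA G U u w)).comp bd)

theorem SConE_ker {X : Act G Ω} {f : Finset V → Ω → ZMod 2} :
    f ∈ LinearMap.ker (sh X w - LinearMap.id) ↔ sh X w f = f := by
  rw [LinearMap.mem_ker, LinearMap.sub_apply, LinearMap.id_apply, sub_eq_zero]

open Classical in
theorem SConE_rs_mem {X : Act G Ω} {𝒦 𝒜 𝒦' : Finset V → Prop} {i : ℕ}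
    {f : Finset V → Ω → ZMod 2} (hf : f ∈ CK X 𝒦 i) (h : ∀ σ, 𝒦 σ → 𝒜 σ → 𝒦' σ) :
    rs 𝒜 f ∈ CK X 𝒦' i := by
  refine ⟨fun σ ω hne => ?_, fun σ v hv ω => ?_⟩
  · rw [rs_apply] at hne
    split_ifs at hne with h1
    · exact ⟨h σ (hf.1 σ ω hne).1 h1, (hf.1 σ ω hne).2⟩
    · exact absurd rfl hne
  · rw [rs_apply, rs_apply, hf.2 σ v hv]

open Classical in
theorem SConE_sub_rs_mem {X : Act G Ω} {𝒦 𝒜 𝒦' : Finset V → Prop} {i : ℕ}
    {f : Finset V → Ω → ZMod 2} (hf : f ∈ CK X 𝒦 i) (h : ∀ σ, 𝒦 σ → ¬ 𝒜 σ → 𝒦' σ) :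
    f - rs 𝒜 f ∈ CK X 𝒦' i := by
  have h1 : ∀ σ ω, (f - rs 𝒜 f) σ ω = if 𝒜 σ then 0 else f σ ω := by
    intro σ ω
    rw [Pi.sub_apply, Pi.sub_apply, rs_apply]
    split_ifs <;> simp
  refine ⟨fun σ ω hne => ?_, fun σ v hv ω => ?_⟩
  · rw [h1] at hne
    split_ifs at hne with h2
    · exact absurd rfl hne
    · exact ⟨h σ (hf.1 σ ω hne).1 h2, (hf.1 σ ω hne).2⟩
  · rw [h1, h1, hf.2 σ v hv]

open Classical in
theorem SConE_sh_rs {X : Act G Ω} {𝒜 : Finset V → Prop} {f : Finset V → Ω → ZMod 2}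
    (h : sh X w f = f) : sh X w (rs 𝒜 f) = rs 𝒜 f := by
  funext σ ω
  have h1 : f σ (X.s w ω) = f σ ω := congrFun (congrFun h σ) ω
  rw [sh_apply, rs_apply, rs_apply, h1]

theorem SConE_dl {X : Act G Ω} {𝒦 : Finset V → Prop} {i : ℕ} {f : Finset V → Ω → ZMod 2}
    (hf : f ∈ CK X 𝒦 i) (h : ∀ σ, 𝒦 σ → w ∉ σ) : dl w f = f := by
  funext σ ω
  rw [dl_apply]
  split_ifs with h1
  · by_contra hne
    exact h σ (hf.1 σ ω (fun h2 => hne h2.symm)).1 h1
  · rfl

/-- cones are chains -/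
theorem SConE_cn_mem {X : Act G Ω} {𝒦 𝒦' : Finset V → Prop} {i : ℕ}
    {f : Finset V → Ω → ZMod 2} (hf : f ∈ CK X 𝒦 i) (hsh : sh X w f = f)
    (h : ∀ σ, w ∈ σ → 𝒦 (σ.erase w) → 𝒦' σ) : cn w f ∈ CK X 𝒦' (i + 1) := by
  refine ⟨fun σ ω hne => ?_, fun σ v hv ω => ?_⟩
  · rw [cn_apply] at hne
    split_ifs at hne with h1
    · have h2 := hf.1 _ ω hne
      rw [card_erase_of_mem h1] at h2
      have h3 : 0 < σ.card := card_pos.2 ⟨w, h1⟩
      exact ⟨h σ h1 h2.1, by omega⟩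
    · exact absurd rfl hne
  · rw [cn_apply, cn_apply]
    split_ifs with h1
    · by_cases hvw : v = w
      · subst hvw
        exact congrFun (congrFun hsh (σ.erase v)) ω
      · exact hf.2 _ v (mem_erase.2 ⟨hvw, hv⟩) ω
    · rfl

theorem SConE_hf_hf (X : Act G Ω) (f : Finset V → Ω → ZMod 2) :
    hf X w (hf X w f) = hf X w f := by
  funext σ ω
  rw [hf_apply, hf_apply]
  split_ifs <;> rfl

theorem SConE_add_self (f : Finset V → Ω → ZMod 2) : f + f = 0 := by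
  funext σ ω
  exact CharTwo.add_self_eq_zero _

theorem SConE_KA_BB {σ : Finset V} (h : SConE_KA G U u w σ) : KU G (BB G U u w) σ := h.1

theorem SConE_BB_w {σ : Finset V} (h : KU G (BB G U u w) σ) : w ∉ σ :=
  fun h1 => notMem_BB.1 (h.1 h1)

theorem SConE_ZZ_BB {σ : Finset V} (h : KU G (ZZ G U u w) σ) : KU G (BB G U u w) σ :=
  ⟨h.1.trans ZZ_subset_BB, h.2⟩

theorem SConE_BB_adj (huw : G.Adj u w) {σ : Finset V} (h : KU G (BB G U u w) σ) (v : V)
    (hv : v ∈ σ) : v = w ∨ (contr G u w).Adj w v := Or.inr (adj_of_mem_BB huw (h.1 hv))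

/-- the trace of a chain on `BB` is an invariant chain on `BB` -/
theorem SConE_tr_mem (huw : G.Adj u w) (Y : Act (contr G u w) Ω) {𝒦 : Finset V → Prop}
    (h𝒦 : ∀ σ, 𝒦 σ → KU G (BB G U u w) σ) {i : ℕ} {f : Finset V → Ω → ZMod 2}
    (hf' : f ∈ CK Y 𝒦 i) : hf Y w f + sh Y w (hf Y w f) ∈ CK Y 𝒦 i := by
  have h1 : hf Y w f ∈ CK Y 𝒦 i := hf_mem_CK Y w (fun σ h => SConE_BB_w (h𝒦 σ h)) hf'
  exact Submodule.add_mem _ h1
    (sh_mem_CK Y w (fun σ h v hv => SConE_BB_adj huw (h𝒦 σ h) v hv) h1)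

theorem SConE_RB_le (huw : G.Adj u w) (Y : Act (contr G u w) Ω) (i : ℕ) :
    SConE_RB G U u w Y i ≤ SConE_RZ G U u w Y i := by
  classical
  rintro _ ⟨t, ⟨ht1, ht2⟩, rfl⟩
  rw [SetLike.mem_coe, SConE_ker] at ht2
  have h1 : bd t ∈ CK Y (KU G (BB G U u w)) (i + 1) := bd_mem_CK Y (KU_down' G _) ht1
  have h2 : sh Y w (bd t) = bd t := by rw [← bd_sh, ht2]
  refine ⟨⟨?_, ?_⟩, ?_⟩
  · rw [LinearMap.comp_apply]
    exact SConE_rs_mem h1 fun σ _ h => h
  · rw [SetLike.mem_coe, SConE_ker, LinearMap.comp_apply]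
    exact SConE_sh_rs h2
  · rw [SetLike.mem_coe, Submodule.mem_comap, LinearMap.comp_apply]
    have h3 : bd (rs (SConE_KA G U u w) (bd t)) =
        - bd (bd t - rs (SConE_KA G U u w) (bd t)) := by
      rw [map_sub, bd_bd, zero_sub, neg_neg]
    rw [h3]
    refine Submodule.neg_mem _ (bd_mem_CK Y (KU_down' G _) ?_)
    refine SConE_sub_rs_mem h1 fun σ h4 h5 => ?_
    by_contra h6
    exact h5 ⟨h4, h6⟩

theorem SConE_first [Fintype Ω] (huw : G.Adj u w) (hw : w ∈ U) (hsq : NoSquare G U u w)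
    (Y : Act (contr G u w) Ω) (i : ℕ) :
    bet Y (D2 G U u) (i + 1) ≤ hdim (SConE_RZ G U u w Y i) (SConE_RB G U u w Y i) +
      bet Y (Lc G U u w) (i + 1) := by
  classical
  have hmono : ∀ σ, D2 G U u σ → Lc G U u w σ := fun σ h => (Lc_iff huw hw hsq σ).2 (Or.inr h)
  have hD2 : ∀ σ, D2 G U u σ → ∀ τ ⊆ σ, D2 G U u τ := KU_down' G _
  have hLc : ∀ σ, Lc G U u w σ → ∀ τ ⊆ σ, Lc G U u w τ := KU_down' _ _
  refine hdim_le (ZK Y (D2 G U u) (i + 1)) (BK Y (D2 G U u) (i + 1)) _ _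
    (ZK Y (Lc G U u w) (i + 1)) (BK Y (Lc G U u w) (i + 1)) (BK_le_ZK Y hD2 _)
    (SConE_RB_le huw Y i) (BK_le_ZK Y hLc _) LinearMap.id (bd.comp (cn w)) ?_ ?_ ?_ ?_
  · intro z hz
    exact ⟨CK_mono Y hmono _ hz.1, hz.2⟩
  · intro b hb
    obtain ⟨y, hy, rfl⟩ := hb
    exact ⟨y, CK_mono Y hmono _ hy, rfl⟩
  · intro z hz hzB
    obtain ⟨y, hy, hyz⟩ := hzB
    rw [LinearMap.id_apply] at hyz
    set r := rs (SConE_KA G U u w) (lk w y) with hr
    -- values of `r`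
    have hrv : ∀ τ ω, r τ ω ≠ 0 → SConE_KA G U u w τ ∧ w ∉ τ ∧ y (insert w τ) ω ≠ 0 := by
      intro τ ω hne
      rw [hr, rs_apply] at hne
      split_ifs at hne with h1
      · rw [lk_apply] at hne
        split_ifs at hne with h2
        · exact absurd rfl hne
        · exact ⟨h1, h2, hne⟩
      · exact absurd rfl hne
    have hrCK : r ∈ CK Y (SConE_KA G U u w) (i + 1) := by
      refine ⟨fun τ ω hne => ?_, fun τ v hv ω => ?_⟩
      · obtain ⟨h1, h2, h3⟩ := hrv τ ω hne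
        have h4 := (hy.1 _ ω h3).2
        rw [card_insert_of_notMem h2] at h4
        exact ⟨h1, by omega⟩
      · rw [hr, rs_apply, rs_apply, lk_apply, lk_apply,
          hy.2 (insert w τ) v (mem_insert_of_mem hv)]
    have hrsh : sh Y w r = r := by
      funext τ ω
      rw [sh_apply, hr, rs_apply, rs_apply, lk_apply, lk_apply,
        hy.2 (insert w τ) w (mem_insert_self _ _)]
    have hrBB : r ∈ CK Y (KU G (BB G U u w)) (i + 1) := CK_mono Y (fun _ h => h.1) _ hrCK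
    have hdlr : dl w r = r := SConE_dl hrBB fun σ h => SConE_BB_w h
    -- the rest is on `D2`
    have hrest : y - cn w r ∈ CK Y (D2 G U u) (i + 1 + 1) := by
      have hval : ∀ σ ω, (y - cn w r) σ ω =
          if w ∈ σ ∧ SConE_KA G U u w (σ.erase w) then 0 else y σ ω := by
        intro σ ω
        rw [Pi.sub_apply, Pi.sub_apply, cn_apply]
        by_cases h1 : w ∈ σ
        · rw [if_pos h1, hr, rs_apply]
          by_cases h2 : SConE_KA G U u w (σ.erase w)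
          · rw [if_pos h2, if_pos ⟨h1, h2⟩, lk_apply, if_neg (notMem_erase w σ),
              insert_erase h1, sub_self]
          · rw [if_neg h2, if_neg (fun h => h2 h.2), sub_zero]
        · rw [if_neg h1, if_neg (fun h => h1 h.1), sub_zero]
      refine ⟨fun σ ω hne => ?_, fun σ v hv ω => ?_⟩
      · rw [hval] at hne
        split_ifs at hne with h1
        · exact absurd rfl hne
        · obtain ⟨h2, h3⟩ := hy.1 σ ω hne
          refine ⟨?_, h3⟩
          rcases (Lc_iff huw hw hsq σ).1 h2 with h4 | h4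
          · rcases (D1_cases huw σ).1 h4 with h5 | ⟨h5, h6⟩
            · exact BB_le_D2 h5
            · have h7 : KU G (ZZ G U u w) (σ.erase w) := by
                by_contra h8
                exact h1 ⟨h5, h6, h8⟩
              have h8 := (D2_insert_iff huw hw h6).2 h7
              rwa [insert_erase h5] at h8
          · exact h4
      · rw [hval, hval, hy.2 σ v hv]
    refine ⟨r, ⟨⟨hrCK, SConE_ker.2 hrsh⟩, ?_⟩, ?_⟩
    · -- the boundary of `r`
      rw [SetLike.mem_coe, Submodule.mem_comap]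
      have h1 : bd r = lk w (z - bd (y - cn w r)) := by
        rw [map_sub, map_sub, map_sub, lk_bd w (cn w r), lk_cn, hdlr, hyz, sub_sub_cancel]
      have h2 : z - bd (y - cn w r) ∈ CK Y (D2 G U u) (i + 1) :=
        Submodule.sub_mem _ hz.1 (bd_mem_CK Y hD2 hrest)
      have h3 : bd r ∈ CK Y (KU G (BB G U u w)) i := bd_mem_CK Y (KU_down' G _) hrBB
      refine ⟨fun τ ω hne => ?_, h3.2⟩
      obtain ⟨h4, h5⟩ := h3.1 τ ω hne
      rw [h1, lk_apply] at hne
      split_ifs at hne with h6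
      · exact absurd rfl hne
      · exact ⟨(D2_insert_iff huw hw h4).1 (h2.1 _ ω hne).1, h5⟩
    · rw [LinearMap.comp_apply]
      refine ⟨-(y - cn w r), Submodule.neg_mem _ hrest, ?_⟩
      rw [map_neg, map_sub, hyz]
      abel
  · rintro _ ⟨t, ⟨ht1, ht2⟩, rfl⟩
    rw [SetLike.mem_coe, SConE_ker] at ht2
    rw [LinearMap.comp_apply, LinearMap.comp_apply]
    have h1 : bd t ∈ CK Y (KU G (BB G U u w)) (i + 1) := bd_mem_CK Y (KU_down' G _) ht1
    have h2 : sh Y w (bd t) = bd t := by rw [← bd_sh, ht2]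
    set b := rs (SConE_KA G U u w) (bd t) with hb
    have hs : bd t - b ∈ CK Y (KU G (ZZ G U u w)) (i + 1) := by
      refine SConE_sub_rs_mem h1 fun σ h4 h5 => ?_
      by_contra h6
      exact h5 ⟨h4, h6⟩
    have hssh : sh Y w (bd t - b) = bd t - b := by
      rw [map_sub, h2, hb, SConE_sh_rs h2]
    have h3 : bd (cn w (bd t)) = bd t := by
      rw [bd_cn w (bd t) (SConE_dl h1 fun σ h => SConE_BB_w h), bd_bd, map_zero, add_zero]
    refine ⟨t - cn w (bd t - b), Submodule.sub_mem _ (CK_mono Y (fun σ h => BB_le_D2 h) _ ht1)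
      (SConE_cn_mem hs hssh fun σ h4 h5 => ?_), ?_⟩
    · have h6 := (D2_insert_iff huw hw (SConE_ZZ_BB h5)).2 h5
      rwa [insert_erase h4] at h6
    · rw [map_sub, map_sub, map_sub, h3]
      abel

theorem SConE_second [Fintype Ω] (huw : G.Adj u w) (Y : Act (contr G u w) Ω) (i : ℕ) :
    hdim (SConE_RZ G U u w Y i) (SConE_RB G U u w Y i) ≤
      bet Y (KU G (BB G U u w)) (i + 1) + bet Y (KU G (ZZ G U u w)) i := by
  classical
  refine hdim_le _ _ (ZK Y (KU G (BB G U u w)) (i + 1)) (BK Y (KU G (BB G U u w)) (i + 1))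
    (ZK Y (KU G (ZZ G U u w)) i) (BK Y (KU G (ZZ G U u w)) i) (SConE_RB_le huw Y i)
    (BK_le_ZK Y (KU_down' G _) _) (BK_le_ZK Y (KU_down' G _) _) ((hf Y w).comp bd)
    ((rs (SConE_KA G U u w)).comp (hf Y w + (sh Y w).comp (hf Y w))) ?_ ?_ ?_ ?_
  · rintro r ⟨⟨_, _⟩, hr⟩
    rw [SetLike.mem_coe, Submodule.mem_comap] at hr
    refine ⟨hf_mem_CK Y w (fun σ h => SConE_BB_w (SConE_ZZ_BB h)) hr, ?_⟩
    rw [SetLike.mem_coe, LinearMap.mem_ker, LinearMap.comp_apply, bd_hf, bd_bd, map_zero]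
  · rintro _ ⟨t, ⟨ht1, ht2⟩, rfl⟩
    rw [SetLike.mem_coe, SConE_ker] at ht2
    rw [LinearMap.comp_apply, LinearMap.comp_apply]
    have h1 : bd t ∈ CK Y (KU G (BB G U u w)) (i + 1) := bd_mem_CK Y (KU_down' G _) ht1
    set b := rs (SConE_KA G U u w) (bd t) with hb
    have hs : bd t - b ∈ CK Y (KU G (ZZ G U u w)) (i + 1) := by
      refine SConE_sub_rs_mem h1 fun σ h4 h5 => ?_
      by_contra h6
      exact h5 ⟨h4, h6⟩
    refine ⟨-hf Y w (bd t - b), Submodule.neg_mem _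
      (hf_mem_CK Y w (fun σ h => SConE_BB_w (SConE_ZZ_BB h)) hs), ?_⟩
    rw [map_neg, bd_hf, map_sub, bd_bd, zero_sub, map_neg, neg_neg]
  · rintro r ⟨⟨hr1, hr2⟩, hr3⟩ ⟨q, hq, hqr⟩
    rw [SetLike.mem_coe, SConE_ker] at hr2
    rw [LinearMap.comp_apply] at hqr
    set q' := hf Y w q + sh Y w (hf Y w q) with hq'
    have hq'm : q' ∈ CK Y (KU G (ZZ G U u w)) (i + 1) :=
      SConE_tr_mem huw Y (fun σ h => SConE_ZZ_BB h) hq
    have hbq : bd q' = bd r := by
      rw [hq', map_add, bd_sh, bd_hf, hqr, SConE_hf_hf]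
      exact hf_add_sh_hf Y w (bd r) (by rw [← bd_sh, hr2])
    have hq'sh : sh Y w q' = q' := sh_add_sh Y w _
    have hzsh : sh Y w (r + q') = r + q' := by rw [map_add, hr2, hq'sh]
    refine ⟨r + q', ⟨Submodule.add_mem _ (CK_mono Y (fun σ h => h.1) _ hr1)
      (CK_mono Y (fun σ h => SConE_ZZ_BB h) _ hq'm), ?_⟩, ?_⟩
    · rw [SetLike.mem_coe, LinearMap.mem_ker, map_add, hbq, SConE_add_self]
    · have h1 : ((rs (SConE_KA G U u w)).comp (hf Y w + (sh Y w).comp (hf Y w))) (r + q') = r := by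
        rw [LinearMap.comp_apply, LinearMap.add_apply, LinearMap.comp_apply,
          hf_add_sh_hf Y w _ hzsh]
        funext σ ω
        rw [rs_apply, Pi.add_apply, Pi.add_apply]
        split_ifs with h2
        · have h3 : q' σ ω = 0 := by
            by_contra hne
            exact h2.2 (hq'm.1 σ ω hne).1
          rw [h3, add_zero]
        · by_contra hne
          exact h2 (hr1.1 σ ω (fun h3 => hne h3.symm)).1
      rw [h1, sub_self]
      exact Submodule.zero_mem _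
  · rintro _ ⟨t, ht, rfl⟩
    refine ⟨hf Y w t + sh Y w (hf Y w t), ⟨SConE_tr_mem huw Y (fun σ h => h) ht,
      SConE_ker.2 (sh_add_sh Y w _)⟩, ?_⟩
    rw [LinearMap.comp_apply, LinearMap.comp_apply, LinearMap.add_apply, LinearMap.comp_apply,
      map_add bd, bd_sh, bd_hf]

end StepE

/-- `D2` is obtained from `Lc` by deleting the simplices `w ∪ τ`, `τ` a clique of `BB` not contained
in `ZZ`. Let `𝒜 τ = (τ ⊆ BB ∧ ¬ τ ⊆ ZZ)`. Auxiliary spaces (degree `i + 1`):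
`RZ = {r | r a chain on BB supported on 𝒜, sh Y w r = r, bd r ∈ CK ZZ i}`,
`RB = {rs 𝒜 (bd t) | t a chain on BB of degree i + 2 with sh Y w t = t}`.
First `hdim_le` for `Z = ZK D2`, `B = BK D2`, `Z'' = ZK Lc`, `B'' = BK Lc`, `ψ = id`, `Z' = RZ`,
`B' = RB`, `φ r = bd (cn w r)`: if a cycle `z` on `D2` is `bd y` with `y` on `Lc` let
`r = rs 𝒜 (lk w y)`; `φ r - z = bd (y - cn w r)` and `y - cn w r` is on `D2` (`Lc_iff`, `D1_cases`,
`D2_insert_iff`); `bd r ∈ CK ZZ`: call `τ` good if `D2 (insert w τ)`. `lk w y` has boundary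
`lk w (bd y) = lk w z`, which is supported on good `τ`, and `lk w y - r` too (every `τ` with
`w ∪ τ ∈ Lc` is good or in `𝒜`), so `bd r` is supported on good `τ`; but `r` is on `BB`, so `bd r` is on
`BB`, and a good clique of `BB` is in `ZZ` (`D2_insert_iff`). `φ` maps `RB` to `BK D2`: `cn w (rs 𝒜 (bd t)) = cn w (bd t) - cn w s`,
`s = rs (⊆ ZZ) (bd t)`, `bd (cn w (bd t)) = bd t` (`bd_cn`, `bd_bd`), `t` and `cn w s` are on `D2`.
Then `hdim RZ RB ≤ bet BB (i + 1) + bet ZZ i` by `hdim_le` with `ψ r = hf Y w (bd r)`,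
`Z'' = ZK ZZ i`, `B'' = BK ZZ i`, `Z' = ZK BB (i + 1)`, `B' = BK BB (i + 1)`,
`φ z' = rs 𝒜 (hf Y w z' + sh Y w (hf Y w z'))`: if `hf Y w (bd r) = bd q`, `q` on `ZZ` of degree
`i + 1`, put `q' = hf Y w q + sh Y w (hf Y w q)`; then `bd q' = bd r` (`hf_add_sh_hf`, `bd r` is
invariant under `w`) and `z' = r + q'` is an invariant cycle on `BB` with `φ z' = rs 𝒜 (r + q') = r`. -/
theorem contr_stepE [Fintype Ω] (huw : G.Adj u w) (hw : w ∈ U) (hsq : NoSquare G U u w)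
    (Y : Act (contr G u w) Ω) (i : ℕ) :
    bet Y (D2 G U u) (i + 1) ≤ bet Y (Lc G U u w) (i + 1) +
      bet Y (KU G (BB G U u w)) (i + 1) + bet Y (KU G (ZZ G U u w)) i := by
  have h1 := SConE_first huw hw hsq Y i
  have h2 := SConE_second (U := U) huw Y i
  omega

end Pool.Agent.H4.Singer3
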