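import Pool.Agent.H4.Singer3.SConA
import Pool.Agent.H4.Singer3.SConB
import Pool.Agent.H4.Singer3.SConC
import Pool.Agent.H4.Singer3.SConE

/-!
# Singer project, part three: contraction
-/

set_option autoImplicit false
set_option linter.unusedSectionVars false

open Finset

namespace Pool.Agent.H4.Singer3

variable {V : Type} [DecidableEq V] [Fintype V] {G : SimpleGraph V} {U : Finset V} {u w : V}

theorem KU_congr {K : SimpleGraph V} {Ω : Type} (Y : Act K Ω) {𝒦 𝒦' : Finset V → Prop}
    (h : ∀ σ, 𝒦 σ ↔ 𝒦' σ) (i : ℕ) : bet Y 𝒦 i = bet Y 𝒦' i := by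
  have : 𝒦 = 𝒦' := funext fun σ => propext (h σ)
  rw [this]

/-- the inequality for the contraction of an edge -/
theorem bet_contr_le {P : Type} [Group P] [Fintype P] (huw : G.Adj u w) (hu : u ∈ U) (hw : w ∈ U)
    (hsq : NoSquare G U u w) (D : Gen (contr G u w) P) (i : ℕ) :
    bet (contrGen huw D).act (KU G U) (i + 1) ≤
      4 * bet D.act (KU (contr G u w) (U.erase u)) (i + 1) +
      2 * bet D.act (KU (contr G u w) (BB G U u w)) (i + 1) +
      4 * bet D.act (KU (contr G u w) (ZZ G U u w)) i := by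
  have h1 := contr_stepA huw hu hw D i
  have h2 := contr_stepB huw hw D.act i
  have h3 := contr_stepC huw hw hsq D.act i
  have h4 := contr_stepD huw hw D.act i
  have h5 := contr_stepE huw hw hsq D.act i
  have h6 := KU_congr D.act (KU_BB (U := U) huw) (i + 1)
  have h7 := KU_congr D.act (KU_ZZ (U := U) huw) i
  rw [h6, h7]
  change _ ≤ 4 * bet D.act (Lc G U u w) (i + 1) + _ + _
  omega

end Pool.Agent.H4.Singer3
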