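import Pool.Agent.H4.Singer3.SConFacts

/-!
# Singer project, part three: contraction, step A
-/

set_option autoImplicit false
set_option linter.unusedSectionVars false

open Finset

namespace Pool.Agent.H4.Singer3

variable {V : Type} [DecidableEq V] [Fintype V] {G : SimpleGraph V} {U : Finset V} {u w : V}

/-! ### Auxiliary facts -/

private theorem SConA_s_ne {P : Type} [Group P] (huw : G.Adj u w) (D : Gen (contr G u w) P)
    {v : V} (hv : v ≠ u) (p : P) (c : Multiplicative (ZMod 2)) :
    (contrGen huw D).act.s v (p, c) = (p * D.g v, c) := by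
  change (p, c) * (if v = u then (D.g w, Multiplicative.ofAdd 1) else (D.g v, 1)) = _
  rw [if_neg hv, Prod.mk_mul_mk, mul_one]

private theorem SConA_s_u {P : Type} [Group P] (huw : G.Adj u w) (D : Gen (contr G u w) P)
    (p : P) (c : Multiplicative (ZMod 2)) :
    (contrGen huw D).act.s u (p, c) = (p * D.g w, c * Multiplicative.ofAdd 1) := by
  change (p, c) * (if u = u then (D.g w, Multiplicative.ofAdd 1) else (D.g u, 1)) = _
  rw [if_pos rfl, Prod.mk_mul_mk]

/-- a component -/
private def SConA_cc (P : Type) (c : Multiplicative (ZMod 2)) :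
    (Finset V → P × Multiplicative (ZMod 2) → ZMod 2) →ₗ[ZMod 2] (Finset V → P → ZMod 2) where
  toFun f σ p := f σ (p, c)
  map_add' _ _ := rfl
  map_smul' _ _ := rfl

/-- the function with given components -/
private def SConA_mk (P : Type) :
    ((Finset V → P → ZMod 2) × (Finset V → P → ZMod 2)) →ₗ[ZMod 2]
      (Finset V → P × Multiplicative (ZMod 2) → ZMod 2) where
  toFun a σ ω := if ω.2 = 1 then a.1 σ ω.1 else a.2 σ ω.1
  map_add' a b := by
    funext σ ω
    simp only [Pi.add_apply, Prod.fst_add, Prod.snd_add]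
    split_ifs <;> rfl
  map_smul' c a := by
    funext σ ω
    simp only [Pi.smul_apply, Prod.smul_fst, Prod.smul_snd, RingHom.id_apply]
    split_ifs <;> rfl

private theorem SConA_cc_apply {P : Type} (c : Multiplicative (ZMod 2))
    (f : Finset V → P × Multiplicative (ZMod 2) → ZMod 2) (σ : Finset V) (p : P) :
    SConA_cc P c f σ p = f σ (p, c) := rfl

private theorem SConA_mk_apply {P : Type} (a b : Finset V → P → ZMod 2) (σ : Finset V)
    (ω : P × Multiplicative (ZMod 2)) :
    SConA_mk P (a, b) σ ω = if ω.2 = 1 then a σ ω.1 else b σ ω.1 := rfl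

private theorem SConA_bd_cc {P : Type} (c : Multiplicative (ZMod 2))
    (f : Finset V → P × Multiplicative (ZMod 2) → ZMod 2) :
    bd (SConA_cc P c f) = SConA_cc P c (bd f) := rfl

private theorem SConA_bd_mk {P : Type} (a b : Finset V → P → ZMod 2) :
    bd (SConA_mk P (a, b)) = SConA_mk P (bd a, bd b) := by
  funext σ ω
  simp only [bd_apply, SConA_mk_apply]
  split_ifs <;> rfl

private theorem SConA_c2 : ∀ c : Multiplicative (ZMod 2), c = 1 ∨ c = Multiplicative.ofAdd 1 := by
  decide

private theorem SConA_t_ne : (Multiplicative.ofAdd (1 : ZMod 2)) ≠ 1 := by decide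

private theorem SConA_tt : (Multiplicative.ofAdd (1 : ZMod 2)) * Multiplicative.ofAdd 1 = 1 := by
  decide

private theorem SConA_mk_cc {P : Type} (f : Finset V → P × Multiplicative (ZMod 2) → ZMod 2) :
    SConA_mk P (SConA_cc P 1 f, SConA_cc P (Multiplicative.ofAdd 1) f) = f := by
  funext σ ω
  obtain ⟨p, c⟩ := ω
  rw [SConA_mk_apply, SConA_cc_apply, SConA_cc_apply]
  rcases SConA_c2 c with h | h
  · subst h
    simp
  · subst h
    rw [if_neg SConA_t_ne]

private theorem SConA_two {Ω : Type} (f : Finset V → Ω → ZMod 2) : f + f = 0 := by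
  funext σ ω
  exact CharTwo.add_self_eq_zero _

private theorem SConA_Su_of {σ : Finset V} (hu : u ∉ σ) (h : KU G U (insert u σ)) :
    Su G U u σ := by
  refine ⟨fun x hx => mem_nbr.2 ⟨h.1 (mem_insert_of_mem hx), ?_⟩,
    h.2.subset (by exact_mod_cast subset_insert u σ)⟩
  exact h.2 (by simp) (by simp [hx]) (fun h1 => hu (by rw [h1]; exact hx))

private theorem SConA_KU_of {σ : Finset V} (hu : u ∈ U) (h : Su G U u σ) :
    KU G U (insert u σ) := by
  refine ⟨insert_subset hu (h.1.trans fun x hx => (mem_nbr.1 hx).1), ?_⟩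
  rw [Finset.coe_insert, SimpleGraph.isClique_insert]
  exact ⟨h.2, fun x hx _ => (mem_nbr.1 (h.1 hx)).2⟩

private theorem SConA_Su_D2 {σ : Finset V} (h : Su G U u σ) : D2 G U u σ := by
  refine ⟨fun x hx => ?_, h.2⟩
  have h1 := mem_nbr.1 (h.1 hx)
  exact Finset.mem_erase.2 ⟨h1.2.ne.symm, h1.1⟩

private theorem SConA_notMem_Su {σ : Finset V} (h : Su G U u σ) : u ∉ σ :=
  fun hu => (mem_erase.1 ((SConA_Su_D2 h).1 hu)).1 rfl

private theorem SConA_sh_mem_CK {Ω : Type} (huw : G.Adj u w) (Y : Act (contr G u w) Ω) (i : ℕ)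
    {f : Finset V → Ω → ZMod 2} (hf : f ∈ CK Y (Su G U u) i) :
    sh Y w f ∈ CK Y (Su G U u) i := by
  refine sh_mem_CK Y w (fun σ hσ v hv => ?_) hf
  by_cases h : v = w
  · exact Or.inl h
  · exact Or.inr (adj_of_mem_BB (U := U) huw (Finset.mem_erase.2 ⟨h, hσ.1 hv⟩))

private theorem SConA_BK_mono {Ω : Type} (Y : Act (contr G u w) Ω) {A B : Finset V → Prop}
    (h : ∀ σ, A σ → B σ) (i : ℕ) : BK Y A i ≤ BK Y B i := by
  rintro _ ⟨y, hy, rfl⟩
  exact ⟨y, CK_mono Y h (i + 1) hy, rfl⟩

private theorem SConA_BK_le_XZ {Ω : Type} (huw : G.Adj u w) (Y : Act (contr G u w) Ω) (i : ℕ) :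
    BK Y (Su G U u) i ≤ XZ G U u w Y i := by
  intro x hx
  refine ⟨⟨BK_le_ZK Y (fun σ h τ hτ => KU_down h hτ) i hx, ?_⟩, ?_⟩
  · exact SConA_BK_mono Y (fun σ h => SConA_Su_D2 h) i hx
  · refine SConA_BK_mono Y (fun σ h => SConA_Su_D2 h) i ?_
    obtain ⟨y, hy, rfl⟩ := hx
    exact ⟨sh Y w y, SConA_sh_mem_CK huw Y (i + 1) hy, bd_sh Y w y⟩

section

variable {P : Type} [Group P] (huw : G.Adj u w) (D : Gen (contr G u w) P)

/-- link parts -/
private theorem SConA_lk_mem {j : ℕ} (c : Multiplicative (ZMod 2))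
    {f : Finset V → P × Multiplicative (ZMod 2) → ZMod 2}
    (hf : f ∈ CK (contrGen huw D).act (KU G U) (j + 1)) :
    SConA_cc P c (lk u f) ∈ CK D.act (Su G U u) j := by
  refine ⟨fun σ p hne => ?_, fun σ v hv p => ?_⟩
  · rw [SConA_cc_apply, lk_apply] at hne
    by_cases hu : u ∈ σ
    · rw [if_pos hu] at hne
      exact absurd rfl hne
    · rw [if_neg hu] at hne
      obtain ⟨h1, h2⟩ := hf.1 _ _ hne
      rw [card_insert_of_notMem hu] at h2
      exact ⟨SConA_Su_of hu h1, by omega⟩
  · rw [SConA_cc_apply, SConA_cc_apply, lk_apply, lk_apply]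
    by_cases hu : u ∈ σ
    · rw [if_pos hu, if_pos hu]
    · rw [if_neg hu, if_neg hu]
      have h1 := hf.2 (insert u σ) v (mem_insert_of_mem hv) (p, c)
      rw [SConA_s_ne huw D (fun h => hu (by rw [← h]; exact hv))] at h1
      exact h1

/-- parts away from `u` -/
private theorem SConA_dl_mem {j : ℕ} (c : Multiplicative (ZMod 2))
    {f : Finset V → P × Multiplicative (ZMod 2) → ZMod 2}
    (hf : f ∈ CK (contrGen huw D).act (KU G U) j) :
    SConA_cc P c (dl u f) ∈ CK D.act (D2 G U u) j := by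
  refine ⟨fun σ p hne => ?_, fun σ v hv p => ?_⟩
  · rw [SConA_cc_apply, dl_apply] at hne
    by_cases hu : u ∈ σ
    · rw [if_pos hu] at hne
      exact absurd rfl hne
    · rw [if_neg hu] at hne
      obtain ⟨h1, h2⟩ := hf.1 _ _ hne
      refine ⟨⟨fun x hx => mem_erase.2 ⟨fun h => hu (by rw [← h]; exact hx), h1.1 hx⟩, h1.2⟩, h2⟩
  · rw [SConA_cc_apply, SConA_cc_apply, dl_apply, dl_apply]
    by_cases hu : u ∈ σ
    · rw [if_pos hu, if_pos hu]
    · rw [if_neg hu, if_neg hu]
      have h1 := hf.2 σ v hv (p, c)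
      rw [SConA_s_ne huw D (fun h => hu (by rw [← h]; exact hv))] at h1
      exact h1

/-- the second component of the link part -/
private theorem SConA_lk_t {j : ℕ} {f : Finset V → P × Multiplicative (ZMod 2) → ZMod 2}
    (hf : f ∈ CK (contrGen huw D).act (KU G U) j) :
    SConA_cc P (Multiplicative.ofAdd 1) (lk u f) = sh D.act w (SConA_cc P 1 (lk u f)) := by
  funext σ p
  rw [SConA_cc_apply, sh_apply, SConA_cc_apply, lk_apply, lk_apply]
  by_cases hu : u ∈ σ
  · rw [if_pos hu, if_pos hu]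
  · rw [if_neg hu, if_neg hu]
    have h1 := hf.2 (insert u σ) u (mem_insert_self _ _) (p, Multiplicative.ofAdd 1)
    rw [SConA_s_u huw D, SConA_tt] at h1
    exact h1.symm

/-- chains without `u` -/
private theorem SConA_mk_mem {j : ℕ} {a b : Finset V → P → ZMod 2}
    (ha : a ∈ CK D.act (D2 G U u) j) (hb : b ∈ CK D.act (D2 G U u) j) :
    SConA_mk P (a, b) ∈ CK (contrGen huw D).act (KU G U) j := by
  have hD : ∀ σ, D2 G U u σ → KU G U σ := fun σ h => ⟨h.1.trans (erase_subset _ _), h.2⟩
  refine ⟨fun σ ω hne => ?_, fun σ v hv ω => ?_⟩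
  · rw [SConA_mk_apply] at hne
    split_ifs at hne with h
    · exact ⟨hD _ (ha.1 _ _ hne).1, (ha.1 _ _ hne).2⟩
    · exact ⟨hD _ (hb.1 _ _ hne).1, (hb.1 _ _ hne).2⟩
  · obtain ⟨p, c⟩ := ω
    by_cases hvu : v = u
    · have h0 : ∀ q, a σ q = 0 ∧ b σ q = 0 := fun q => by
        constructor
        · by_contra hne
          exact (mem_erase.1 ((ha.1 _ _ hne).1.1 hv)).1 hvu
        · by_contra hne
          exact (mem_erase.1 ((hb.1 _ _ hne).1.1 hv)).1 hvu
      rw [SConA_mk_apply, SConA_mk_apply, (h0 _).1, (h0 _).2, (h0 _).1, (h0 _).2, ite_self,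
        ite_self]
    · rw [SConA_s_ne huw D hvu, SConA_mk_apply, SConA_mk_apply]
      have h1 := ha.2 σ v hv p
      have h2 := hb.2 σ v hv p
      change a σ (p * D.g v) = a σ p at h1
      change b σ (p * D.g v) = b σ p at h2
      simp only
      rw [h1, h2]

/-- cones over pairs -/
private theorem SConA_cn_mem {j : ℕ} (hu : u ∈ U) {y : Finset V → P → ZMod 2}
    (hy : y ∈ CK D.act (Su G U u) j) :
    cn u (SConA_mk P (y, sh D.act w y)) ∈ CK (contrGen huw D).act (KU G U) (j + 1) := by
  have hy' := SConA_sh_mem_CK huw D.act j hy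
  refine ⟨fun σ ω hne => ?_, fun σ v hv ω => ?_⟩
  · rw [cn_apply] at hne
    by_cases hus : u ∈ σ
    · rw [if_pos hus, SConA_mk_apply] at hne
      have h1 : Su G U u (σ.erase u) ∧ (σ.erase u).card = j := by
        split_ifs at hne with h
        · exact hy.1 _ _ hne
        · exact hy'.1 _ _ hne
      have h2 := SConA_KU_of hu h1.1
      rw [insert_erase hus] at h2
      refine ⟨h2, ?_⟩
      have h3 := card_erase_of_mem hus
      have h4 := card_pos.2 ⟨u, hus⟩
      omega
    · rw [if_neg hus] at hne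
      exact absurd rfl hne
  · obtain ⟨p, c⟩ := ω
    rw [cn_apply, cn_apply]
    by_cases hus : u ∈ σ
    · rw [if_pos hus, if_pos hus]
      by_cases hvu : v = u
      · subst hvu
        rw [SConA_s_u huw D, SConA_mk_apply, SConA_mk_apply]
        simp only
        rcases SConA_c2 c with h | h
        · subst h
          rw [one_mul, if_neg SConA_t_ne, if_pos rfl, sh_apply]
          exact congrArg (y (σ.erase v)) (D.act.invol w p)
        · subst h
          rw [SConA_tt, if_pos rfl, if_neg SConA_t_ne, sh_apply]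
          rfl
      · rw [SConA_s_ne huw D hvu, SConA_mk_apply, SConA_mk_apply]
        have hve : v ∈ σ.erase u := mem_erase.2 ⟨hvu, hv⟩
        have h1 := hy.2 _ v hve p
        have h2 := hy'.2 _ v hve p
        change y (σ.erase u) (p * D.g v) = y (σ.erase u) p at h1
        change sh D.act w y (σ.erase u) (p * D.g v) = sh D.act w y (σ.erase u) p at h2
        simp only
        rw [h1, h2]
    · rw [if_neg hus, if_neg hus]

end

private theorem SConA_finrank_prod {M M' : Type} [AddCommGroup M] [Module (ZMod 2) M]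
    [Module.Finite (ZMod 2) M] [AddCommGroup M'] [Module (ZMod 2) M'] [Module.Finite (ZMod 2) M']
    (p : Submodule (ZMod 2) M) (q : Submodule (ZMod 2) M') :
    Module.finrank (ZMod 2) (p.prod q) = Module.finrank (ZMod 2) p + Module.finrank (ZMod 2) q := by
  have h1 : LinearMap.range (p.subtype.prodMap q.subtype) = p.prod q := by
    rw [LinearMap.range_prodMap, Submodule.range_subtype, Submodule.range_subtype]
  have h2 : Function.Injective (p.subtype.prodMap q.subtype) := by
    rw [LinearMap.coe_prodMap]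
    exact p.injective_subtype.prodMap q.injective_subtype
  rw [← h1, LinearMap.finrank_range_of_inj h2, Module.finrank_prod]

/-- The chain complex of `G` on `U` with the action on `P × C₂`, in terms of that of
`contr G u w` on `P`. A chain `f : Finset V → P × C₂ → ZMod 2` has two components
`f⁰ σ p = f σ (p, 1)` and `f¹ σ p = f σ (p, t)`, `t = ofAdd 1`. For `σ` containing `u` invariance under
`u` says `f¹ σ p = f⁰ σ (p * g w)`, i.e. `f¹ = sh Y w f⁰` there, `Y = D.act`.
Use `hdim_le` with `ψ f = (lk u f)⁰` (map to `Finset V → P → ZMod 2`), `Z'' = XZ`, `B'' = BK Y (Su)`: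
for a cycle `z` of degree `i + 1`, `x = (lk u z)⁰` is a cycle on `Su` of degree `i`, and
`bd (dl u z) = lk u z` (`dl_bd`) gives `x = bd (dl u z)⁰`, `sh Y w x = (lk u z)¹ = bd (dl u z)¹`,
boundaries in `D2`. If `x = bd y`, `y` on `Su`, take the chain `c` of degree `i + 2` on `U` with
`c = cn u ŷ`, `ŷ⁰ = y`, `ŷ¹ = sh Y w y`; `z + bd c = dl u z + ŷ` is a cycle without `u`.
The cycles of degree `i + 1` without `u` (both components in `ZK Y D2`) modulo boundaries have
dimension `2 * bet Y D2`: use `Z' = ` pairs, i.e. the space `(Finset V → P → ZMod 2) ×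
(Finset V → P → ZMod 2)` with `Z' = ZK.prod ZK`, `B' = BK.prod BK` (`Submodule.prod`), whose `hdim` is
the sum, and `φ (f, f') = ` the function with components `f`, `f'`. -/
theorem contr_stepA {P : Type} [Group P] [Fintype P] (huw : G.Adj u w) (hu : u ∈ U) (hw : w ∈ U)
    (D : Gen (contr G u w) P) (i : ℕ) :
    bet (contrGen huw D).act (KU G U) (i + 1) ≤
      2 * bet D.act (D2 G U u) (i + 1) + hdim (XZ G U u w D.act i) (BK D.act (Su G U u) i) := by
  classical
  have hD2 : ∀ σ, D2 G U u σ → ∀ τ ⊆ σ, D2 G U u τ := fun σ h τ hτ => KU_down h hτ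
  have hBZ := BK_le_ZK D.act hD2 (i + 1)
  have key : hdim (ZK (contrGen huw D).act (KU G U) (i + 1))
      (BK (contrGen huw D).act (KU G U) (i + 1)) ≤
      hdim ((ZK D.act (D2 G U u) (i + 1)).prod (ZK D.act (D2 G U u) (i + 1)))
        ((BK D.act (D2 G U u) (i + 1)).prod (BK D.act (D2 G U u) (i + 1))) +
      hdim (XZ G U u w D.act i) (BK D.act (Su G U u) i) := by
    -- facts on a cycle
    have hlk : ∀ z ∈ ZK (contrGen huw D).act (KU G U) (i + 1), lk u z = bd (dl u z) := by
      intro z hz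
      have h1 := dl_bd u z
      have h2 : bd z = 0 := hz.2
      rw [h2, map_zero] at h1
      have h3 := congrArg (· + lk u z) h1
      simp only [zero_add, add_assoc, SConA_two, add_zero] at h3
      exact h3
    refine hdim_le _ _ _ _ _ _ (BK_le_ZK _ (KU_down' G U) _) (Submodule.prod_mono hBZ hBZ)
      (SConA_BK_le_XZ huw D.act i) ((SConA_cc P 1).comp (lk u)) (SConA_mk P)
      (fun z hz => ?_) (fun b hb => ?_) (fun z hz hz' => ?_) (fun b hb => ?_)
    · change SConA_cc P 1 (lk u z) ∈ _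
      refine ⟨⟨⟨SConA_lk_mem huw D 1 hz.1, ?_⟩, ?_⟩, ?_⟩
      · have h2 : bd z = 0 := hz.2
        change bd (SConA_cc P 1 (lk u z)) = 0
        rw [SConA_bd_cc, ← lk_bd, h2, map_zero, map_zero]
      · refine ⟨SConA_cc P 1 (dl u z), SConA_dl_mem huw D 1 hz.1, ?_⟩
        rw [SConA_bd_cc, hlk z hz]
      · change sh D.act w (SConA_cc P 1 (lk u z)) ∈ BK D.act (D2 G U u) i
        rw [← SConA_lk_t huw D hz.1]
        refine ⟨SConA_cc P (Multiplicative.ofAdd 1) (dl u z), SConA_dl_mem huw D _ hz.1, ?_⟩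
        rw [SConA_bd_cc, hlk z hz]
    · obtain ⟨y, hy, rfl⟩ := hb
      refine ⟨SConA_cc P 1 (lk u y), SConA_lk_mem huw D 1 hy, ?_⟩
      change _ = SConA_cc P 1 (lk u (bd y))
      rw [lk_bd, SConA_bd_cc]
    · obtain ⟨y, hy, hyx⟩ := hz'
      change bd y = SConA_cc P 1 (lk u z) at hyx
      have hy' := SConA_sh_mem_CK huw D.act (i + 1) hy
      have hlkm : lk u z = SConA_mk P (bd y, bd (sh D.act w y)) := by
        rw [bd_sh, hyx, ← SConA_lk_t huw D hz.1, SConA_mk_cc]
      have hdy : dl u (SConA_mk P (y, sh D.act w y)) = SConA_mk P (y, sh D.act w y) := by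
        funext σ ω
        rw [dl_apply]
        by_cases hus : u ∈ σ
        · rw [if_pos hus]
          by_contra hne
          rw [SConA_mk_apply] at hne
          split_ifs at hne with h
          · exact SConA_notMem_Su (hy.1 _ _ (fun h1 => hne h1.symm)).1 hus
          · exact SConA_notMem_Su (hy'.1 _ _ (fun h1 => hne h1.symm)).1 hus
        · rw [if_neg hus]
      have hsum : z + bd (cn u (SConA_mk P (y, sh D.act w y))) =
          dl u z + SConA_mk P (y, sh D.act w y) := by
        rw [bd_cn u _ hdy, SConA_bd_mk, ← hlkm]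
        nth_rewrite 1 [← dl_add_cn_lk u z]
        have : dl u z + cn u (lk u z) + (SConA_mk P (y, sh D.act w y) + cn u (lk u z)) =
            dl u z + SConA_mk P (y, sh D.act w y) + (cn u (lk u z) + cn u (lk u z)) := by abel
        rw [this, SConA_two, add_zero]
      refine ⟨(SConA_cc P 1 (dl u z) + y,
        SConA_cc P (Multiplicative.ofAdd 1) (dl u z) + sh D.act w y), ⟨⟨?_, ?_⟩, ⟨?_, ?_⟩⟩, ?_⟩
      · exact Submodule.add_mem _ (SConA_dl_mem huw D 1 hz.1)
          (CK_mono D.act (fun σ h => SConA_Su_D2 h) _ hy)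
      · change bd (SConA_cc P 1 (dl u z) + y) = 0
        rw [map_add, SConA_bd_cc, ← hlk z hz, hyx, SConA_two]
      · exact Submodule.add_mem _ (SConA_dl_mem huw D _ hz.1)
          (CK_mono D.act (fun σ h => SConA_Su_D2 h) _ hy')
      · change bd (SConA_cc P (Multiplicative.ofAdd 1) (dl u z) + sh D.act w y) = 0
        rw [map_add, SConA_bd_cc, ← hlk z hz, bd_sh, hyx, SConA_lk_t huw D hz.1, SConA_two]
      · have h5 : SConA_mk P (SConA_cc P 1 (dl u z) + y,
            SConA_cc P (Multiplicative.ofAdd 1) (dl u z) + sh D.act w y) =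
            z + bd (cn u (SConA_mk P (y, sh D.act w y))) := by
          rw [hsum, ← Prod.mk_add_mk, map_add, SConA_mk_cc]
        rw [h5, add_sub_cancel_left]
        exact ⟨_, SConA_cn_mem huw D hu hy, rfl⟩
    · obtain ⟨b0, b1⟩ := b
      obtain ⟨⟨y0, hy0, h0⟩, ⟨y1, hy1, h1⟩⟩ := hb
      change bd y0 = b0 at h0
      change bd y1 = b1 at h1
      refine ⟨SConA_mk P (y0, y1), SConA_mk_mem huw D hy0 hy1, ?_⟩
      rw [SConA_bd_mk, h0, h1]
  refine key.trans (le_of_eq ?_)
  congr 1
  unfold bet hdim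
  rw [SConA_finrank_prod, SConA_finrank_prod]
  omega

end Pool.Agent.H4.Singer3
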