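import Pool.Agent.H4.Singer3.SBasic

/-!
# Singer project, part three: the complexes of a contraction

`G` is a graph, `u w` an edge, `contr G u w` the graph with the edge contracted to `w`.
* `BB`: the neighbours of `u` in `U` other than `w`; `ZZ`: the common neighbours of `u` and `w`.
* `Su`: the link of `u` (cliques of `G` on the neighbours of `u`, `w` included).
* `D2`: cliques of `G` in `U` minus `u`.  `D1`: cliques of `contr G u w` in `BB` plus `w`
  (the cone over `BB` with vertex `w`).  `Lc`: cliques of `contr G u w` in `U` minus `u`.
All of these are complexes of cliques of `contr G u w`, on which an action `Y` of `contr G u w`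
gives chain complexes.
-/

set_option autoImplicit false
set_option linter.unusedSectionVars false

open Finset

namespace Pool.Agent.H4.Singer3

variable {V : Type} [DecidableEq V] [Fintype V]

/-- the neighbours of `u` other than `w` -/
noncomputable def BB (G : SimpleGraph V) (U : Finset V) (u w : V) : Finset V := (nbr G U u).erase w

/-- the common neighbours of `u` and `w` -/
noncomputable def ZZ (G : SimpleGraph V) (U : Finset V) (u w : V) : Finset V :=
  nbr G (nbr G U u) w

/-- the link of `u` -/
def Su (G : SimpleGraph V) (U : Finset V) (u : V) (σ : Finset V) : Prop := KU G (nbr G U u) σ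

/-- the complex without `u` -/
def D2 (G : SimpleGraph V) (U : Finset V) (u : V) (σ : Finset V) : Prop := KU G (U.erase u) σ

/-- the cone -/
def D1 (G : SimpleGraph V) (U : Finset V) (u w : V) (σ : Finset V) : Prop :=
  KU (contr G u w) (insert w (BB G U u w)) σ

/-- the contracted complex -/
def Lc (G : SimpleGraph V) (U : Finset V) (u w : V) (σ : Finset V) : Prop :=
  KU (contr G u w) (U.erase u) σ

section

variable {G : SimpleGraph V} {u w : V} {Ω : Type}

/-- classes of `Su` which, together with their translates by `w`, are boundaries in `D2` -/
def XZ (G : SimpleGraph V) (U : Finset V) (u w : V) (Y : Act (contr G u w) Ω) (i : ℕ) :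
    Submodule (ZMod 2) (Finset V → Ω → ZMod 2) :=
  ZK Y (Su G U u) i ⊓ BK Y (D2 G U u) i ⊓ (BK Y (D2 G U u) i).comap (sh Y w)

/-- those classes in `XZ` which are invariant under `w` up to boundaries in `Su` -/
def XG (G : SimpleGraph V) (U : Finset V) (u w : V) (Y : Act (contr G u w) Ω) (i : ℕ) :
    Submodule (ZMod 2) (Finset V → Ω → ZMod 2) :=
  XZ G U u w Y i ⊓ (BK Y (Su G U u) i).comap (LinearMap.id + sh Y w)

/-- cycles on `ZZ` plus boundaries on `BB` -/
def WZ (G : SimpleGraph V) (U : Finset V) (u w : V) (Y : Act (contr G u w) Ω) (i : ℕ) :
    Submodule (ZMod 2) (Finset V → Ω → ZMod 2) :=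
  ZK Y (KU G (ZZ G U u w)) i ⊔ BK Y (KU G (BB G U u w)) i

end

/-- The generators `v ↦ (g v, 1)` for `v ≠ u` and `u ↦ (g w, t)`, `t` the generator of the second
factor. -/
def contrGen {G : SimpleGraph V} {u w : V} (huw : G.Adj u w) {P : Type} [Group P]
    (D : Gen (contr G u w) P) : Gen G (P × Multiplicative (ZMod 2)) where
  g v := if v = u then (D.g w, Multiplicative.ofAdd 1) else (D.g v, 1)
  sq v := by
    by_cases h : v = u
    · simp only [h, if_true, Prod.mk_mul_mk, D.sq, Prod.mk_eq_one, true_and]
      decide
    · simp [h, D.sq]
  comm a b h := by
    have hab : a ≠ b := h.ne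
    by_cases ha : a = u
    · subst ha
      have hb : b ≠ a := fun h1 => hab h1.symm
      by_cases hbw : b = w
      · subst hbw
        simp [hb]
      · have h1 : (contr G a w).Adj w b := ⟨fun h2 => hbw h2.symm, huw.ne.symm, hb,
          Or.inr (Or.inl ⟨rfl, h⟩)⟩
        simp [hb, D.comm w b h1]
    · by_cases hb : b = u
      · subst hb
        by_cases haw : a = w
        · subst haw
          simp [ha]
        · have h1 : (contr G b w).Adj a w := ⟨haw, ha, huw.ne.symm,
            Or.inr (Or.inr ⟨rfl, h.symm⟩)⟩
          simp [ha, D.comm a w h1]
      · have h1 : (contr G u w).Adj a b := ⟨hab, ha, hb, Or.inl h⟩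
        simp [ha, hb, D.comm a b h1]
  bit p x := if x = u then decide (p.2 ≠ 1) else
    if x = w then xor (D.bit p.1 w) (decide (p.2 ≠ 1)) else D.bit p.1 x
  bit_mul p v := by
    have hwu : w ≠ u := huw.ne.symm
    have hc : ∀ c : Multiplicative (ZMod 2), decide (c * Multiplicative.ofAdd 1 ≠ 1) =
        !decide (c ≠ 1) := by decide
    funext x
    by_cases hv : v = u
    · subst hv
      simp only [if_true]
      by_cases hx : x = v
      · subst hx
        simp only [if_true, Function.update_self]
        exact hc _
      · rw [Function.update_of_ne hx, if_neg hx, if_neg hx]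
        by_cases hxw : x = w
        · subst hxw
          simp only [if_true, Prod.fst_mul, Prod.snd_mul]
          rw [D.bit_mul, Function.update_self, hc]
          cases D.bit p.1 x <;> simp
        · rw [if_neg hxw, if_neg hxw, Prod.fst_mul, D.bit_mul, Function.update_of_ne hxw]
    · simp only [hv, if_false, Prod.fst_mul, Prod.snd_mul, mul_one]
      by_cases hx : x = u
      · subst hx
        rw [Function.update_of_ne (fun h => hv h.symm)]
        simp
      · by_cases hxv : x = v
        · subst hxv
          rw [Function.update_self]
          by_cases hxw : x = w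
          · subst hxw
            simp only [hx, if_false, if_true]
            rw [D.bit_mul, Function.update_self]
            cases D.bit p.1 x <;> simp
          · simp only [hx, hxw, if_false]
            rw [D.bit_mul, Function.update_self]
        · rw [Function.update_of_ne hxv]
          by_cases hxw : x = w
          · subst hxw
            simp only [hx, if_false, if_true]
            rw [D.bit_mul, Function.update_of_ne hxv]
          · simp only [hx, hxw, if_false]
            rw [D.bit_mul, Function.update_of_ne hxv]

end Pool.Agent.H4.Singer3
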