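import Pool.Agent.H4.Singer3.SConDefs

/-!
# Singer project, part three: combinatorics of the contraction
-/

set_option autoImplicit false
set_option linter.unusedSectionVars false

open Finset

namespace Pool.Agent.H4.Singer3

variable {V : Type} [DecidableEq V] [Fintype V] {G : SimpleGraph V} {U : Finset V} {u w : V}

theorem contr_adj_of_ne {a b : V} (ha : a ≠ u) (hb : b ≠ u)
    (haw : a ≠ w) (hbw : b ≠ w) : (contr G u w).Adj a b ↔ G.Adj a b := by
  constructor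
  · rintro ⟨_, _, _, h | ⟨h, _⟩ | ⟨h, _⟩⟩
    · exact h
    · exact absurd h haw
    · exact absurd h hbw
  · exact fun h => ⟨h.ne, ha, hb, Or.inl h⟩

/-- `w` is not in `BB` and not in `ZZ`, `u` neither -/
theorem notMem_BB : w ∉ BB G U u w ∧ u ∉ BB G U u w := by
  unfold BB
  refine ⟨by simp, fun h => ?_⟩
  have h1 := (mem_nbr.1 (mem_of_mem_erase h)).2
  exact G.loopless.irrefl u h1

theorem notMem_ZZ : w ∉ ZZ G U u w ∧ u ∉ ZZ G U u w := by
  unfold ZZ
  refine ⟨fun h => ?_, fun h => ?_⟩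
  · exact G.loopless.irrefl w (mem_nbr.1 h).2
  · exact G.loopless.irrefl u (mem_nbr.1 (mem_nbr.1 h).1).2

theorem mem_BB_iff {x : V} : x ∈ BB G U u w ↔ x ≠ w ∧ x ∈ U ∧ G.Adj u x := by
  unfold BB
  rw [mem_erase, mem_nbr]

theorem mem_ZZ_iff {x : V} : x ∈ ZZ G U u w ↔ x ∈ U ∧ G.Adj u x ∧ G.Adj w x := by
  unfold ZZ
  rw [mem_nbr, mem_nbr, and_assoc]

theorem ZZ_subset_BB : ZZ G U u w ⊆ BB G U u w := by
  intro x hx
  rw [mem_ZZ_iff] at hx
  rw [mem_BB_iff]
  exact ⟨fun h => G.loopless.irrefl w (h ▸ hx.2.2), hx.1, hx.2.1⟩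

/-- elements of `BB` are adjacent to `w` in the contracted graph -/
theorem adj_of_mem_BB (huw : G.Adj u w) {x : V} (hx : x ∈ BB G U u w) :
    (contr G u w).Adj w x := by
  rw [mem_BB_iff] at hx
  exact ⟨fun h => hx.1 h.symm, huw.ne.symm, hx.2.2.ne.symm, Or.inr (Or.inl ⟨rfl, hx.2.2⟩)⟩

/-- cliques away from `u` and `w` are the same for both graphs -/
theorem isClique_contr_iff {σ : Finset V} (hu : u ∉ σ) (hw : w ∉ σ) :
    (contr G u w).IsClique (σ : Set V) ↔ G.IsClique (σ : Set V) := by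
  have key : ∀ a ∈ σ, ∀ b ∈ σ, (contr G u w).Adj a b ↔ G.Adj a b := by
    intro a ha b hb
    exact contr_adj_of_ne (fun h1 => hu (by rw [← h1]; exact ha))
      (fun h1 => hu (by rw [← h1]; exact hb)) (fun h1 => hw (by rw [← h1]; exact ha))
      (fun h1 => hw (by rw [← h1]; exact hb))
  constructor
  · intro h a ha b hb hab
    exact (key a (mem_coe.1 ha) b (mem_coe.1 hb)).1 (h ha hb hab)
  · intro h a ha b hb hab
    exact (key a (mem_coe.1 ha) b (mem_coe.1 hb)).2 (h ha hb hab)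

/-- cliques in `BB` are the same for both graphs -/
theorem KU_BB (huw : G.Adj u w) (σ : Finset V) :
    KU (contr G u w) (BB G U u w) σ ↔ KU G (BB G U u w) σ := by
  constructor
  · rintro ⟨h1, h2⟩
    exact ⟨h1, (isClique_contr_iff (fun h => (notMem_BB (G := G) (U := U)).2 (h1 h))
      (fun h => (notMem_BB (G := G) (U := U)).1 (h1 h))).1 h2⟩
  · rintro ⟨h1, h2⟩
    exact ⟨h1, (isClique_contr_iff (fun h => (notMem_BB (G := G) (U := U)).2 (h1 h))
      (fun h => (notMem_BB (G := G) (U := U)).1 (h1 h))).2 h2⟩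

theorem KU_ZZ (huw : G.Adj u w) (σ : Finset V) :
    KU (contr G u w) (ZZ G U u w) σ ↔ KU G (ZZ G U u w) σ := by
  constructor
  · rintro ⟨h1, h2⟩
    exact ⟨h1, (isClique_contr_iff (fun h => (notMem_ZZ (G := G) (U := U)).2 (h1 h))
      (fun h => (notMem_ZZ (G := G) (U := U)).1 (h1 h))).1 h2⟩
  · rintro ⟨h1, h2⟩
    exact ⟨h1, (isClique_contr_iff (fun h => (notMem_ZZ (G := G) (U := U)).2 (h1 h))
      (fun h => (notMem_ZZ (G := G) (U := U)).1 (h1 h))).2 h2⟩

/-- a clique with `w` added -/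
theorem isClique_of_erase {H : SimpleGraph V} {σ : Finset V}
    (h1 : H.IsClique ((σ.erase w : Finset V) : Set V)) (h2 : ∀ x ∈ σ.erase w, H.Adj w x) :
    H.IsClique (σ : Set V) := by
  intro a ha b hb hab
  have ha' : a ∈ σ := mem_coe.1 ha
  have hb' : b ∈ σ := mem_coe.1 hb
  by_cases haw : a = w
  · subst haw
    exact h2 b (mem_erase.2 ⟨fun h => hab h.symm, hb'⟩)
  · by_cases hbw : b = w
    · subst hbw
      exact (h2 a (mem_erase.2 ⟨haw, ha'⟩)).symm
    · exact h1 (mem_coe.2 (mem_erase.2 ⟨haw, ha'⟩)) (mem_coe.2 (mem_erase.2 ⟨hbw, hb'⟩)) hab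

/-- a simplex of `Su` is a clique of `BB` or `w` together with a clique of `ZZ` -/
theorem Su_cases (huw : G.Adj u w) (hw : w ∈ U) (σ : Finset V) :
    Su G U u σ ↔ KU G (BB G U u w) σ ∨ (w ∈ σ ∧ KU G (ZZ G U u w) (σ.erase w)) := by
  unfold Su
  constructor
  · rintro ⟨h1, h2⟩
    by_cases hwσ : w ∈ σ
    · refine Or.inr ⟨hwσ, fun x hx => ?_, h2.subset (by exact_mod_cast erase_subset w σ)⟩
      obtain ⟨hx1, hx2⟩ := mem_erase.1 hx
      have hx3 := mem_nbr.1 (h1 hx2)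
      rw [mem_ZZ_iff]
      exact ⟨hx3.1, hx3.2, h2 (mem_coe.2 hwσ) (mem_coe.2 hx2) (fun h => hx1 h.symm)⟩
    · refine Or.inl ⟨fun x hx => ?_, h2⟩
      have hx3 := mem_nbr.1 (h1 hx)
      rw [mem_BB_iff]
      exact ⟨fun h => hwσ (h ▸ hx), hx3.1, hx3.2⟩
  · rintro (⟨h1, h2⟩ | ⟨hwσ, h1, h2⟩)
    · exact ⟨h1.trans (erase_subset _ _), h2⟩
    · refine ⟨fun x hx => ?_, isClique_of_erase h2 fun x hx => (mem_ZZ_iff.1 (h1 hx)).2.2⟩
      by_cases hxw : x = w
      · subst hxw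
        exact mem_nbr.2 ⟨hw, huw⟩
      · have := mem_ZZ_iff.1 (h1 (mem_erase.2 ⟨hxw, hx⟩))
        exact mem_nbr.2 ⟨this.1, this.2.1⟩

/-- a simplex of `D1` is a clique of `BB` or `w` together with a clique of `BB` -/
theorem D1_cases (huw : G.Adj u w) (σ : Finset V) :
    D1 G U u w σ ↔ KU G (BB G U u w) σ ∨ (w ∈ σ ∧ KU G (BB G U u w) (σ.erase w)) := by
  unfold D1
  constructor
  · rintro ⟨h1, h2⟩
    by_cases hwσ : w ∈ σ
    · refine Or.inr ⟨hwσ, ?_⟩
      rw [← KU_BB huw]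
      refine ⟨fun x hx => ?_, h2.subset (by exact_mod_cast erase_subset w σ)⟩
      obtain ⟨hx1, hx2⟩ := mem_erase.1 hx
      exact (mem_insert.1 (h1 hx2)).resolve_left hx1
    · refine Or.inl ?_
      rw [← KU_BB huw]
      refine ⟨fun x hx => ?_, h2⟩
      exact (mem_insert.1 (h1 hx)).resolve_left (fun h => hwσ (h ▸ hx))
  · rintro (h | ⟨hwσ, h⟩)
    · rw [← KU_BB huw] at h
      exact ⟨h.1.trans (subset_insert _ _), h.2⟩
    · rw [← KU_BB huw] at h
      refine ⟨fun x hx => ?_, isClique_of_erase h.2 fun x hx => adj_of_mem_BB huw (h.1 hx)⟩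
      by_cases hxw : x = w
      · rw [hxw]
        exact mem_insert_self _ _
      · exact mem_insert_of_mem (h.1 (mem_erase.2 ⟨hxw, hx⟩))

theorem BB_le_D2 {σ : Finset V} (h : KU G (BB G U u w) σ) : D2 G U u σ := by
  refine ⟨fun x hx => ?_, h.2⟩
  have hx1 := mem_BB_iff.1 (h.1 hx)
  exact mem_erase.2 ⟨hx1.2.2.ne.symm, hx1.2.1⟩

/-- a clique `σ` of `BB`, with `w` added, is in `D2` iff `σ` is in `ZZ` -/
theorem D2_insert_iff (huw : G.Adj u w) (hw : w ∈ U) {σ : Finset V}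
    (hσ : KU G (BB G U u w) σ) : D2 G U u (insert w σ) ↔ KU G (ZZ G U u w) σ := by
  constructor
  · rintro ⟨h1, h2⟩
    refine ⟨fun x hx => ?_, hσ.2⟩
    have hx1 := mem_BB_iff.1 (hσ.1 hx)
    rw [mem_ZZ_iff]
    exact ⟨hx1.2.1, hx1.2.2, h2 (mem_coe.2 (mem_insert_self _ _))
      (mem_coe.2 (mem_insert_of_mem hx)) (fun h => hx1.1 h.symm)⟩
  · rintro ⟨h1, h2⟩
    refine ⟨fun x hx => ?_, ?_⟩
    · rcases mem_insert.1 hx with h | h
      · rw [h]
        exact mem_erase.2 ⟨huw.ne.symm, hw⟩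
      · have hx1 := mem_ZZ_iff.1 (h1 h)
        exact mem_erase.2 ⟨hx1.2.1.ne.symm, hx1.1⟩
    · have hwσ : w ∉ σ := fun h => (notMem_ZZ (G := G) (U := U)).1 (h1 h)
      refine isClique_of_erase (w := w) ?_ ?_
      · rw [erase_insert hwσ]
        exact h2
      · rw [erase_insert hwσ]
        exact fun x hx => (mem_ZZ_iff.1 (h1 hx)).2.2

/-- `Su = D1 ∩ D2` -/
theorem Su_iff (huw : G.Adj u w) (hw : w ∈ U) (σ : Finset V) :
    Su G U u σ ↔ D1 G U u w σ ∧ D2 G U u σ := by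
  rw [Su_cases huw hw, D1_cases huw]
  constructor
  · rintro (h | ⟨hwσ, h⟩)
    · exact ⟨Or.inl h, BB_le_D2 h⟩
    · have h3 : KU G (BB G U u w) (σ.erase w) := ⟨h.1.trans ZZ_subset_BB, h.2⟩
      have h4 := (D2_insert_iff huw hw h3).2 h
      rw [insert_erase hwσ] at h4
      exact ⟨Or.inr ⟨hwσ, h3⟩, h4⟩
  · rintro ⟨h | ⟨hwσ, h⟩, h2⟩
    · exact Or.inl h
    · refine Or.inr ⟨hwσ, ?_⟩
      rw [← D2_insert_iff huw hw h, insert_erase hwσ]
      exact h2

/-- `Lc = D1 ∪ D2`; here the condition on squares is used -/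
theorem Lc_iff (huw : G.Adj u w) (hw : w ∈ U) (hsq : NoSquare G U u w) (σ : Finset V) :
    Lc G U u w σ ↔ D1 G U u w σ ∨ D2 G U u σ := by
  constructor
  · rintro ⟨h1, h2⟩
    by_cases hwσ : w ∈ σ
    · -- `w ∈ σ`
      have huσ : u ∉ σ := fun h => (mem_erase.1 (h1 h)).1 rfl
      have hcl : G.IsClique ((σ.erase w : Finset V) : Set V) := by
        have h3 : (contr G u w).IsClique ((σ.erase w : Finset V) : Set V) :=
          h2.subset (by exact_mod_cast erase_subset w σ)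
        exact (isClique_contr_iff (fun h => huσ (mem_of_mem_erase h)) (notMem_erase _ _)).1 h3
      have hadj : ∀ x ∈ σ.erase w, G.Adj w x ∨ G.Adj u x := by
        intro x hx
        obtain ⟨hx1, hx2⟩ := mem_erase.1 hx
        obtain ⟨-, -, -, h | ⟨-, h⟩ | ⟨h, -⟩⟩ :=
          h2 (mem_coe.2 hwσ) (mem_coe.2 hx2) (fun h => hx1 h.symm)
        · exact Or.inl h
        · exact Or.inr h
        · exact absurd h hx1
      by_cases hall : ∀ x ∈ σ.erase w, G.Adj w x
      · exact Or.inr ⟨h1, isClique_of_erase hcl hall⟩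
      · left
        rw [D1_cases huw]
        refine Or.inr ⟨hwσ, fun y hy => ?_, hcl⟩
        push Not at hall
        obtain ⟨x, hx, hxw⟩ := hall
        have hux : G.Adj u x := (hadj x hx).resolve_left hxw
        obtain ⟨hx1, hx2⟩ := mem_erase.1 hx
        obtain ⟨hy1, hy2⟩ := mem_erase.1 hy
        have hyU : y ∈ U := (mem_erase.1 (h1 hy2)).2
        have hyu : y ≠ u := (mem_erase.1 (h1 hy2)).1
        have hxU : x ∈ U := (mem_erase.1 (h1 hx2)).2
        rw [mem_BB_iff]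
        refine ⟨hy1, hyU, ?_⟩
        by_contra huy
        have hwy : G.Adj w y := (hadj y hy).resolve_right huy
        have hxy : x ≠ y := fun h => huy (h ▸ hux)
        exact hsq x hxU y hyU hux hxw hx1 hwy huy hyu
          (hcl (mem_coe.2 hx) (mem_coe.2 hy) hxy)
    · right
      have huσ : u ∉ σ := fun h => (mem_erase.1 (h1 h)).1 rfl
      exact ⟨h1, (isClique_contr_iff huσ hwσ).1 h2⟩
  · rintro (h | ⟨h1, h2⟩)
    · refine ⟨fun x hx => ?_, h.2⟩
      rcases mem_insert.1 (h.1 hx) with h3 | h3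
      · rw [h3]
        exact mem_erase.2 ⟨huw.ne.symm, hw⟩
      · have hx1 := mem_BB_iff.1 h3
        exact mem_erase.2 ⟨hx1.2.2.ne.symm, hx1.2.1⟩
    · refine ⟨h1, fun a ha b hb hab => ?_⟩
      exact ⟨hab, (mem_erase.1 (h1 (mem_coe.1 ha))).1, (mem_erase.1 (h1 (mem_coe.1 hb))).1,
        Or.inl (h2 ha hb hab)⟩

end Pool.Agent.H4.Singer3
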