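import Pool.Agent.H4.Singer3.SBasic

/-!
# Singer project, part three: cones
-/

set_option autoImplicit false
set_option linter.unusedSectionVars false

open Finset

namespace Pool.Agent.H4.Singer3

variable {V : Type} [DecidableEq V] [Fintype V] {G : SimpleGraph V} {Ω : Type}

private theorem scone_char (f : Finset V → Ω → ZMod 2) : f + f = 0 := by
  funext σ ω
  exact CharTwo.add_self_eq_zero _

private theorem scone_eq_of_add (f g : Finset V → Ω → ZMod 2) (h : f + g = 0) : f = g := by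
  have h2 := scone_char g
  calc f = (f + g) + (g + g) - (g + g) - g := by abel
    _ = g := by rw [h, h2]; simp only [zero_add, zero_sub, sub_zero]
                funext σ ω
                exact ZMod.neg_eq_self_mod_two _

private theorem scone_sh_lk (X : Act G Ω) {𝒦 : Finset V → Prop} (v : V) {i : ℕ}
    {f : Finset V → Ω → ZMod 2} (hf : f ∈ CK X 𝒦 i) :
    sh X v (lk v f) = lk v f := by
  funext τ ω
  rw [sh_apply, lk_apply, lk_apply]
  split_ifs with h
  · rfl
  · exact hf.2 _ v (mem_insert_self _ _) ω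

private theorem scone_hf_hf (X : Act G Ω) (v : V) (f : Finset V → Ω → ZMod 2) :
    hf X v (hf X v f) = hf X v f := by
  funext τ ω
  simp only [hf_apply]
  split_ifs <;> rfl

private theorem scone_dl_mem (X : Act G Ω) (U : Finset V) (v : V) {i : ℕ}
    {f : Finset V → Ω → ZMod 2} (hf : f ∈ CK X (KU G (insert v U)) i) :
    dl v f ∈ CK X (KU G U) i := by
  refine ⟨fun σ ω hne => ?_, fun σ w hw ω => ?_⟩
  · rw [dl_apply] at hne
    split_ifs at hne with h
    · exact absurd rfl hne
    · obtain ⟨⟨h1, h2⟩, h3⟩ := hf.1 _ _ hne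
      refine ⟨⟨fun x hx => ?_, h2⟩, h3⟩
      have := h1 hx
      rw [mem_insert] at this
      exact this.resolve_left fun h4 => h (by rw [← h4]; exact hx)
  · rw [dl_apply, dl_apply]
    split_ifs with h
    · rfl
    · exact hf.2 _ w hw ω

private theorem scone_dl_eq (X : Act G Ω) {𝒦 : Finset V → Prop} (v : V) {i : ℕ}
    (h𝒦 : ∀ σ, 𝒦 σ → v ∉ σ)
    {f : Finset V → Ω → ZMod 2} (hf : f ∈ CK X 𝒦 i) : dl v f = f := by
  funext σ ω
  rw [dl_apply]
  split_ifs with h
  · by_contra hne
    exact h𝒦 σ (hf.1 σ ω fun h0 => hne h0.symm).1 h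
  · rfl

private theorem scone_cn_mem (X : Act G Ω) (U : Finset V) (v : V) (hadj : ∀ x ∈ U, G.Adj v x)
    {i : ℕ} {f : Finset V → Ω → ZMod 2} (hf : f ∈ CK X (KU G U) i) (hs : sh X v f = f) :
    cn v f ∈ CK X (KU G (insert v U)) (i + 1) := by
  refine ⟨fun σ ω hne => ?_, fun σ w hw ω => ?_⟩
  · rw [cn_apply] at hne
    split_ifs at hne with h
    · obtain ⟨⟨h1, h2⟩, h3⟩ := hf.1 _ _ hne
      have hins : insert v (σ.erase v) = σ := Finset.insert_erase h
      have hc : σ.card = i + 1 := by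
        rw [← hins, Finset.card_insert_of_notMem (by simp), h3]
      refine ⟨⟨?_, ?_⟩, hc⟩
      · rw [← hins]
        exact Finset.insert_subset_insert _ h1
      · rw [← hins, Finset.coe_insert]
        apply h2.insert
        intro b hb _
        exact hadj b (h1 hb)
    · exact absurd rfl hne
  · rw [cn_apply, cn_apply]
    split_ifs with h
    · by_cases hwv : w = v
      · subst hwv
        exact congrFun (congrFun hs (σ.erase w)) ω
      · exact hf.2 _ w (mem_erase.2 ⟨hwv, hw⟩) ω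
    · rfl

/-- The cone over `U` with vertex `v` (adjacent to all of `U`). Use `hdim_le_of_inj` with
`ψ z = hf X v (z₀ + sh X v z₀)`, `z₀ = dl v z`.
For a cycle `z` let `z₁ = lk v z` (invariant under `v`); `bd z = 0` gives `bd z₀ = z₁` (`dl_bd`,
characteristic 2) and `bd z₁ = 0`. So `bd (z₀ + sh X v z₀) = z₁ + sh X v z₁ = 0`.
For `z = bd y`: `z₀ = bd (dl v y) + lk v y` (`dl_bd`) and `lk v y` is invariant under `v`, so
`ψ z = bd (hf X v (y₀ + sh X v y₀))`, `y₀ = dl v y`.
If `ψ z = bd y` with `y` on `U` of degree `i + 1`: put `y₀ = hf X v y`; then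
`bd y₀ = hf X v (ψ z) = ψ z` and, `z₀ + sh X v z₀` being invariant under `v`,
`z₀ + sh X v z₀ = ψ z + sh X v (ψ z) = bd (y₀ + sh X v y₀)` (`hf_add_sh_hf`). So `r = z₀ + bd y₀` is
invariant under `v`, `cn v r` is a chain of degree `i + 1` on `insert v U`, and
`bd (cn v r + y₀) = r + cn v (bd r) + bd y₀ = z₀ + cn v z₁ = z` (`bd_cn`, `dl_add_cn_lk`). -/
theorem bet_cone_le [Fintype Ω] (X : Act G Ω) (U : Finset V) (v : V) (hv : v ∉ U)
    (h : ∀ x ∈ U, G.Adj v x) (i : ℕ) :
    bet X (KU G (insert v U)) i ≤ bet X (KU G U) i := by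
  have hnot : ∀ σ, KU G U σ → v ∉ σ := fun σ hσ hx => hv (hσ.1 hx)
  have hshm : ∀ {j : ℕ} {f : Finset V → Ω → ZMod 2}, f ∈ CK X (KU G U) j →
      sh X v f ∈ CK X (KU G U) j := fun hf =>
    sh_mem_CK X v (fun σ hσ x hx => Or.inr (h x (hσ.1 hx))) hf
  refine hdim_le_of_inj (ZK X (KU G (insert v U)) i) (BK X (KU G (insert v U)) i)
    (ZK X (KU G U) i) (BK X (KU G U) i) (BK_le_ZK X (KU_down' G _) _)
    (BK_le_ZK X (KU_down' G _) _) ((hf X v).comp (dl v + (sh X v).comp (dl v))) ?_ ?_ ?_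
  · rintro z ⟨hz1, hz2⟩
    have hz2' : bd z = 0 := hz2
    have hd := scone_dl_mem X U v hz1
    refine ⟨hf_mem_CK X v hnot (Submodule.add_mem _ hd (hshm hd)), ?_⟩
    have h1 : bd (dl v z) = lk v z := by
      apply scone_eq_of_add
      rw [← dl_bd, hz2', map_zero]
    change bd (hf X v (dl v z + sh X v (dl v z))) = 0
    rw [bd_hf, map_add, bd_sh, h1, scone_sh_lk X v hz1, scone_char, map_zero]
  · rintro _ ⟨y, hy, rfl⟩
    have hd := scone_dl_mem X U v hy
    refine ⟨hf X v (dl v y + sh X v (dl v y)),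
      hf_mem_CK X v hnot (Submodule.add_mem _ hd (hshm hd)), ?_⟩
    change bd (hf X v (dl v y + sh X v (dl v y))) =
      hf X v (dl v (bd y) + sh X v (dl v (bd y)))
    rw [dl_bd, map_add (sh X v), scone_sh_lk X v hy, bd_hf, map_add bd, bd_sh]
    congr 1
    have h2 := scone_char (lk v y)
    calc bd (dl v y) + sh X v (bd (dl v y)) =
        bd (dl v y) + sh X v (bd (dl v y)) + 0 := by rw [add_zero]
      _ = bd (dl v y) + lk v y + (sh X v (bd (dl v y)) + lk v y) := by rw [← h2]; abel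
  · rintro z ⟨hz1, hz2⟩ ⟨y, hy, hyz⟩
    have hz2' : bd z = 0 := hz2
    have hyz' : bd y = hf X v (dl v z + sh X v (dl v z)) := hyz
    have hd := scone_dl_mem X U v hz1
    have h1 : bd (dl v z) = lk v z := by
      apply scone_eq_of_add
      rw [← dl_bd, hz2', map_zero]
    have hy0 : hf X v y ∈ CK X (KU G U) (i + 1) := hf_mem_CK X v hnot hy
    have hb0 : bd (hf X v y) = hf X v (dl v z + sh X v (dl v z)) := by
      rw [bd_hf, hyz', scone_hf_hf]
    have hw : bd (hf X v y) + sh X v (bd (hf X v y)) = dl v z + sh X v (dl v z) := by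
      rw [hb0]
      exact hf_add_sh_hf X v _ (sh_add_sh X v _)
    have hr1 : dl v z + bd (hf X v y) ∈ CK X (KU G U) i :=
      Submodule.add_mem _ hd (bd_mem_CK X (KU_down' G U) hy0)
    have hr2 : sh X v (dl v z + bd (hf X v y)) = dl v z + bd (hf X v y) := by
      rw [map_add]
      apply scone_eq_of_add
      calc sh X v (dl v z) + sh X v (bd (hf X v y)) + (dl v z + bd (hf X v y)) =
          (dl v z + sh X v (dl v z)) + (bd (hf X v y) + sh X v (bd (hf X v y))) := by abel
        _ = 0 := by rw [hw, scone_char]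
    refine ⟨cn v (dl v z + bd (hf X v y)) + hf X v y, Submodule.add_mem _
      (scone_cn_mem X U v h hr1 hr2)
      (CK_mono X (fun σ hσ => ⟨hσ.1.trans (subset_insert _ _), hσ.2⟩) _ hy0), ?_⟩
    rw [map_add, bd_cn v _ (scone_dl_eq X v hnot hr1), map_add bd, bd_bd, add_zero, h1]
    have h3 := dl_add_cn_lk v z
    have h4 := scone_char (bd (hf X v y))
    calc dl v z + bd (hf X v y) + cn v (lk v z) + bd (hf X v y) =
        (dl v z + cn v (lk v z)) + (bd (hf X v y) + bd (hf X v y)) := by abel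
      _ = z := by rw [h3, h4, add_zero]

end Pool.Agent.H4.Singer3
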