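import Pool.Agent.H4.Singer.ActBasic
import Pool.Agent.H4.Singer.TopDefs

/-!
# Singer project, part three: definitions

Mod 2 homology growth of right-angled Coxeter groups and its behaviour under vertex splits.
-/

set_option autoImplicit false
set_option linter.unusedSectionVars false

open Finset

namespace Pool.Agent.H4.Singer3

variable {V : Type} [DecidableEq V] [Fintype V]

/-! ## Sets with an action of the right-angled Coxeter group -/

/-- A set with involutions `s v`, commuting for adjacent vertices, and an equivariant map to the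
cube `V → Bool`. -/
structure Act (G : SimpleGraph V) (Ω : Type) where
  /-- the involutions -/
  s : V → Ω → Ω
  invol : ∀ v ω, s v (s v ω) = ω
  comm : ∀ u v, G.Adj u v → ∀ ω, s u (s v ω) = s v (s u ω)
  /-- the map to the cube -/
  bit : Ω → V → Bool
  bit_s : ∀ v ω, bit (s v ω) = Function.update (bit ω) v (!(bit ω v))

/-- the same action for a graph with fewer edges -/
def Act.mono {G H : SimpleGraph V} {Ω : Type} (X : Act G Ω) (h : H ≤ G) : Act H Ω where
  s := X.s
  invol := X.invol
  comm u v huv := X.comm u v (h huv)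
  bit := X.bit
  bit_s := X.bit_s

/-! ## Chains modulo two -/

section Chains

variable {G : SimpleGraph V} {Ω : Type}

/-- chains of degree `i` on the simplices in `𝒦` -/
def CK (X : Act G Ω) (𝒦 : Finset V → Prop) (i : ℕ) :
    Submodule (ZMod 2) (Finset V → Ω → ZMod 2) where
  carrier := {f | (∀ σ ω, f σ ω ≠ 0 → 𝒦 σ ∧ σ.card = i) ∧
    ∀ σ, ∀ v ∈ σ, ∀ ω, f σ (X.s v ω) = f σ ω}
  zero_mem' := ⟨fun σ ω h => absurd rfl h, fun σ v _ ω => rfl⟩
  add_mem' := by
    rintro f g ⟨h1, h2⟩ ⟨h3, h4⟩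
    refine ⟨fun σ ω h => ?_, fun σ v hv ω => ?_⟩
    · by_cases hf : f σ ω = 0
      · by_cases hg : g σ ω = 0
        · exact absurd (by simp [hf, hg]) h
        · exact h3 σ ω hg
      · exact h1 σ ω hf
    · simp only [Pi.add_apply]
      rw [h2 σ v hv ω, h4 σ v hv ω]
  smul_mem' := by
    rintro c f ⟨h1, h2⟩
    refine ⟨fun σ ω h => h1 σ ω ?_, fun σ v hv ω => ?_⟩
    · intro h0
      exact h (by simp [h0])
    · simp only [Pi.smul_apply, smul_eq_mul]
      rw [h2 σ v hv ω]

/-- the boundary operator -/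
def bd : (Finset V → Ω → ZMod 2) →ₗ[ZMod 2] (Finset V → Ω → ZMod 2) where
  toFun f τ ω := ∑ v ∈ τᶜ, f (insert v τ) ω
  map_add' f g := by
    funext τ ω
    simp [Finset.sum_add_distrib]
  map_smul' c f := by
    funext τ ω
    simp [Finset.mul_sum]

/-- cycles -/
def ZK (X : Act G Ω) (𝒦 : Finset V → Prop) (i : ℕ) :
    Submodule (ZMod 2) (Finset V → Ω → ZMod 2) := CK X 𝒦 i ⊓ LinearMap.ker bd

/-- boundaries -/
def BK (X : Act G Ω) (𝒦 : Finset V → Prop) (i : ℕ) :
    Submodule (ZMod 2) (Finset V → Ω → ZMod 2) := (CK X 𝒦 (i + 1)).map bd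

end Chains

/-- `dim Z - dim B` -/
noncomputable def hdim {M : Type} [AddCommGroup M] [Module (ZMod 2) M]
    (Z B : Submodule (ZMod 2) M) : ℕ :=
  Module.finrank (ZMod 2) Z - Module.finrank (ZMod 2) B

/-- Betti numbers -/
noncomputable def bet {G : SimpleGraph V} {Ω : Type} (X : Act G Ω) (𝒦 : Finset V → Prop)
    (i : ℕ) : ℕ :=
  hdim (ZK X 𝒦 i) (BK X 𝒦 i)

/-- the cliques contained in `U` -/
def KU (G : SimpleGraph V) (U σ : Finset V) : Prop := σ ⊆ U ∧ G.IsClique (σ : Set V)

/-- the neighbours of `v` in `U` -/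
noncomputable def nbr (G : SimpleGraph V) (U : Finset V) (v : V) : Finset V := by
  classical exact U.filter fun x => G.Adj v x

theorem mem_nbr {G : SimpleGraph V} {U : Finset V} {v x : V} :
    x ∈ nbr G U v ↔ x ∈ U ∧ G.Adj v x := by
  unfold nbr
  simp

/-! ## Two-groups -/

/-- generators of a group satisfying the relations of the right-angled Coxeter group, with an
equivariant map to the cube -/
structure Gen (G : SimpleGraph V) (P : Type) [Group P] where
  /-- the generators -/
  g : V → P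
  sq : ∀ v, g v * g v = 1
  comm : ∀ u v, G.Adj u v → g u * g v = g v * g u
  /-- the map to the cube -/
  bit : P → V → Bool
  bit_mul : ∀ p v, bit (p * g v) = Function.update (bit p) v (!(bit p v))

/-- the action by right multiplication -/
def Gen.act {G : SimpleGraph V} {P : Type} [Group P] (D : Gen G P) : Act G P where
  s v p := p * D.g v
  invol v p := by rw [mul_assoc, D.sq, mul_one]
  comm u v h p := by rw [mul_assoc, mul_assoc, D.comm u v h]
  bit := D.bit
  bit_s v p := D.bit_mul p v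

/-- The mod 2 homology growth of the special subgroup on `U` vanishes in degree `i`. -/
def Dens (G : SimpleGraph V) (U : Finset V) (i : ℕ) : Prop :=
  ∀ m : ℕ, ∃ (P : Type) (_ : Group P) (_ : Fintype P) (D : Gen G P), IsPGroup 2 P ∧
    m * bet D.act (KU G U) i ≤ Fintype.card P

/-- hereditary vanishing above the middle dimension -/
def Good (n : ℕ) (G : SimpleGraph V) (U : Finset V) : Prop :=
  ∀ (σ W : Finset V) (i : ℕ), σ ⊆ U → G.IsClique (σ : Set V) → W ⊆ U →
    (∀ s ∈ σ, ∀ x ∈ W, G.Adj s x) → n < 2 * i + σ.card → Dens G W i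

/-! ## The class of graphs -/

/-- the graph in which the edge `u w` is contracted to the vertex `w` (the vertex `u` becomes
isolated) -/
def contr (G : SimpleGraph V) (u w : V) : SimpleGraph V where
  Adj a b := a ≠ b ∧ a ≠ u ∧ b ≠ u ∧ (G.Adj a b ∨ (a = w ∧ G.Adj u b) ∨ (b = w ∧ G.Adj u a))
  symm := ⟨by
    rintro a b ⟨h1, h2, h3, h4⟩
    refine ⟨h1.symm, h3, h2, ?_⟩
    rcases h4 with h | h | h
    · exact Or.inl h.symm
    · exact Or.inr (Or.inr h)
    · exact Or.inr (Or.inl h)⟩
  loopless := ⟨fun a h => h.1 rfl⟩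

/-- the edge `u w` is in no induced 4-cycle of the induced subgraph on `U` -/
def NoSquare (G : SimpleGraph V) (U : Finset V) (u w : V) : Prop :=
  ∀ x ∈ U, ∀ y ∈ U, G.Adj u x → ¬ G.Adj w x → x ≠ w → G.Adj w y → ¬ G.Adj u y → y ≠ u →
    ¬ G.Adj x y

/-- The class of pairs (graph, set of vertices): see the statement of the main theorem. -/
inductive Tame : ℕ → SimpleGraph V → Finset V → Prop
  | empty (G : SimpleGraph V) : Tame 0 G ∅
  | level {n : ℕ} {G : SimpleGraph V} {U : Finset V} : Tame n G U → Tame (n + 1) G U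
  | mono {n : ℕ} {G H : SimpleGraph V} {U W : Finset V} : Tame n G U → W ⊆ U →
      (∀ x ∈ W, ∀ y ∈ W, H.Adj x y → G.Adj x y) → Tame n H W
  | cone {n : ℕ} {G : SimpleGraph V} {U : Finset V} {v : V} : Tame n G U → v ∉ U →
      (∀ x ∈ U, G.Adj v x) → Tame (n + 1) G (insert v U)
  | susp {n : ℕ} {G : SimpleGraph V} {U : Finset V} {a b : V} : Tame n G U → a ∉ U → b ∉ U →
      a ≠ b → ¬ G.Adj a b → (∀ x ∈ U, G.Adj a x) → (∀ x ∈ U, G.Adj b x) →
      Tame (n + 1) G (insert a (insert b U))
  | glue {n : ℕ} {G : SimpleGraph V} {U W : Finset V} : Tame (n + 2) G U → Tame (n + 2) G W →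
      Tame n G (U ∩ W) → (∀ x ∈ U, x ∉ W → ∀ y ∈ W, y ∉ U → ¬ G.Adj x y) → Tame (n + 2) G (U ∪ W)
  | even {n : ℕ} {G : SimpleGraph V} {U : Finset V} : Even n →
      (∀ v ∈ U, Tame (n + 1) G (nbr G U v)) → Tame (n + 2) G U
  | split {n : ℕ} {G : SimpleGraph V} {U : Finset V} {u w : V} : u ∈ U → w ∈ U → G.Adj u w →
      NoSquare G U u w → Tame (n + 1) (contr G u w) (U.erase u) → Tame n G (nbr G U u) →
      Tame n G (nbr G U w) → Tame (n + 1) G U

end Pool.Agent.H4.Singer3
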