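import Pool.Agent.H4.Singer3.SBasic

/-!
# Singer project, part three: deleting an edge
-/

set_option autoImplicit false
set_option linter.unusedSectionVars false

open Finset

namespace Pool.Agent.H4.Singer3

variable {V : Type} [DecidableEq V] [Fintype V] {G : SimpleGraph V} {Ω : Type}

/-- chains for the smaller graph agree with chains for the larger one, if the cliques of the
relevant size agree -/
theorem CK_mono_graph_eq (X : Act G Ω) (U : Finset V) (H : SimpleGraph V) (hH : H ≤ G) (j : ℕ)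
    (h : ∀ σ : Finset V, σ.card = j → (KU H U σ ↔ KU G U σ)) :
    CK (X.mono hH) (KU H U) j = CK X (KU G U) j := by
  refine Submodule.ext fun f => ⟨fun hf => ?_, fun hf => ?_⟩
  · exact ⟨fun σ ω hne => ⟨(h σ (hf.1 σ ω hne).2).1 (hf.1 σ ω hne).1, (hf.1 σ ω hne).2⟩, hf.2⟩
  · exact ⟨fun σ ω hne => ⟨(h σ (hf.1 σ ω hne).2).2 (hf.1 σ ω hne).1, (hf.1 σ ω hne).2⟩, hf.2⟩

theorem KU_of_le {H : SimpleGraph V} (hH : H ≤ G) {U σ : Finset V} (h : KU H U σ) :
    KU G U σ := by
  refine ⟨h.1, fun x hx y hy hxy => hH (h.2 hx hy hxy)⟩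

theorem CK_mono_graph_le (X : Act G Ω) (U : Finset V) (H : SimpleGraph V) (hH : H ≤ G) (j : ℕ) :
    CK (X.mono hH) (KU H U) j ≤ CK X (KU G U) j :=
  fun _ hf => ⟨fun σ ω hne => ⟨KU_of_le hH (hf.1 σ ω hne).1, (hf.1 σ ω hne).2⟩, hf.2⟩

/-- the trace for the two involutions -/
def tr2 (X : Act G Ω) (a b : V) : (Finset V → Ω → ZMod 2) →ₗ[ZMod 2] (Finset V → Ω → ZMod 2) :=
  (LinearMap.id + sh X b).comp (LinearMap.id + sh X a)

theorem tr2_apply (X : Act G Ω) (a b : V) (t : Finset V → Ω → ZMod 2) :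
    tr2 X a b t = (t + sh X a t) + sh X b (t + sh X a t) := rfl

theorem bd_tr2 (X : Act G Ω) (a b : V) (t : Finset V → Ω → ZMod 2) :
    bd (tr2 X a b t) = tr2 X a b (bd t) := by
  rw [tr2_apply, tr2_apply, map_add, bd_sh, map_add, bd_sh]

theorem sh_comm (X : Act G Ω) {a b : V} (hab : G.Adj a b) (t : Finset V → Ω → ZMod 2) :
    sh X a (sh X b t) = sh X b (sh X a t) := by
  funext σ ω
  simp only [sh_apply]
  rw [X.comm a b hab]

theorem sh_a_tr2 (X : Act G Ω) {a b : V} (hab : G.Adj a b) (t : Finset V → Ω → ZMod 2) :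
    sh X a (tr2 X a b t) = tr2 X a b t := by
  rw [tr2_apply, map_add, sh_comm X hab, sh_add_sh]

theorem sh_b_tr2 (X : Act G Ω) (a b : V) (t : Finset V → Ω → ZMod 2) :
    sh X b (tr2 X a b t) = tr2 X a b t := by
  rw [tr2_apply, sh_add_sh]

theorem add_self_fun (f : Finset V → Ω → ZMod 2) : f + f = 0 := by
  funext σ ω
  exact CharTwo.add_self_eq_zero _

theorem sub_eq_add_fun (f g : Finset V → Ω → ZMod 2) : f - g = f + g := by
  funext σ ω
  exact CharTwo.sub_eq_add _ _

/-- facts on the common link of `a` and `b` -/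
theorem KU_T {U σ : Finset V} {a b : V} (h : KU G (nbr G (nbr G U a) b) σ) :
    (∀ v ∈ σ, v ∈ U ∧ G.Adj a v ∧ G.Adj b v) ∧ a ∉ σ ∧ b ∉ σ ∧ G.IsClique (σ : Set V) := by
  have h1 : ∀ v ∈ σ, v ∈ U ∧ G.Adj a v ∧ G.Adj b v := by
    intro v hv
    have h2 := mem_nbr.1 (h.1 hv)
    have h3 := mem_nbr.1 h2.1
    exact ⟨h3.1, h3.2, h2.2⟩
  exact ⟨h1, fun ha => G.loopless.irrefl a (h1 a ha).2.1, fun hb => G.loopless.irrefl b (h1 b hb).2.2, h.2⟩

/-- the cone over an invariant chain of the common link is a chain for `H` -/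
theorem cn_mem_CK_H (X : Act G Ω) (U : Finset V) (a b c : V) (hc : c ∈ U)
    (hcab : c = a ∨ c = b) (H : SimpleGraph V) (hH : H ≤ G)
    (hadj : ∀ x y, H.Adj x y ↔ G.Adj x y ∧ ¬ (x = a ∧ y = b) ∧ ¬ (x = b ∧ y = a)) (j : ℕ)
    {f : Finset V → Ω → ZMod 2} (hf : f ∈ CK X (KU G (nbr G (nbr G U a) b)) j)
    (hinv : sh X c f = f) : cn c f ∈ CK (X.mono hH) (KU H U) (j + 1) := by
  refine ⟨fun σ ω hne => ?_, fun σ v hv ω => ?_⟩
  · rw [cn_apply] at hne
    have hcσ : c ∈ σ := by
      by_contra h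
      rw [if_neg h] at hne
      exact hne rfl
    rw [if_pos hcσ] at hne
    obtain ⟨hK, hcard⟩ := hf.1 _ _ hne
    obtain ⟨h1, h2, h3, h4⟩ := KU_T hK
    refine ⟨⟨fun x hx => ?_, fun x hx y hy hxy => ?_⟩, ?_⟩
    · by_cases hxc : x = c
      · rw [hxc]; exact hc
      · exact (h1 x (mem_erase.2 ⟨hxc, hx⟩)).1
    · rw [mem_coe] at hx hy
      rw [hadj]
      have hne_a : ∀ w, w ∈ σ → w ≠ c → w ≠ a := fun w hw hwc hwa =>
        h2 (hwa ▸ mem_erase.2 ⟨hwc, hw⟩)
      have hne_b : ∀ w, w ∈ σ → w ≠ c → w ≠ b := fun w hw hwc hwb =>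
        h3 (hwb ▸ mem_erase.2 ⟨hwc, hw⟩)
      have hcadj : ∀ w, w ∈ σ → w ≠ c → G.Adj c w := by
        intro w hw hwc
        have h5 := h1 w (mem_erase.2 ⟨hwc, hw⟩)
        rcases hcab with h6 | h6
        · rw [h6]; exact h5.2.1
        · rw [h6]; exact h5.2.2
      by_cases hxc : x = c
      · have hyc : y ≠ c := fun h => hxy (by rw [hxc, h])
        refine ⟨by rw [hxc]; exact hcadj y hy hyc, fun h => hne_b y hy hyc h.2,
          fun h => hne_a y hy hyc h.2⟩
      · by_cases hyc : y = c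
        · refine ⟨by rw [hyc]; exact (hcadj x hx hxc).symm, fun h => hne_a x hx hxc h.1,
            fun h => hne_b x hx hxc h.1⟩
        · refine ⟨h4 (mem_coe.2 (mem_erase.2 ⟨hxc, hx⟩)) (mem_coe.2 (mem_erase.2 ⟨hyc, hy⟩)) hxy,
            fun h => hne_a x hx hxc h.1, fun h => hne_b x hx hxc h.1⟩
    · rw [card_erase_of_mem hcσ] at hcard
      have : 0 < σ.card := card_pos.2 ⟨c, hcσ⟩
      omega
  · rw [cn_apply, cn_apply]
    by_cases hcσ : c ∈ σ
    · rw [if_pos hcσ, if_pos hcσ]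
      by_cases hvc : v = c
      · rw [hvc]
        exact congrFun (congrFun hinv (σ.erase c)) ω
      · exact hf.2 _ v (mem_erase.2 ⟨hvc, hv⟩) ω
    · rw [if_neg hcσ, if_neg hcσ]

theorem dl_of_KU_T (X : Act G Ω) (U : Finset V) (a b c : V) (hcab : c = a ∨ c = b) (j : ℕ)
    {f : Finset V → Ω → ZMod 2} (hf : f ∈ CK X (KU G (nbr G (nbr G U a) b)) j) :
    dl c f = f := by
  funext σ ω
  rw [dl_apply]
  by_cases hc : c ∈ σ
  · rw [if_pos hc]
    by_contra hne
    obtain ⟨hK, _⟩ := hf.1 σ ω (fun h => hne h.symm)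
    obtain ⟨_, h2, h3, _⟩ := KU_T hK
    rcases hcab with h | h
    · exact h2 (h ▸ hc)
    · exact h3 (h ▸ hc)
  · rw [if_neg hc]

theorem tr2_mem_CK (X : Act G Ω) (U : Finset V) (a b : V) (j : ℕ)
    {f : Finset V → Ω → ZMod 2} (hf : f ∈ CK X (KU G (nbr G (nbr G U a) b)) j) :
    tr2 X a b f ∈ CK X (KU G (nbr G (nbr G U a) b)) j := by
  have ha : ∀ g ∈ CK X (KU G (nbr G (nbr G U a) b)) j,
      sh X a g ∈ CK X (KU G (nbr G (nbr G U a) b)) j := fun g hg =>
    sh_mem_CK X a (fun σ hσ v hv => Or.inr ((KU_T hσ).1 v hv).2.1) hg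
  have hb : ∀ g ∈ CK X (KU G (nbr G (nbr G U a) b)) j,
      sh X b g ∈ CK X (KU G (nbr G (nbr G U a) b)) j := fun g hg =>
    sh_mem_CK X b (fun σ hσ v hv => Or.inr ((KU_T hσ).1 v hv).2.2) hg
  rw [tr2_apply]
  have h1 := Submodule.add_mem _ hf (ha f hf)
  exact Submodule.add_mem _ h1 (hb _ h1)

/-- Deleting the edge `a b`. The cliques of `H` are the cliques of `G` not containing both `a`
and `b`. Let `T = nbr G (nbr G U a) b`. Use `hdim_le` with `ψ = id` (from cycles for `H` to cycles for `G`)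
and `φ : t ↦ cn a r + cn b r`, `r = ` the trace `Σ_{g ∈ ⟨a, b⟩} g (hf X a (hf X b t))`
`= q + sh X b q`, `q = p + sh X a p`, `p = hf X a (hf X b t)`, from `ZK`, `BK` of `KU G T` in degree `i`.
If a cycle `z` of degree `i + 1` for `H` is `bd y`, `y` on cliques of `G`, let
`r' = lk a (lk b y)` (a chain on `T` of degree `i`, invariant under `a` and `b`, and a cycle since
`lk a (lk b (bd y)) = lk a (lk b z) = 0`), `t = hf X a (hf X b r')`; then the trace of `t` is
`r'` (`hf_add_sh_hf` twice, `a` and `b` commute) and `bd (cn a (cn b r')) = cn b r' + cn a r'`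
(`bd_cn` twice, `bd r' = 0`), so `φ t - z = bd (y - cn a (cn b r'))` and
`y - cn a (cn b r')` is a chain for `H`. For `t = bd s` with `s` on `T` of degree `i + 1`:
`r` is `bd` of the trace `s'` of `s`, and `φ t = bd (cn a s' + cn b s')` (`bd_cn`), where
`cn a s'`, `cn b s'` are chains for `H` of degree `i + 2`. -/
theorem bet_delete_le [Fintype Ω] (X : Act G Ω) (U : Finset V) (a b : V) (ha : a ∈ U) (hb : b ∈ U)
    (hab : G.Adj a b) (H : SimpleGraph V) (hH : H ≤ G)
    (hadj : ∀ x y, H.Adj x y ↔ G.Adj x y ∧ ¬ (x = a ∧ y = b) ∧ ¬ (x = b ∧ y = a)) (i : ℕ) :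
    bet (X.mono hH) (KU H U) (i + 1) ≤
      bet X (KU G U) (i + 1) + bet X (KU G (nbr G (nbr G U a) b)) i := by
  have hab' : a ≠ b := G.ne_of_adj hab
  have hnot : ∀ σ : Finset V, KU H U σ → ¬ (a ∈ σ ∧ b ∈ σ) := by
    intro σ hσ h
    have h1 := hσ.2 (mem_coe.2 h.1) (mem_coe.2 h.2) hab'
    rw [hadj] at h1
    exact h1.2.1 ⟨rfl, rfl⟩
  unfold bet
  rw [add_comm (hdim (ZK X (KU G U) (i + 1)) (BK X (KU G U) (i + 1)))]
  refine hdim_le (ZK (X.mono hH) (KU H U) (i + 1)) (BK (X.mono hH) (KU H U) (i + 1))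
    (ZK X (KU G (nbr G (nbr G U a) b)) i) (BK X (KU G (nbr G (nbr G U a) b)) i)
    (ZK X (KU G U) (i + 1)) (BK X (KU G U) (i + 1))
    (BK_le_ZK _ (KU_down' H U) _) (BK_le_ZK _ (KU_down' G _) _) (BK_le_ZK _ (KU_down' G U) _)
    LinearMap.id ((cn a + cn b).comp (tr2 X a b)) ?_ ?_ ?_ ?_
  · intro z hz
    exact ⟨CK_mono_graph_le X U H hH _ hz.1, hz.2⟩
  · rintro _ ⟨y, hy, rfl⟩
    exact ⟨y, CK_mono_graph_le X U H hH _ hy, rfl⟩
  · rintro z hz ⟨y, hy, hyz⟩
    change bd y = z at hyz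
    set r : Finset V → Ω → ZMod 2 := lk a (lk b y) with hr
    have hrap : ∀ τ ω, r τ ω = if a ∈ τ ∨ b ∈ τ then 0 else y (insert b (insert a τ)) ω := by
      intro τ ω
      rw [hr, lk_apply, lk_apply]
      by_cases h1 : a ∈ τ
      · rw [if_pos h1, if_pos (Or.inl h1)]
      · rw [if_neg h1]
        by_cases h2 : b ∈ τ
        · rw [if_pos (mem_insert_of_mem h2), if_pos (Or.inr h2)]
        · have h3 : b ∉ insert a τ := by
            rw [mem_insert, not_or]
            exact ⟨hab'.symm, h2⟩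
          rw [if_neg h3, if_neg (by tauto)]
    have hrCK : r ∈ CK X (KU G (nbr G (nbr G U a) b)) i := by
      refine ⟨fun τ ω hne => ?_, fun τ v hv ω => ?_⟩
      · rw [hrap] at hne
        by_cases h1 : a ∈ τ ∨ b ∈ τ
        · rw [if_pos h1] at hne
          exact absurd rfl hne
        rw [if_neg h1] at hne
        rw [not_or] at h1
        obtain ⟨⟨h2, h3⟩, h4⟩ := hy.1 _ _ hne
        have hxa : ∀ x ∈ τ, a ≠ x := fun x hx h => h1.1 (h ▸ hx)
        have hxb : ∀ x ∈ τ, b ≠ x := fun x hx h => h1.2 (h ▸ hx)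
        refine ⟨⟨fun x hx => ?_, ?_⟩, ?_⟩
        · rw [mem_nbr, mem_nbr]
          refine ⟨⟨h2 (mem_insert_of_mem (mem_insert_of_mem hx)), ?_⟩, ?_⟩
          · exact h3 (mem_coe.2 (mem_insert_of_mem (mem_insert_self _ _)))
              (mem_coe.2 (mem_insert_of_mem (mem_insert_of_mem hx))) (hxa x hx)
          · exact h3 (mem_coe.2 (mem_insert_self _ _))
              (mem_coe.2 (mem_insert_of_mem (mem_insert_of_mem hx))) (hxb x hx)
        · exact h3.subset (by
            intro x hx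
            rw [mem_coe] at hx ⊢
            exact mem_insert_of_mem (mem_insert_of_mem hx))
        · have h5 : b ∉ insert a τ := by
            rw [mem_insert, not_or]
            exact ⟨hab'.symm, h1.2⟩
          rw [card_insert_of_notMem h5, card_insert_of_notMem h1.1] at h4
          omega
      · rw [hrap, hrap]
        by_cases h1 : a ∈ τ ∨ b ∈ τ
        · rw [if_pos h1, if_pos h1]
        · rw [if_neg h1, if_neg h1]
          exact hy.2 _ v (mem_insert_of_mem (mem_insert_of_mem hv)) ω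
    have hra : sh X a r = r := by
      funext τ ω
      rw [sh_apply, hrap, hrap]
      by_cases h1 : a ∈ τ ∨ b ∈ τ
      · rw [if_pos h1, if_pos h1]
      · rw [if_neg h1, if_neg h1]
        exact hy.2 _ a (mem_insert_of_mem (mem_insert_self _ _)) ω
    have hrb : sh X b r = r := by
      funext τ ω
      rw [sh_apply, hrap, hrap]
      by_cases h1 : a ∈ τ ∨ b ∈ τ
      · rw [if_pos h1, if_pos h1]
      · rw [if_neg h1, if_neg h1]
        exact hy.2 _ b (mem_insert_self _ _) ω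
    have hbdr : bd r = 0 := by
      rw [hr, ← lk_bd, ← lk_bd, hyz]
      funext τ ω
      rw [lk_apply, lk_apply, Pi.zero_apply, Pi.zero_apply]
      by_cases h1 : a ∈ τ
      · rw [if_pos h1]
      · rw [if_neg h1]
        by_cases h2 : b ∈ insert a τ
        · rw [if_pos h2]
        · rw [if_neg h2]
          by_contra hne
          obtain ⟨h3, _⟩ := hz.1.1 _ _ hne
          exact hnot _ h3 ⟨mem_insert_of_mem (mem_insert_self _ _), mem_insert_self _ _⟩
    have hT : ∀ σ, KU G (nbr G (nbr G U a) b) σ → a ∉ σ := fun σ h => (KU_T h).2.1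
    have hT' : ∀ σ, KU G (nbr G (nbr G U a) b) σ → b ∉ σ := fun σ h => (KU_T h).2.2.1
    refine ⟨hf X a (hf X b r), ⟨hf_mem_CK X a hT (hf_mem_CK X b hT' hrCK), ?_⟩, ?_⟩
    · change bd (hf X a (hf X b r)) = 0
      rw [bd_hf, bd_hf, hbdr, map_zero, map_zero]
    · have htr : tr2 X a b (hf X a (hf X b r)) = r := by
        have h1 : sh X a (hf X b r) = hf X b r := by
          funext σ ω
          rw [sh_apply, hf_apply, hf_apply, bit_ne X hab']
          have h2 : r σ (X.s a ω) = r σ ω := congrFun (congrFun hra σ) ω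
          rw [h2]
        rw [tr2_apply, hf_add_sh_hf X a _ h1, hf_add_sh_hf X b _ hrb]
      rw [LinearMap.comp_apply, htr, LinearMap.add_apply]
      have hcc : ∀ σ ω, cn a (cn b r) σ ω = if a ∈ σ ∧ b ∈ σ then y σ ω else 0 := by
        intro σ ω
        rw [cn_apply]
        by_cases h1 : a ∈ σ
        · rw [if_pos h1, cn_apply]
          by_cases h2 : b ∈ σ
          · have h3 : b ∈ σ.erase a := mem_erase.2 ⟨hab'.symm, h2⟩
            rw [if_pos h3, if_pos ⟨h1, h2⟩, hrap]
            have h4 : ¬ (a ∈ (σ.erase a).erase b ∨ b ∈ (σ.erase a).erase b) := by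
              simp
            rw [if_neg h4]
            have h5 : insert b (insert a ((σ.erase a).erase b)) = σ := by
              ext x
              simp only [mem_insert, mem_erase]
              constructor
              · rintro (h | h | h)
                · rw [h]; exact h2
                · rw [h]; exact h1
                · exact h.2.2
              · intro h
                by_cases hxb : x = b
                · exact Or.inl hxb
                · by_cases hxa : x = a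
                  · exact Or.inr (Or.inl hxa)
                  · exact Or.inr (Or.inr ⟨hxb, hxa, h⟩)
            rw [h5]
          · rw [if_neg (fun h => h2 (mem_of_mem_erase h)), if_neg (fun h => h2 h.2)]
        · rw [if_neg h1, if_neg (fun h => h1 h.1)]
      refine ⟨y + cn a (cn b r), ⟨fun σ ω hne => ?_, fun σ v hv ω => ?_⟩, ?_⟩
      · rw [Pi.add_apply, Pi.add_apply, hcc] at hne
        by_cases h1 : a ∈ σ ∧ b ∈ σ
        · rw [if_pos h1] at hne
          exact absurd (CharTwo.add_self_eq_zero _) hne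
        · rw [if_neg h1, add_zero] at hne
          obtain ⟨⟨h2, h3⟩, h4⟩ := hy.1 _ _ hne
          refine ⟨⟨h2, fun x hx w hw hxw => ?_⟩, h4⟩
          rw [hadj]
          refine ⟨h3 hx hw hxw, ?_, ?_⟩
          · rintro ⟨h5, h6⟩
            rw [mem_coe] at hx hw
            exact h1 ⟨h5 ▸ hx, h6 ▸ hw⟩
          · rintro ⟨h5, h6⟩
            rw [mem_coe] at hx hw
            exact h1 ⟨h6 ▸ hw, h5 ▸ hx⟩
      · change (y + cn a (cn b r)) σ (X.s v ω) = _
        rw [Pi.add_apply, Pi.add_apply, Pi.add_apply, hcc, hcc, hy.2 σ v hv ω]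
      · have hdlb : dl b r = r := dl_of_KU_T X U a b b (Or.inr rfl) i hrCK
        have hdla : dl a r = r := dl_of_KU_T X U a b a (Or.inl rfl) i hrCK
        have hdlab : dl a (cn b r) = cn b r := by
          funext σ ω
          rw [dl_apply]
          by_cases h1 : a ∈ σ
          · rw [if_pos h1, cn_apply]
            by_cases h2 : b ∈ σ
            · rw [if_pos h2]
              have h3 : r (σ.erase b) ω = dl a r (σ.erase b) ω := by rw [hdla]
              rw [h3, dl_apply, if_pos (mem_erase.2 ⟨hab', h1⟩)]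
            · rw [if_neg h2]
          · rw [if_neg h1]
        rw [map_add, hyz, bd_cn a _ hdlab, bd_cn b _ hdlb, hbdr, map_zero, add_zero,
          sub_eq_add_fun]
        abel
  · rintro _ ⟨s, hs, rfl⟩
    have hs' := tr2_mem_CK X U a b (i + 1) hs
    have hdla : dl a (tr2 X a b s) = tr2 X a b s := dl_of_KU_T X U a b a (Or.inl rfl) _ hs'
    have hdlb : dl b (tr2 X a b s) = tr2 X a b s := dl_of_KU_T X U a b b (Or.inr rfl) _ hs'
    refine ⟨cn a (tr2 X a b s) + cn b (tr2 X a b s), ?_, ?_⟩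
    · exact Submodule.add_mem _
        (cn_mem_CK_H X U a b a ha (Or.inl rfl) H hH hadj _ hs' (sh_a_tr2 X hab s))
        (cn_mem_CK_H X U a b b hb (Or.inr rfl) H hH hadj _ hs' (sh_b_tr2 X a b s))
    · rw [map_add, bd_cn a _ hdla, bd_cn b _ hdlb, LinearMap.comp_apply, LinearMap.add_apply,
        bd_tr2]
      have h := add_self_fun (tr2 X a b s)
      calc tr2 X a b s + cn a (tr2 X a b (bd s)) + (tr2 X a b s + cn b (tr2 X a b (bd s)))
          = (tr2 X a b s + tr2 X a b s) + (cn a (tr2 X a b (bd s)) + cn b (tr2 X a b (bd s))) := by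
            abel
        _ = _ := by rw [h, zero_add]

/-- in degree zero edges play no role (cliques with at most one element) -/
theorem bet_mono_zero [Fintype Ω] (X : Act G Ω) (U : Finset V) (H : SimpleGraph V) (hH : H ≤ G) :
    bet (X.mono hH) (KU H U) 0 ≤ bet X (KU G U) 0 := by
  have h : ∀ j, j ≤ 1 → CK (X.mono hH) (KU H U) j = CK X (KU G U) j := by
    intro j hj
    refine CK_mono_graph_eq X U H hH j fun σ hσ => ⟨KU_of_le hH, fun h => ⟨h.1, ?_⟩⟩
    intro x hx y hy hxy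
    exact absurd (card_le_one.1 (hσ.trans_le hj) x (mem_coe.1 hx) y (mem_coe.1 hy)) hxy
  unfold bet ZK BK
  rw [h 0 (by omega), h (0 + 1) (by omega)]

/-- if `G` and `H` agree on `U` -/
theorem bet_mono_eq [Fintype Ω] (X : Act G Ω) (U : Finset V) (H : SimpleGraph V) (hH : H ≤ G)
    (h : ∀ x ∈ U, ∀ y ∈ U, G.Adj x y → H.Adj x y) (i : ℕ) :
    bet (X.mono hH) (KU H U) i = bet X (KU G U) i := by
  have h' : ∀ j, CK (X.mono hH) (KU H U) j = CK X (KU G U) j := by
    intro j
    refine CK_mono_graph_eq X U H hH j fun σ hσ => ⟨KU_of_le hH, fun h1 => ⟨h1.1, ?_⟩⟩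
    intro x hx y hy hxy
    exact h x (h1.1 (mem_coe.1 hx)) y (h1.1 (mem_coe.1 hy)) (h1.2 hx hy hxy)
  unfold bet ZK BK
  rw [h' i, h' (i + 1)]

end Pool.Agent.H4.Singer3
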