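import Pool.Agent.H4.Singer3.SBasic

/-!
# Singer project, part three: Mayer-Vietoris inequality
-/

set_option autoImplicit false
set_option linter.unusedSectionVars false

open Finset

namespace Pool.Agent.H4.Singer3

section Aux

variable {M M' : Type} [AddCommGroup M] [Module (ZMod 2) M] [Module.Finite (ZMod 2) M]
  [AddCommGroup M'] [Module (ZMod 2) M'] [Module.Finite (ZMod 2) M']

/-- direct sums -/
theorem hdim_prod_le (Z B : Submodule (ZMod 2) M) (Z' B' : Submodule (ZMod 2) M') (hB : B ≤ Z)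
    (hB' : B' ≤ Z') : hdim (Z.prod Z') (B.prod B') ≤ hdim Z B + hdim Z' B' := by
  refine hdim_le (Z.prod Z') (B.prod B') Z B Z' B' (Submodule.prod_mono hB hB') hB hB'
    (LinearMap.snd (ZMod 2) M M') (LinearMap.inl (ZMod 2) M M') ?_ ?_ ?_ ?_
  · intro z hz
    exact hz.2
  · intro b hb
    exact hb.2
  · intro z hz hz'
    refine ⟨z.1, hz.1, ?_⟩
    rw [Submodule.mem_prod]
    constructor
    · simp
    · simpa using hz'
  · intro b hb
    rw [Submodule.mem_prod]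
    exact ⟨by simpa using hb, by simp⟩

end Aux

variable {V : Type} [DecidableEq V] [Fintype V] {G : SimpleGraph V} {Ω : Type}

theorem smv_add_self (f : Finset V → Ω → ZMod 2) : f + f = 0 := by
  funext σ ω
  exact CharTwo.add_self_eq_zero _

theorem smv_rs_add (𝒜 : Finset V → Prop) [DecidablePred 𝒜] (f : Finset V → Ω → ZMod 2) :
    rs 𝒜 f + rs (fun σ => ¬ 𝒜 σ) f = f := by
  funext σ ω
  simp only [Pi.add_apply, rs_apply]
  by_cases h : 𝒜 σ <;> simp [h]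

theorem smv_rs_mem (X : Act G Ω) {𝒦 𝒦' : Finset V → Prop} (𝒜 : Finset V → Prop)
    [DecidablePred 𝒜] (h : ∀ σ, 𝒦 σ → 𝒜 σ → 𝒦' σ) {i : ℕ} {f : Finset V → Ω → ZMod 2}
    (hf : f ∈ CK X 𝒦 i) : rs 𝒜 f ∈ CK X 𝒦' i := by
  refine ⟨fun σ ω hne => ?_, fun σ v hv ω => ?_⟩
  · rw [rs_apply] at hne
    by_cases hA : 𝒜 σ
    · rw [if_pos hA] at hne
      exact ⟨h σ (hf.1 σ ω hne).1 hA, (hf.1 σ ω hne).2⟩
    · rw [if_neg hA] at hne
      exact absurd rfl hne
  · rw [rs_apply, rs_apply, hf.2 σ v hv ω]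

theorem smv_rs_self (X : Act G Ω) {𝒦 : Finset V → Prop} (𝒜 : Finset V → Prop)
    [DecidablePred 𝒜] (h : ∀ σ, 𝒦 σ → 𝒜 σ) {i : ℕ} {f : Finset V → Ω → ZMod 2}
    (hf : f ∈ CK X 𝒦 i) : rs 𝒜 f = f := by
  funext σ ω
  rw [rs_apply]
  by_cases hA : 𝒜 σ
  · rw [if_pos hA]
  · rw [if_neg hA]
    by_contra hne
    exact hA (h σ (hf.1 σ ω (fun h0 => hne h0.symm)).1)

theorem smv_cover {U W : Finset V}
    (hno : ∀ x ∈ U, x ∉ W → ∀ y ∈ W, y ∉ U → ¬ G.Adj x y) {σ : Finset V}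
    (hσ : KU G (U ∪ W) σ) (hU : ¬ σ ⊆ U) : σ ⊆ W := by
  rw [Finset.not_subset] at hU
  obtain ⟨x, hx, hxU⟩ := hU
  have hxW : x ∈ W := by
    rcases Finset.mem_union.1 (hσ.1 hx) with h | h
    · exact absurd h hxU
    · exact h
  intro y hy
  by_contra hyW
  have hyU : y ∈ U := by
    rcases Finset.mem_union.1 (hσ.1 hy) with h | h
    · exact h
    · exact absurd h hyW
  have hne : y ≠ x := fun h => hyW (h ▸ hxW)
  exact hno y hyU hyW x hxW hxU (hσ.2 (by exact_mod_cast hy) (by exact_mod_cast hx) hne)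

/-- Mayer-Vietoris for the union of the complexes of cliques in `U` and in `W`. There are no edges
between `U \ W` and `W \ U`, so every clique of `U ∪ W` is contained in `U` or in `W`.
Use `hdim_le` with `ψ z = bd (rs (· ⊆ U) z)`, `φ = id`, for the pair `Z' = ZK U ⊔ ZK W`,
`B' = BK U ⊔ BK W` in the same space, and prove `hdim Z' B' ≤ bet U + bet W`
(`hdim_le` again, for `Z' B'` with `Z = Z'`, submodules `ZK W`, `BK W` and `φ = id`, `ψ = id` onto
`Z'' = ZK U ⊔ BK W`..., or directly by dimension count: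
`dim (A ⊔ B) = dim A + dim B - dim (A ⊓ B)` and `BK U ⊓ BK W ≤ ZK U ⊓ ZK W`).
For a cycle `z` on `U ∪ W` of degree `i + 1`: `z = z₁ + z₂`, `z₁ = rs (· ⊆ U) z` on `U`, `z₂` on `W`
(supported on cliques not contained in `U`); `bd z₁ = bd z₂` is supported on cliques of `U` and of
`W`, i.e. of `U ∩ W`, so it is a cycle of degree `i` on `U ∩ W`. If `z = bd y`, `y = y₁ + y₂`, then
`z₁ = rs (· ⊆ U) (bd y₁) + rs (· ⊆ U) (bd y₂) = bd y₁ + rs (· ⊆ U) (bd y₂)` and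
`t = rs (· ⊆ U) (bd y₂)` is a chain on `U ∩ W` of degree `i + 1`, `bd z₁ = bd t`. If
`bd z₁ = bd t` with `t` on `U ∩ W`, then `z = (z₁ + t) + (z₂ + t)` is a sum of cycles on `U` and on
`W`. -/
theorem bet_union_le [Fintype Ω] (X : Act G Ω) (U W : Finset V)
    (hno : ∀ x ∈ U, x ∉ W → ∀ y ∈ W, y ∉ U → ¬ G.Adj x y) (i : ℕ) :
    bet X (KU G (U ∪ W)) (i + 1) ≤
      bet X (KU G U) (i + 1) + bet X (KU G W) (i + 1) + bet X (KU G (U ∩ W)) i := by
  -- parts of a chain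
  have hp1 : ∀ {j : ℕ} {f : Finset V → Ω → ZMod 2}, f ∈ CK X (KU G (U ∪ W)) j →
      rs (· ⊆ U) f ∈ CK X (KU G U) j := fun hf =>
    smv_rs_mem X (· ⊆ U) (fun σ h1 h2 => ⟨h2, h1.2⟩) hf
  have hp2 : ∀ {j : ℕ} {f : Finset V → Ω → ZMod 2}, f ∈ CK X (KU G (U ∪ W)) j →
      rs (fun σ => ¬ σ ⊆ U) f ∈ CK X (KU G W) j := fun hf =>
    smv_rs_mem X (fun σ => ¬ σ ⊆ U) (fun σ h1 h2 => ⟨smv_cover hno h1 h2, h1.2⟩) hf
  have hbd : ∀ {f : Finset V → Ω → ZMod 2}, bd f = 0 →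
      bd (rs (fun σ => ¬ σ ⊆ U) f) = bd (rs (· ⊆ U) f) := by
    intro f h0
    have h1 : bd (rs (· ⊆ U) f) + bd (rs (fun σ => ¬ σ ⊆ U) f) = 0 := by
      rw [← map_add, smv_rs_add, h0]
    have h2 := smv_add_self (bd (rs (· ⊆ U) f))
    exact (add_left_cancel (h2.trans h1.symm)).symm
  have hU : ∀ σ, KU G U σ → KU G (U ∪ W) σ := fun σ h => ⟨h.1.trans subset_union_left, h.2⟩
  have hW : ∀ σ, KU G W σ → KU G (U ∪ W) σ := fun σ h => ⟨h.1.trans subset_union_right, h.2⟩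
  have hIU : ∀ σ, KU G (U ∩ W) σ → KU G U σ := fun σ h => ⟨h.1.trans inter_subset_left, h.2⟩
  have hIW : ∀ σ, KU G (U ∩ W) σ → KU G W σ := fun σ h => ⟨h.1.trans inter_subset_right, h.2⟩
  have hmain : bet X (KU G (U ∪ W)) (i + 1) ≤
      hdim ((ZK X (KU G U) (i + 1)).prod (ZK X (KU G W) (i + 1)))
        ((BK X (KU G U) (i + 1)).prod (BK X (KU G W) (i + 1))) + bet X (KU G (U ∩ W)) i := by
    refine hdim_le _ _ _ _ _ _ (BK_le_ZK X (KU_down' G _) _)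
      (Submodule.prod_mono (BK_le_ZK X (KU_down' G _) _) (BK_le_ZK X (KU_down' G _) _))
      (BK_le_ZK X (KU_down' G _) _)
      (bd.comp (rs (· ⊆ U)))
      (LinearMap.coprod LinearMap.id LinearMap.id) ?_ ?_ ?_ ?_
    · rintro z ⟨hz, hz0⟩
      refine ⟨?_, bd_bd _⟩
      have e1 := bd_mem_CK X (KU_down' G U) (hp1 hz)
      have e2 := bd_mem_CK X (KU_down' G W) (hp2 hz)
      rw [hbd hz0] at e2
      refine ⟨fun σ ω hne => ?_, e1.2⟩
      have a1 := e1.1 σ ω hne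
      have a2 := e2.1 σ ω hne
      exact ⟨⟨subset_inter a1.1.1 a2.1.1, a1.1.2⟩, a1.2⟩
    · rintro _ ⟨y, hy, rfl⟩
      refine ⟨rs (· ⊆ U) (bd (rs (fun σ => ¬ σ ⊆ U) y)), ?_, ?_⟩
      · exact smv_rs_mem X (· ⊆ U) (fun σ h1 h2 => ⟨subset_inter h2 h1.1, h1.2⟩)
          (bd_mem_CK X (KU_down' G W) (hp2 hy))
      · have e1 : rs (· ⊆ U) (bd (rs (· ⊆ U) y)) = bd (rs (· ⊆ U) y) :=
          smv_rs_self X (· ⊆ U) (fun σ h => h.1) (bd_mem_CK X (KU_down' G U) (hp1 hy))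
        have e2 : rs (· ⊆ U) (bd y) = bd (rs (· ⊆ U) y) +
            rs (· ⊆ U) (bd (rs (fun σ => ¬ σ ⊆ U) y)) := by
          conv_lhs => rw [← smv_rs_add (· ⊆ U) y]
          rw [map_add, map_add, e1]
        rw [LinearMap.comp_apply, e2, map_add, bd_bd, zero_add]
    · rintro z ⟨hz, hz0⟩ ⟨t, ht, hte⟩
      have hte' : bd t = bd (rs (· ⊆ U) z) := hte
      refine ⟨(rs (· ⊆ U) z + t, rs (fun σ => ¬ σ ⊆ U) z + t), ?_, ?_⟩
      · rw [Submodule.mem_prod]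
        refine ⟨⟨Submodule.add_mem _ (hp1 hz) (CK_mono X hIU _ ht), ?_⟩,
          ⟨Submodule.add_mem _ (hp2 hz) (CK_mono X hIW _ ht), ?_⟩⟩
        · rw [SetLike.mem_coe, LinearMap.mem_ker, map_add, hte']
          exact smv_add_self _
        · rw [SetLike.mem_coe, LinearMap.mem_ker, map_add, hte', hbd hz0]
          exact smv_add_self _
      · have e : LinearMap.coprod (LinearMap.id : (Finset V → Ω → ZMod 2) →ₗ[ZMod 2] _)
            (LinearMap.id : (Finset V → Ω → ZMod 2) →ₗ[ZMod 2] _)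
            (rs (· ⊆ U) z + t, rs (fun σ => ¬ σ ⊆ U) z + t) - z = (0 : Finset V → Ω → ZMod 2) := by
          rw [LinearMap.coprod_apply, LinearMap.id_apply, LinearMap.id_apply]
          have h1 := smv_rs_add (· ⊆ U) z
          have h2 := smv_add_self t
          calc rs (· ⊆ U) z + t + (rs (fun σ => ¬ σ ⊆ U) z + t) - z
              = (rs (· ⊆ U) z + rs (fun σ => ¬ σ ⊆ U) z) + (t + t) - z := by abel
            _ = 0 := by rw [h1, h2]; simp
        rw [e]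
        exact Submodule.zero_mem _
    · rintro ⟨b1, b2⟩ ⟨⟨y1, hy1, rfl⟩, ⟨y2, hy2, h2⟩⟩
      dsimp only at h2
      subst h2
      refine ⟨y1 + y2, Submodule.add_mem _ (CK_mono X hU _ hy1) (CK_mono X hW _ hy2), ?_⟩
      rw [map_add]
      rfl
  have hprod := hdim_prod_le (ZK X (KU G U) (i + 1)) (BK X (KU G U) (i + 1))
    (ZK X (KU G W) (i + 1)) (BK X (KU G W) (i + 1)) (BK_le_ZK X (KU_down' G _) _)
    (BK_le_ZK X (KU_down' G _) _)
  unfold bet at hmain ⊢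
  omega

end Pool.Agent.H4.Singer3
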