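import Pool.Agent.H4.Singer3.SBasic

/-!
# Singer project, part three: two points
-/

set_option autoImplicit false
set_option linter.unusedSectionVars false

open Finset

namespace Pool.Agent.H4.Singer3

variable {V : Type} [DecidableEq V] [Fintype V] {G : SimpleGraph V}

/-- the cliques in a set of two nonadjacent points -/
theorem ku_two {a b : V} (hab : a ≠ b) (h : ¬ G.Adj a b) {σ : Finset V}
    (hσ : KU G (insert a {b}) σ) : σ = ∅ ∨ σ = {a} ∨ σ = {b} := by
  obtain ⟨h1, h2⟩ := hσ
  by_cases ha : a ∈ σ
  · by_cases hb : b ∈ σ
    · exact absurd (h2 (by exact_mod_cast ha) (by exact_mod_cast hb) hab) h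
    · right; left
      ext x
      simp only [mem_singleton]
      constructor
      · intro hx
        have := h1 hx
        simp only [mem_insert, mem_singleton] at this
        rcases this with h3 | h3
        · exact h3
        · exact absurd (h3 ▸ hx) hb
      · rintro rfl
        exact ha
  · by_cases hb : b ∈ σ
    · right; right
      ext x
      simp only [mem_singleton]
      constructor
      · intro hx
        have := h1 hx
        simp only [mem_insert, mem_singleton] at this
        rcases this with h3 | h3
        · exact absurd (h3 ▸ hx) ha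
        · exact h3
      · rintro rfl
        exact hb
    · left
      rw [Finset.eq_empty_iff_forall_notMem]
      intro x hx
      have := h1 hx
      simp only [mem_insert, mem_singleton] at this
      rcases this with h3 | h3
      · exact ha (h3 ▸ hx)
      · exact hb (h3 ▸ hx)

/-- the chain with value one at `(∅, p)` -/
noncomputable def twoDlt {P : Type} (p : P) : Finset V → P → ZMod 2 := by
  classical exact fun σ x => if σ = ∅ ∧ x = p then 1 else 0

theorem twoDlt_apply {P : Type} [DecidableEq P] (p : P) (σ : Finset V) (x : P) :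
    (twoDlt p : Finset V → P → ZMod 2) σ x = if σ = ∅ ∧ x = p then 1 else 0 := by
  unfold twoDlt
  by_cases h : σ = ∅ ∧ x = p
  · rw [if_pos h, if_pos h]
  · rw [if_neg h, if_neg h]

section Bound

variable {P : Type} [Group P] [Fintype P] (D : Gen G P)

/-- moving a point by a generator changes its class by a boundary -/
theorem twoDlt_gen (U : Finset V) (v : V) (hv : v ∈ U) (p : P) :
    twoDlt (p * D.g v) - twoDlt p ∈ BK D.act (KU G U) 0 := by
  classical
  by_cases hp : p * D.g v = p
  · rw [hp, sub_self]
    exact Submodule.zero_mem _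
  refine mem_BK.2 ⟨fun σ x => if σ = {v} ∧ (x = p ∨ x = p * D.g v) then 1 else 0, ?_, ?_⟩
  · refine mem_CK.2 ⟨fun σ ω hne => ?_, fun σ u hu ω => ?_⟩
    · by_cases h1 : σ = {v}
      · subst h1
        refine ⟨⟨by simpa using hv, by simp⟩, by simp⟩
      · simp [h1] at hne
    · by_cases h1 : σ = {v}
      · subst h1
        rw [mem_singleton] at hu
        subst hu
        have h2 : D.act.s u ω = ω * D.g u := rfl
        rw [h2]
        have h3 : (ω * D.g u = p ∨ ω * D.g u = p * D.g u) ↔ (ω = p ∨ ω = p * D.g u) := by
          rw [mul_left_inj]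
          constructor
          · rintro (h4 | h4)
            · right
              rw [← h4, mul_assoc, D.sq, mul_one]
            · exact Or.inl h4
          · rintro (h4 | h4)
            · exact Or.inr h4
            · left
              rw [h4, mul_assoc, D.sq, mul_one]
        simp only [h3]
      · simp [h1]
  · funext τ ω
    rw [bd_apply, Pi.sub_apply, Pi.sub_apply, twoDlt_apply, twoDlt_apply]
    by_cases h1 : τ = ∅
    · subst h1
      rw [Finset.sum_eq_single v]
      · simp only [insert_empty_eq, true_and]
        by_cases h2 : ω = p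
        · subst h2
          have h3 : ¬ (ω = ω * D.g v) := fun h => hp h.symm
          simp only [true_or, if_true, if_neg h3]
          decide
        · by_cases h3 : ω = p * D.g v
          · simp only [h3, or_true, if_true, if_neg hp]
            decide
          · simp [h2, h3]
      · intro u _ hne
        rw [if_neg]
        rintro ⟨h2, _⟩
        simp only [insert_empty_eq, singleton_inj] at h2
        exact hne h2
      · intro h2
        simp at h2
    · have h2 : ∀ u ∈ τᶜ, ¬ (insert u τ = {v}) := by
        intro u hu h3
        rw [mem_compl] at hu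
        have h4 := congrArg Finset.card h3
        rw [card_insert_of_notMem hu, card_singleton] at h4
        have h5 : τ.card = 0 := by omega
        exact h1 (Finset.card_eq_zero.1 h5)
      rw [Finset.sum_eq_zero]
      · simp [h1]
      · intro u hu
        rw [if_neg]
        rintro ⟨h3, _⟩
        exact h2 u hu h3

theorem twoDlt_closure (a b : V) (p h : P) (hh : h ∈ Subgroup.closure {D.g a, D.g b}) :
    twoDlt (p * h) - twoDlt p ∈ BK D.act (KU G (insert a {b})) 0 := by
  induction hh using Subgroup.closure_induction generalizing p with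
  | mem x hx =>
    rcases hx with rfl | hx
    · exact twoDlt_gen D _ a (by simp) p
    · rw [Set.mem_singleton_iff] at hx
      subst hx
      exact twoDlt_gen D _ b (by simp) p
  | one => rw [mul_one, sub_self]; exact Submodule.zero_mem _
  | mul x y _ _ hx hy =>
    have h1 := Submodule.add_mem _ (hy (p * x)) (hx p)
    rw [← mul_assoc]
    simpa using h1
  | inv x _ hx =>
    have h1 := Submodule.neg_mem _ (hx (p * x⁻¹))
    rw [mul_assoc, inv_mul_cancel, mul_one, neg_sub] at h1
    exact h1

theorem bet_two_zero (a b : V) :
    bet D.act (KU G (insert a {b})) 0 ≤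
      Nat.card (P ⧸ Subgroup.closure {D.g a, D.g b}) := by
  classical
  let _ : Fintype (P ⧸ Subgroup.closure {D.g a, D.g b}) := Fintype.ofFinite _
  let φ : ((P ⧸ Subgroup.closure {D.g a, D.g b}) → ZMod 2) →ₗ[ZMod 2]
      (Finset V → P → ZMod 2) :=
    ∑ q, (LinearMap.proj q).smulRight (twoDlt q.out)
  have hφ : ∀ f, φ f = ∑ q, f q • twoDlt q.out := by
    intro f
    simp [φ, LinearMap.sum_apply, LinearMap.smulRight_apply]
  have key : ∀ p : P, twoDlt p ∈ LinearMap.range φ ⊔ BK D.act (KU G (insert a {b})) 0 := by
    intro p
    let q : P ⧸ Subgroup.closure {D.g a, D.g b} := QuotientGroup.mk p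
    have h1 : (QuotientGroup.mk q.out : P ⧸ Subgroup.closure {D.g a, D.g b}) =
        QuotientGroup.mk p := Quotient.out_eq' q
    rw [QuotientGroup.eq] at h1
    have h2 := twoDlt_closure D a b q.out _ h1
    rw [mul_inv_cancel_left] at h2
    have h3 : twoDlt q.out ∈ LinearMap.range φ := by
      refine ⟨Pi.single q 1, ?_⟩
      rw [hφ, Finset.sum_eq_single q]
      · simp
      · intro q' _ hne
        rw [Pi.single_eq_of_ne hne, zero_smul]
      · intro h; simp at h
    have h4 := Submodule.add_mem_sup h3 h2
    simpa using h4
  have h := hdim_le_of_surj (ZK D.act (KU G (insert a {b})) 0) (BK D.act (KU G (insert a {b})) 0)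
    (⊤ : Submodule (ZMod 2) ((P ⧸ Subgroup.closure {D.g a, D.g b}) → ZMod 2)) ⊥
    (BK_le_ZK _ (KU_down' G _) 0) bot_le φ ?_ ?_
  · unfold bet
    refine h.trans ?_
    unfold hdim
    rw [finrank_top, finrank_bot, Module.finrank_fintype_fun_eq_card, Nat.card_eq_fintype_card]
    simp
  · intro z hz
    have hz1 : z = ∑ p, z ∅ p • twoDlt p := by
      funext σ x
      rw [Finset.sum_apply, Finset.sum_apply, Finset.sum_eq_single x]
      · rw [Pi.smul_apply, Pi.smul_apply, twoDlt_apply]
        by_cases h1 : σ = ∅
        · subst h1
          simp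
        · rw [if_neg (fun h2 => h1 h2.1), smul_zero]
          by_contra hne
          have h2 := (hz.1.1 σ x hne).2
          exact h1 (Finset.card_eq_zero.1 h2)
      · intro y _ hne
        rw [Pi.smul_apply, Pi.smul_apply, twoDlt_apply, if_neg (fun h2 => hne h2.2.symm), smul_zero]
      · intro h1; simp at h1
    have hz2 : z ∈ LinearMap.range φ ⊔ BK D.act (KU G (insert a {b})) 0 := by
      rw [hz1]
      exact Submodule.sum_mem _ fun p _ => Submodule.smul_mem _ _ (key p)
    obtain ⟨y, ⟨f, rfl⟩, c, hc, hyc⟩ := Submodule.mem_sup.1 hz2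
    refine ⟨f, Submodule.mem_top, ?_⟩
    have h1 : φ f - z = -c := by
      rw [← hyc]; abel
    rw [h1]
    exact Submodule.neg_mem _ hc
  · intro f hf
    rw [Submodule.mem_bot] at hf
    rw [hf, map_zero]
    exact Submodule.zero_mem _

theorem ck_two_zero {a b : V} (hab : a ≠ b) (h : ¬ G.Adj a b) {i : ℕ} (hi : 2 ≤ i)
    {f : Finset V → P → ZMod 2} (hf : f ∈ CK D.act (KU G (insert a {b})) i) : f = 0 := by
  funext σ ω
  by_contra hne
  obtain ⟨h1, h2⟩ := hf.1 σ ω hne
  rcases ku_two hab h h1 with h3 | h3 | h3
  · rw [h3, card_empty] at h2; omega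
  · rw [h3, card_singleton] at h2; omega
  · rw [h3, card_singleton] at h2; omega

theorem bet_two_one {a b : V} (hab : a ≠ b) (h : ¬ G.Adj a b) :
    bet D.act (KU G (insert a {b})) 1 ≤
      Nat.card (P ⧸ Subgroup.closure {D.g a, D.g b}) := by
  classical
  let _ : Fintype (P ⧸ Subgroup.closure {D.g a, D.g b}) := Fintype.ofFinite _
  let ψ : (Finset V → P → ZMod 2) →ₗ[ZMod 2]
      ((P ⧸ Subgroup.closure {D.g a, D.g b}) → ZMod 2) :=
    { toFun := fun f q => f {a} q.out
      map_add' := fun _ _ => rfl
      map_smul' := fun _ _ => rfl }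
  have h0 := hdim_le_of_inj (ZK D.act (KU G (insert a {b})) 1)
    (BK D.act (KU G (insert a {b})) 1)
    (⊤ : Submodule (ZMod 2) ((P ⧸ Subgroup.closure {D.g a, D.g b}) → ZMod 2)) ⊥
    (BK_le_ZK _ (KU_down' G _) 1) bot_le ψ (fun _ _ => Submodule.mem_top) ?_ ?_
  · unfold bet
    refine h0.trans ?_
    unfold hdim
    rw [finrank_top, finrank_bot, Module.finrank_fintype_fun_eq_card, Nat.card_eq_fintype_card]
    simp
  · rintro _ ⟨y, hy, rfl⟩
    rw [ck_two_zero D hab h le_rfl hy, map_zero, map_zero]
    exact Submodule.zero_mem _
  · intro z hz hψ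
    rw [Submodule.mem_bot] at hψ
    have hz1 : ∀ σ ω, σ ≠ {a} → σ ≠ {b} → z σ ω = 0 := by
      intro σ ω h1 h2
      by_contra hne
      obtain ⟨h3, h4⟩ := hz.1.1 σ ω hne
      rcases ku_two hab h h3 with h5 | h5 | h5
      · rw [h5, card_empty] at h4; omega
      · exact h1 h5
      · exact h2 h5
    have hz2 : ∀ ω, z {a} ω + z {b} ω = 0 := by
      intro ω
      have h1 : bd z ∅ ω = 0 := by
        rw [(mem_ZK.1 hz).2]; rfl
      rw [bd_apply] at h1
      rw [← h1]
      have h2 : ({a, b} : Finset V) ⊆ (∅ : Finset V)ᶜ := by simp
      rw [← Finset.sum_subset h2]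
      · rw [Finset.sum_pair hab]
        simp
      · intro x _ hx
        simp only [mem_insert, mem_singleton, not_or] at hx
        apply hz1
        · simpa using hx.1
        · simpa using hx.2
    have hz3 : ∀ ω, z {b} ω = z {a} ω := by
      intro ω
      have h1 := hz2 ω
      have h2 : ∀ x y : ZMod 2, x + y = 0 → y = x := by decide
      exact h2 _ _ h1
    have hinv : ∀ h ∈ Subgroup.closure {D.g a, D.g b}, ∀ p, z {a} (p * h) = z {a} p := by
      intro h hh
      induction hh using Subgroup.closure_induction with
      | mem x hx =>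
        intro p
        rcases hx with rfl | hx
        · exact hz.1.2 {a} a (mem_singleton_self a) p
        · rw [Set.mem_singleton_iff] at hx
          subst hx
          rw [← hz3, ← hz3]
          exact hz.1.2 {b} b (mem_singleton_self b) p
      | one => intro p; rw [mul_one]
      | mul x y _ _ hx hy =>
        intro p
        rw [← mul_assoc, hy, hx]
      | inv x _ hx =>
        intro p
        have h1 := hx (p * x⁻¹)
        rw [mul_assoc, inv_mul_cancel, mul_one] at h1
        exact h1.symm
    have hza : ∀ p, z {a} p = 0 := by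
      intro p
      let q : P ⧸ Subgroup.closure {D.g a, D.g b} := QuotientGroup.mk p
      have h1 : (QuotientGroup.mk q.out : P ⧸ Subgroup.closure {D.g a, D.g b}) =
          QuotientGroup.mk p := Quotient.out_eq' q
      rw [QuotientGroup.eq] at h1
      have h2 := hinv _ h1 q.out
      rw [mul_inv_cancel_left] at h2
      rw [h2]
      exact congrFun hψ q
    have hz0 : z = 0 := by
      funext σ ω
      by_cases h1 : σ = {a}
      · rw [h1]; exact hza ω
      · by_cases h2 : σ = {b}
        · rw [h2, hz3]; exact hza ω
        · exact hz1 σ ω h1 h2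
    rw [hz0]
    exact Submodule.zero_mem _

theorem bet_two {a b : V} (hab : a ≠ b) (h : ¬ G.Adj a b) (i : ℕ) :
    bet D.act (KU G (insert a {b})) i ≤
      Nat.card (P ⧸ Subgroup.closure {D.g a, D.g b}) := by
  rcases i with _ | _ | i
  · exact bet_two_zero D a b
  · exact bet_two_one D hab h
  · have h1 : ZK D.act (KU G (insert a {b})) (i + 1 + 1) = ⊥ := by
      rw [eq_bot_iff]
      intro f hf
      rw [Submodule.mem_bot]
      exact ck_two_zero D hab h (by omega) (mem_ZK.1 hf).1
    unfold bet hdim
    rw [h1, finrank_bot]
    simp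

end Bound

/-- the bit of an element of the group with two elements -/
def twoBit (y : Multiplicative (ZMod 2)) : Bool := !decide (y = 1)

theorem twoBit_mul (y : Multiplicative (ZMod 2)) :
    twoBit (y * Multiplicative.ofAdd 1) = !twoBit y := by
  revert y
  decide

/-- the generators of the group used for two points -/
noncomputable def twoGen (k : ℕ) (a b : V) (hab : a ≠ b) (h : ¬ G.Adj a b) :
    Gen G (DihedralGroup (2 ^ k) × (V → Multiplicative (ZMod 2))) where
  g v := (if v = a then DihedralGroup.sr 0 else if v = b then DihedralGroup.sr 1 else 1,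
    Pi.mulSingle v (Multiplicative.ofAdd 1))
  sq v := by
    ext1
    · simp only [Prod.fst_mul, Prod.fst_one]
      split_ifs
      · rw [DihedralGroup.sr_mul_sr, sub_self]; rfl
      · rw [DihedralGroup.sr_mul_sr, sub_self]; rfl
      · rw [mul_one]
    · simp only [Prod.snd_mul, Prod.snd_one]
      rw [← Pi.mulSingle_mul, ← ofAdd_add]
      have : (1 + 1 : ZMod 2) = 0 := by decide
      rw [this, ofAdd_zero, Pi.mulSingle_one]
  comm u v huv := by
    ext1
    · simp only [Prod.fst_mul]
      by_cases hua : u = a
      · have hva : v ≠ a := fun h' => G.loopless.irrefl a (by rw [hua, h'] at huv; exact huv)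
        have hvb : v ≠ b := fun h' => h (by rw [hua, h'] at huv; exact huv)
        rw [if_neg hva, if_neg hvb, one_mul, mul_one]
      · by_cases hub : u = b
        · have hvb : v ≠ b := fun h' => G.loopless.irrefl b (by rw [hub, h'] at huv; exact huv)
          have hva : v ≠ a := fun h' => h (by rw [hub, h'] at huv; exact huv.symm)
          rw [if_neg hva, if_neg hvb, one_mul, mul_one]
        · rw [if_neg hua, if_neg hub, one_mul, mul_one]
    · simp only [Prod.snd_mul]
      exact mul_comm _ _
  bit p v := twoBit (p.2 v)
  bit_mul p v := by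
    funext x
    simp only [Prod.snd_mul, Pi.mul_apply]
    by_cases hx : x = v
    · subst hx
      rw [Function.update_self, Pi.mulSingle_eq_same]
      exact twoBit_mul _
    · rw [Function.update_of_ne hx, Pi.mulSingle_eq_of_ne hx, mul_one]

/-- Two nonadjacent vertices `a`, `b`: all Betti numbers grow slower than the order of the
group. Take `P = DihedralGroup (2 ^ k) × (V → Multiplicative (ZMod 2))` with
`g a = (sr 0, e a)`, `g b = (sr 1, e b)`, `g v = (1, e v)` for the other `v`, where `e v` is
`Pi.mulSingle v (ofAdd 1)`; the bits are given by the second factor (relations: the `e v` commute,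
`a`, `b` are not adjacent). The order of `P` is `2 ^ (k + 1 + |V|)` and the Betti numbers in degrees
`0` and `1` are at most `2 ^ |V|`: a cycle of degree one is a pair `(f a, f b)`, with `f a + f b = 0`
(value at `∅`), `f a` invariant under `g a` and `f b` under `g b`, so `f a = f b` is invariant under
the rotation `g a * g b` of order `2 ^ k` and determined by its values on representatives of the
`2 ^ |V|`-ish orbits (the second coordinate together with two classes of the first; a bound like
`2 ^ (|V| + 1)` is fine too). In degree zero: `BK = ` functions at `∅` of the form `f a + f b`; a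
dimension count gives `b₀ = |P| - (dim (inv a) + dim (inv b) - dim (inv a ⊓ inv b)) = b₁` as
`dim (inv a) = |P| / 2` (or show directly that functions modulo invariant ones are spanned by few
elements: modulo boundaries `δ_p = δ_{p g a} = δ_{p g b}`, so `δ_p` depends only on the orbit of `p`
under `g a`, `g b`). In degrees `≥ 2` there are no cliques in `{a, b}`. -/
theorem dens_two_points (a b : V) (hab : a ≠ b) (h : ¬ G.Adj a b) (i : ℕ) :
    Dens G (insert a {b}) i := by
  classical
  intro m
  have : NeZero (2 ^ m) := ⟨by positivity⟩
  refine ⟨DihedralGroup (2 ^ m) × (V → Multiplicative (ZMod 2)), inferInstance, inferInstance,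
    twoGen m a b hab h, ?_, ?_⟩
  · refine IsPGroup.of_card (n := 1 + m + Fintype.card V) ?_
    rw [Nat.card_prod, DihedralGroup.nat_card, Nat.card_pi]
    have h1 : Nat.card (Multiplicative (ZMod 2)) = 2 := by
      rw [Nat.card_eq_fintype_card]; rfl
    simp only [h1, Finset.prod_const, Finset.card_univ]
    ring
  · have h1 := bet_two (twoGen m a b hab h) hab h i
    have h2 := Subgroup.card_eq_card_quotient_mul_card_subgroup
      (Subgroup.closure {(twoGen m a b hab h).g a, (twoGen m a b hab h).g b})
    rw [← Nat.card_eq_fintype_card, h2, mul_comm]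
    refine Nat.mul_le_mul h1 ?_
    have h3 : (twoGen m a b hab h).g a * (twoGen m a b hab h).g b ∈
        Subgroup.closure {(twoGen m a b hab h).g a, (twoGen m a b hab h).g b} :=
      Subgroup.mul_mem _ (Subgroup.subset_closure (by simp)) (Subgroup.subset_closure (by simp))
    have h4 : orderOf ((twoGen m a b hab h).g a * (twoGen m a b hab h).g b) ≤
        Nat.card (Subgroup.closure {(twoGen m a b hab h).g a, (twoGen m a b hab h).g b}) := by
      have h5 := orderOf_le_card (x := (⟨_, h3⟩ :
        Subgroup.closure {(twoGen m a b hab h).g a, (twoGen m a b hab h).g b}))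
      rwa [Subgroup.orderOf_mk] at h5
    refine le_trans ?_ h4
    have h6 : ((twoGen m a b hab h).g a * (twoGen m a b hab h).g b).1 =
        DihedralGroup.r 1 := by
      simp [twoGen, hab.symm]
    have h7 : 2 ^ m ∣ orderOf ((twoGen m a b hab h).g a * (twoGen m a b hab h).g b) := by
      have h8 := orderOf_map_dvd (MonoidHom.fst (DihedralGroup (2 ^ m))
        (V → Multiplicative (ZMod 2))) ((twoGen m a b hab h).g a * (twoGen m a b hab h).g b)
      rw [MonoidHom.coe_fst, h6, DihedralGroup.orderOf_r_one] at h8
      exact h8
    have h9 : 0 < orderOf ((twoGen m a b hab h).g a * (twoGen m a b hab h).g b) :=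
      orderOf_pos _
    exact (Nat.lt_two_pow_self).le.trans (Nat.le_of_dvd h9 h7)

end Pool.Agent.H4.Singer3
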