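import Pool.Agent.H4.Singer3.SBasic

/-!
# Singer project, part three: adding a vertex
-/

set_option autoImplicit false
set_option linter.unusedSectionVars false

open Finset

namespace Pool.Agent.H4.Singer3

variable {V : Type} [DecidableEq V] [Fintype V] {G : SimpleGraph V} {Ω : Type}

private theorem svr_char (f : Finset V → Ω → ZMod 2) : f + f = 0 := by
  funext σ ω
  exact CharTwo.add_self_eq_zero _

private theorem svr_notMem_nbr {U : Finset V} {v : V} (hv : v ∉ U) (σ : Finset V)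
    (h : KU G (nbr G U v) σ) : v ∉ σ := fun h1 => hv (mem_nbr.1 (h.1 h1)).1

private theorem svr_nbr_to (U : Finset V) (v : V) (σ : Finset V)
    (h : KU G (nbr G U v) σ) : KU G U σ := ⟨fun _ hx => (mem_nbr.1 (h.1 hx)).1, h.2⟩

private theorem svr_lk_mem (X : Act G Ω) (U : Finset V) (v : V) {i : ℕ}
    {f : Finset V → Ω → ZMod 2} (hf : f ∈ CK X (KU G (insert v U)) (i + 1)) :
    lk v f ∈ CK X (KU G (nbr G U v)) i := by
  refine ⟨fun τ ω hne => ?_, fun τ w hw ω => ?_⟩
  · rw [lk_apply] at hne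
    split_ifs at hne with h
    · exact absurd rfl hne
    · obtain ⟨⟨h1, h2⟩, h3⟩ := hf.1 _ _ hne
      rw [Finset.card_insert_of_notMem h] at h3
      refine ⟨⟨fun x hx => ?_, h2.subset (by exact_mod_cast subset_insert _ _)⟩, by omega⟩
      have hxv : v ≠ x := fun h4 => h (by rw [h4]; exact hx)
      rw [mem_nbr]
      refine ⟨?_, h2 (by simp) (by simp [hx]) hxv⟩
      have := h1 (mem_insert_of_mem hx)
      rw [mem_insert] at this
      exact this.resolve_left fun h4 => hxv h4.symm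
  · rw [lk_apply, lk_apply]
    split_ifs with h
    · rfl
    · exact hf.2 _ w (mem_insert_of_mem hw) ω

private theorem svr_sh_lk (X : Act G Ω) {𝒦 : Finset V → Prop} (v : V) {i : ℕ}
    {f : Finset V → Ω → ZMod 2} (hf : f ∈ CK X 𝒦 i) :
    sh X v (lk v f) = lk v f := by
  funext τ ω
  rw [sh_apply, lk_apply, lk_apply]
  split_ifs with h
  · rfl
  · exact hf.2 _ v (mem_insert_self _ _) ω

private theorem svr_hf_hf (X : Act G Ω) (v : V) (f : Finset V → Ω → ZMod 2) :
    hf X v (hf X v f) = hf X v f := by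
  funext τ ω
  simp only [hf_apply]
  split_ifs <;> rfl

private theorem svr_dl_mem (X : Act G Ω) (U : Finset V) (v : V) {i : ℕ}
    {f : Finset V → Ω → ZMod 2} (hf : f ∈ CK X (KU G (insert v U)) i) :
    dl v f ∈ CK X (KU G U) i := by
  refine ⟨fun σ ω hne => ?_, fun σ w hw ω => ?_⟩
  · rw [dl_apply] at hne
    split_ifs at hne with h
    · exact absurd rfl hne
    · obtain ⟨⟨h1, h2⟩, h3⟩ := hf.1 _ _ hne
      refine ⟨⟨fun x hx => ?_, h2⟩, h3⟩
      have := h1 hx
      rw [mem_insert] at this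
      exact this.resolve_left fun h4 => h (by rw [← h4]; exact hx)
  · rw [dl_apply, dl_apply]
    split_ifs with h
    · rfl
    · exact hf.2 _ w hw ω

private theorem svr_dl_eq (X : Act G Ω) {𝒦 : Finset V → Prop} (v : V) {i : ℕ}
    (h𝒦 : ∀ σ, 𝒦 σ → v ∉ σ)
    {f : Finset V → Ω → ZMod 2} (hf : f ∈ CK X 𝒦 i) : dl v f = f := by
  funext σ ω
  rw [dl_apply]
  split_ifs with h
  · by_contra hne
    exact h𝒦 σ (hf.1 σ ω fun h0 => hne h0.symm).1 h
  · rfl

private theorem svr_cn_mem (X : Act G Ω) (U : Finset V) (v : V) {i : ℕ}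
    {f : Finset V → Ω → ZMod 2} (hf : f ∈ CK X (KU G (nbr G U v)) i) (hs : sh X v f = f) :
    cn v f ∈ CK X (KU G (insert v U)) (i + 1) := by
  refine ⟨fun σ ω hne => ?_, fun σ w hw ω => ?_⟩
  · rw [cn_apply] at hne
    split_ifs at hne with h
    · obtain ⟨⟨h1, h2⟩, h3⟩ := hf.1 _ _ hne
      have hins : insert v (σ.erase v) = σ := Finset.insert_erase h
      have hc : σ.card = i + 1 := by
        rw [← hins, Finset.card_insert_of_notMem (by simp), h3]
      refine ⟨⟨?_, ?_⟩, hc⟩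
      · rw [← hins]
        apply Finset.insert_subset_insert
        exact fun x hx => (mem_nbr.1 (h1 hx)).1
      · rw [← hins, Finset.coe_insert]
        apply h2.insert
        intro b hb _
        exact (mem_nbr.1 (h1 hb)).2
    · exact absurd rfl hne
  · rw [cn_apply, cn_apply]
    split_ifs with h
    · by_cases hwv : w = v
      · subst hwv
        exact congrFun (congrFun hs (σ.erase w)) ω
      · exact hf.2 _ w (mem_erase.2 ⟨hwv, hw⟩) ω
    · rfl

/-- Adding the vertex `v` to `U`. Use `hdim_le` with `ψ = hf X v ∘ lk v` and `φ = id`.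
`ψ` maps cycles to cycles of `KU G (nbr G U v)` (`lk_bd`, `bd_hf`, `hf_mem_CK`; the values of
`lk v z` at `τ` are invariant under `v`), and boundaries to boundaries. If `ψ z = bd y` with `y` a
chain of degree `i + 1` on `nbr G U v`, put `y' = hf X v y + sh X v (hf X v y)`; then `y'` is
invariant under `v`, `bd (hf X v y) = hf X v (bd y) = ψ z` (`hf` is idempotent), so
`bd y' = lk v z` (`hf_add_sh_hf`, as `lk v z` is invariant under `v`). So `c = cn v y'` is a chain of
degree `i + 2` on `insert v U` and `bd c = y' + cn v (lk v z)` (`bd_cn`), and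
`z' = z + bd c = dl v z + y'` (`dl_add_cn_lk`) is a cycle on `U`. -/
theorem bet_insert_le [Fintype Ω] (X : Act G Ω) (U : Finset V) (v : V) (hv : v ∉ U) (i : ℕ) :
    bet X (KU G (insert v U)) (i + 1) ≤ bet X (KU G U) (i + 1) + bet X (KU G (nbr G U v)) i := by
  refine hdim_le (ZK X (KU G (insert v U)) (i + 1)) (BK X (KU G (insert v U)) (i + 1))
    (ZK X (KU G U) (i + 1)) (BK X (KU G U) (i + 1)) (ZK X (KU G (nbr G U v)) i)
    (BK X (KU G (nbr G U v)) i) (BK_le_ZK X (KU_down' G _) _) (BK_le_ZK X (KU_down' G _) _)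
    (BK_le_ZK X (KU_down' G _) _) ((hf X v).comp (lk v)) LinearMap.id ?_ ?_ ?_ ?_
  · rintro z ⟨hz1, hz2⟩
    have hz2' : bd z = 0 := hz2
    refine ⟨hf_mem_CK X v (svr_notMem_nbr hv) (svr_lk_mem X U v hz1), ?_⟩
    change bd (hf X v (lk v z)) = 0
    rw [bd_hf, ← lk_bd, hz2', map_zero, map_zero]
  · rintro _ ⟨y, hy, rfl⟩
    refine ⟨hf X v (lk v y), hf_mem_CK X v (svr_notMem_nbr hv) (svr_lk_mem X U v hy), ?_⟩
    change bd (hf X v (lk v y)) = hf X v (lk v (bd y))
    rw [bd_hf, ← lk_bd]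
  · rintro z ⟨hz1, hz2⟩ ⟨y, hy, hyz⟩
    have hz2' : bd z = 0 := hz2
    have hyz' : bd y = hf X v (lk v z) := hyz
    have hy1 : hf X v y ∈ CK X (KU G (nbr G U v)) (i + 1) :=
      hf_mem_CK X v (svr_notMem_nbr hv) hy
    have hsy : sh X v (hf X v y) ∈ CK X (KU G (nbr G U v)) (i + 1) :=
      sh_mem_CK X v (fun σ hσ x hx => Or.inr (mem_nbr.1 (hσ.1 hx)).2) hy1
    obtain ⟨y', hy'⟩ : ∃ y', y' = hf X v y + sh X v (hf X v y) := ⟨_, rfl⟩
    have hy'm : y' ∈ CK X (KU G (nbr G U v)) (i + 1) := by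
      rw [hy']; exact Submodule.add_mem _ hy1 hsy
    have hy's : sh X v y' = y' := by rw [hy']; exact sh_add_sh X v _
    have hbd : bd y' = lk v z := by
      rw [hy', map_add, bd_sh, bd_hf, hyz', svr_hf_hf, hf_add_sh_hf X v _ (svr_sh_lk X v hz1)]
    refine ⟨dl v z + y', ⟨Submodule.add_mem _ (svr_dl_mem X U v hz1)
      (CK_mono X (svr_nbr_to U v) _ hy'm), ?_⟩, ?_⟩
    · change bd (dl v z + y') = 0
      rw [map_add, hbd, ← dl_bd, hz2', map_zero]
    · refine ⟨cn v y', svr_cn_mem X U v hy'm hy's, ?_⟩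
      rw [bd_cn v y' (svr_dl_eq X v (svr_notMem_nbr hv) hy'm), hbd]
      change y' + cn v (lk v z) = dl v z + y' - z
      have h1 := dl_add_cn_lk v z
      have h2 := svr_char (cn v (lk v z))
      calc y' + cn v (lk v z) = dl v z + y' - (dl v z + cn v (lk v z)) +
            (cn v (lk v z) + cn v (lk v z)) := by abel
        _ = dl v z + y' - z := by rw [h1, h2, add_zero]
  · rintro _ ⟨y, hy, rfl⟩
    exact ⟨y, CK_mono X (fun σ hσ => ⟨hσ.1.trans (subset_insert _ _), hσ.2⟩) _ hy, rfl⟩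

/-- In degree zero the Betti number decreases if vertices are added: `hdim_le_of_surj` with
`φ = id`: the cycles of degree `0` are the functions supported on the empty set, for both `U` and
`W`, and there are more boundaries for `W`. -/
theorem bet_zero_mono [Fintype Ω] (X : Act G Ω) (U W : Finset V) (h : U ⊆ W) :
    bet X (KU G W) 0 ≤ bet X (KU G U) 0 := by
  refine hdim_le_of_surj (ZK X (KU G W) 0) (BK X (KU G W) 0) (ZK X (KU G U) 0)
    (BK X (KU G U) 0) (BK_le_ZK X (KU_down' G _) _) (BK_le_ZK X (KU_down' G _) _)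
    LinearMap.id ?_ ?_
  · rintro z ⟨hz1, hz2⟩
    refine ⟨z, ⟨⟨fun σ ω hne => ?_, hz1.2⟩, hz2⟩, ?_⟩
    · obtain ⟨⟨h1, h2⟩, h3⟩ := hz1.1 _ _ hne
      have h4 : σ = ∅ := Finset.card_eq_zero.1 h3
      subst h4
      exact ⟨⟨empty_subset _, h2⟩, h3⟩
    · simp
  · rintro _ ⟨y, hy, rfl⟩
    exact ⟨y, CK_mono X (fun σ hσ => ⟨hσ.1.trans h, hσ.2⟩) _ hy, rfl⟩

end Pool.Agent.H4.Singer3
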