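import Pool.Agent.H4.Singer3.SProd
import Pool.Agent.H4.Singer3.SVR
import Pool.Agent.H4.Singer3.SCone
import Pool.Agent.H4.Singer3.SMV
import Pool.Agent.H4.Singer3.SDel
import Pool.Agent.H4.Singer3.STwo
import Pool.Agent.H4.Singer3.SCon

/-!
# Singer project, part three: vanishing growth
-/

set_option autoImplicit false
set_option linter.unusedSectionVars false

open Finset

namespace Pool.Agent.H4.Singer3

variable {V : Type} [DecidableEq V] [Fintype V]

/-- three vanishing conditions can be realised by one group -/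
theorem dens_common {H : SimpleGraph V} {U₁ U₂ U₃ : Finset V} {i₁ i₂ i₃ : ℕ}
    (h₁ : Dens H U₁ i₁) (h₂ : Dens H U₂ i₂) (h₃ : Dens H U₃ i₃) (m : ℕ) :
    ∃ (P : Type) (_ : Group P) (_ : Fintype P) (D : Gen H P), IsPGroup 2 P ∧
      m * bet D.act (KU H U₁) i₁ ≤ Fintype.card P ∧
      m * bet D.act (KU H U₂) i₂ ≤ Fintype.card P ∧
      m * bet D.act (KU H U₃) i₃ ≤ Fintype.card P := by
  obtain ⟨P₁, _, _, D₁, hp₁, hb₁⟩ := h₁ m
  obtain ⟨P₂, _, _, D₂, hp₂, hb₂⟩ := h₂ m
  obtain ⟨P₃, _, _, D₃, hp₃, hb₃⟩ := h₃ m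
  have hprod : ∀ {A B : Type} [Group A] [Group B], IsPGroup 2 A → IsPGroup 2 B →
      IsPGroup 2 (A × B) := by
    intro A B _ _ hA hB
    rintro ⟨a, b⟩
    obtain ⟨k1, hk1⟩ := hA a
    obtain ⟨k2, hk2⟩ := hB b
    refine ⟨k1 + k2, ?_⟩
    rw [Prod.pow_mk, pow_add, pow_mul, hk1, one_pow, mul_comm, pow_mul, hk2, one_pow]
    rfl
  have hp : IsPGroup 2 (P₁ × P₂) := hprod hp₁ hp₂
  refine ⟨(P₁ × P₂) × P₃, inferInstance, inferInstance, (D₁.prod D₂).prod D₃, hprod hp hp₃,
    ?_, ?_, ?_⟩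
  · have h1 := bet_prod_left hp₃ (D₁.prod D₂) D₃ U₁ i₁
    have h2 := bet_prod_left hp₂ D₁ D₂ U₁ i₁
    rw [Fintype.card_prod, Fintype.card_prod]
    calc m * bet ((D₁.prod D₂).prod D₃).act (KU H U₁) i₁
        ≤ m * (Fintype.card P₃ * (Fintype.card P₂ * bet D₁.act (KU H U₁) i₁)) :=
          Nat.mul_le_mul_left _ (h1.trans (Nat.mul_le_mul_left _ h2))
      _ = (m * bet D₁.act (KU H U₁) i₁) * Fintype.card P₂ * Fintype.card P₃ := by ring
      _ ≤ Fintype.card P₁ * Fintype.card P₂ * Fintype.card P₃ :=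
          Nat.mul_le_mul_right _ (Nat.mul_le_mul_right _ hb₁)
  · have h1 := bet_prod_left hp₃ (D₁.prod D₂) D₃ U₂ i₂
    have h2 := bet_prod_right hp₁ D₁ D₂ U₂ i₂
    rw [Fintype.card_prod, Fintype.card_prod]
    calc m * bet ((D₁.prod D₂).prod D₃).act (KU H U₂) i₂
        ≤ m * (Fintype.card P₃ * (Fintype.card P₁ * bet D₂.act (KU H U₂) i₂)) :=
          Nat.mul_le_mul_left _ (h1.trans (Nat.mul_le_mul_left _ h2))
      _ = Fintype.card P₁ * (m * bet D₂.act (KU H U₂) i₂) * Fintype.card P₃ := by ring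
      _ ≤ Fintype.card P₁ * Fintype.card P₂ * Fintype.card P₃ :=
          Nat.mul_le_mul_right _ (Nat.mul_le_mul_left _ hb₂)
  · have h1 := bet_prod_right hp (D₁.prod D₂) D₃ U₃ i₃
    rw [Fintype.card_prod (P₁ × P₂)]
    calc m * bet ((D₁.prod D₂).prod D₃).act (KU H U₃) i₃
        ≤ m * (Fintype.card (P₁ × P₂) * bet D₃.act (KU H U₃) i₃) :=
          Nat.mul_le_mul_left _ h1
      _ = Fintype.card (P₁ × P₂) * (m * bet D₃.act (KU H U₃) i₃) := by ring
      _ ≤ Fintype.card (P₁ × P₂) * Fintype.card P₃ := Nat.mul_le_mul_left _ hb₃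

/-- transfer principle -/
theorem dens_of_bound {G H : SimpleGraph V} {U U₁ U₂ U₃ : Finset V} {i i₁ i₂ i₃ : ℕ} (c : ℕ)
    (h₁ : Dens H U₁ i₁) (h₂ : Dens H U₂ i₂) (h₃ : Dens H U₃ i₃)
    (hb : ∀ (P : Type) (_ : Group P) (_ : Fintype P) (D : Gen H P), IsPGroup 2 P →
      ∃ (P' : Type) (_ : Group P') (_ : Fintype P') (D' : Gen G P'), IsPGroup 2 P' ∧
        Fintype.card P ≤ Fintype.card P' ∧
        bet D'.act (KU G U) i ≤ c * (bet D.act (KU H U₁) i₁ + bet D.act (KU H U₂) i₂ +
          bet D.act (KU H U₃) i₃)) : Dens G U i := by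
  intro m
  obtain ⟨P, _, _, D, hP, h1, h2, h3⟩ := dens_common h₁ h₂ h₃ (3 * m * c)
  obtain ⟨P', _, _, D', hP', hc, hb'⟩ := hb P inferInstance inferInstance D hP
  refine ⟨P', inferInstance, inferInstance, D', hP', ?_⟩
  have h4 : 3 * (m * bet D'.act (KU G U) i) ≤ 3 * Fintype.card P := by
    calc 3 * (m * bet D'.act (KU G U) i)
        ≤ 3 * (m * (c * (bet D.act (KU H U₁) i₁ + bet D.act (KU H U₂) i₂ +
          bet D.act (KU H U₃) i₃))) := Nat.mul_le_mul_left _ (Nat.mul_le_mul_left _ hb')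
      _ = 3 * m * c * bet D.act (KU H U₁) i₁ + 3 * m * c * bet D.act (KU H U₂) i₂ +
          3 * m * c * bet D.act (KU H U₃) i₃ := by ring
      _ ≤ 3 * Fintype.card P := by omega
  omega

/-- the generators for a graph with fewer edges -/
def Gen.mono {G H : SimpleGraph V} {P : Type} [Group P] (D : Gen G P) (h : H ≤ G) : Gen H P where
  g := D.g
  sq := D.sq
  comm u v huv := D.comm u v (h huv)
  bit := D.bit
  bit_mul := D.bit_mul

theorem Gen.mono_act {G H : SimpleGraph V} {P : Type} [Group P] (D : Gen G P) (h : H ≤ G) :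
    (D.mono h).act = D.act.mono h := rfl

theorem dens_insert {G : SimpleGraph V} {U : Finset V} {v : V} {i : ℕ} (hv : v ∉ U)
    (h1 : Dens G U (i + 1)) (h2 : Dens G (nbr G U v) i) : Dens G (insert v U) (i + 1) := by
  refine dens_of_bound 1 h1 h2 h2 fun P _ _ D hP => ⟨P, _, _, D, hP, le_rfl, ?_⟩
  have := bet_insert_le D.act U v hv i
  omega

theorem dens_zero_mono {G : SimpleGraph V} {U W : Finset V} (h : U ⊆ W) (h1 : Dens G U 0) :
    Dens G W 0 := by
  refine dens_of_bound 1 h1 h1 h1 fun P _ _ D hP => ⟨P, _, _, D, hP, le_rfl, ?_⟩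
  have := bet_zero_mono D.act U W h
  omega

theorem dens_cone {G : SimpleGraph V} {U : Finset V} {v : V} {i : ℕ} (hv : v ∉ U)
    (h : ∀ x ∈ U, G.Adj v x) (h1 : Dens G U i) : Dens G (insert v U) i := by
  refine dens_of_bound 1 h1 h1 h1 fun P _ _ D hP => ⟨P, _, _, D, hP, le_rfl, ?_⟩
  have := bet_cone_le D.act U v hv h i
  omega

theorem dens_union {G : SimpleGraph V} {U W : Finset V} {i : ℕ}
    (hno : ∀ x ∈ U, x ∉ W → ∀ y ∈ W, y ∉ U → ¬ G.Adj x y) (h1 : Dens G U (i + 1))
    (h2 : Dens G W (i + 1)) (h3 : Dens G (U ∩ W) i) : Dens G (U ∪ W) (i + 1) := by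
  refine dens_of_bound 1 h1 h2 h3 fun P _ _ D hP => ⟨P, _, _, D, hP, le_rfl, ?_⟩
  have := bet_union_le D.act U W hno i
  omega

theorem dens_delete {G : SimpleGraph V} {U : Finset V} {a b : V} {i : ℕ} (ha : a ∈ U) (hb : b ∈ U)
    (hab : G.Adj a b) (H : SimpleGraph V)
    (hadj : ∀ x y, H.Adj x y ↔ G.Adj x y ∧ ¬ (x = a ∧ y = b) ∧ ¬ (x = b ∧ y = a))
    (h1 : Dens G U (i + 1)) (h2 : Dens G (nbr G (nbr G U a) b) i) : Dens H U (i + 1) := by
  have hH : H ≤ G := fun x y h => ((hadj x y).1 h).1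
  refine dens_of_bound 1 h1 h2 h2 fun P _ _ D hP => ⟨P, _, _, D.mono hH, hP, le_rfl, ?_⟩
  have := bet_delete_le D.act U a b ha hb hab H hH hadj i
  rw [Gen.mono_act]
  omega

theorem dens_mono_zero {G H : SimpleGraph V} {U : Finset V} (hH : H ≤ G) (h1 : Dens G U 0) :
    Dens H U 0 := by
  refine dens_of_bound 1 h1 h1 h1 fun P _ _ D hP => ⟨P, _, _, D.mono hH, hP, le_rfl, ?_⟩
  have := bet_mono_zero D.act U H hH
  rw [Gen.mono_act]
  omega

theorem dens_mono_eq {G H : SimpleGraph V} {U : Finset V} {i : ℕ} (hH : H ≤ G)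
    (h : ∀ x ∈ U, ∀ y ∈ U, G.Adj x y → H.Adj x y) (h1 : Dens G U i) : Dens H U i := by
  refine dens_of_bound 1 h1 h1 h1 fun P _ _ D hP => ⟨P, _, _, D.mono hH, hP, le_rfl, ?_⟩
  have := bet_mono_eq D.act U H hH h i
  rw [Gen.mono_act]
  omega

theorem dens_contr {G : SimpleGraph V} {U : Finset V} {u w : V} {i : ℕ} (huw : G.Adj u w)
    (hu : u ∈ U) (hw : w ∈ U) (hsq : NoSquare G U u w)
    (h1 : Dens (contr G u w) (U.erase u) (i + 1)) (h2 : Dens (contr G u w) (BB G U u w) (i + 1))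
    (h3 : Dens (contr G u w) (ZZ G U u w) i) : Dens G U (i + 1) := by
  refine dens_of_bound 4 h1 h2 h3 fun P gP fP D hP =>
    ⟨P × Multiplicative (ZMod 2), inferInstance, inferInstance, contrGen huw D, ?_, ?_, ?_⟩
  · rintro ⟨a, b⟩
    obtain ⟨k, hk⟩ := hP a
    refine ⟨k + 1, ?_⟩
    rw [Prod.pow_mk, pow_succ, pow_mul, hk, one_pow, mul_comm, pow_mul]
    have hb : b ^ 2 = 1 := by revert b; decide
    rw [hb, one_pow]
    rfl
  · rw [Fintype.card_prod]
    exact Nat.le_mul_of_pos_right _ Fintype.card_pos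
  · have := bet_contr_le huw hu hw hsq D i
    omega

/-- suspensions -/
theorem dens_susp {G : SimpleGraph V} {a b : V} (hab : a ≠ b) (hn : ¬ G.Adj a b) :
    ∀ (k : ℕ) (U : Finset V), U.card = k → a ∉ U → b ∉ U → (∀ x ∈ U, G.Adj a x ∧ G.Adj b x) →
      ∀ i, Dens G (insert a (insert b U)) i := by
  intro k
  induction k using Nat.strong_induction_on with
  | _ k ih =>
    intro U hU ha hb hadj i
    rcases U.eq_empty_or_nonempty with rfl | ⟨v, hv⟩
    · exact dens_two_points a b hab hn i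
    · rcases i with _ | i
      · exact dens_zero_mono (by
          intro x hx
          simp only [mem_insert, mem_singleton] at hx ⊢
          tauto) (dens_two_points a b hab hn 0)
      · have hva : v ≠ a := fun h => ha (h ▸ hv)
        have hvb : v ≠ b := fun h => hb (h ▸ hv)
        have h1 : insert a (insert b U) = insert v (insert a (insert b (U.erase v))) := by
          ext x
          simp only [mem_insert, mem_erase]
          by_cases hx : x = v
          · subst hx; simp [hv]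
          · simp [hx]
        have hlt : (U.erase v).card < k := by
          rw [← hU]
          exact Finset.card_lt_card (Finset.erase_ssubset hv)
        have h2 : nbr G (insert a (insert b (U.erase v))) v =
            insert a (insert b (nbr G (U.erase v) v)) := by
          ext x
          simp only [mem_nbr, mem_insert]
          constructor
          · rintro ⟨h | h | h, h'⟩
            · exact Or.inl h
            · exact Or.inr (Or.inl h)
            · exact Or.inr (Or.inr ⟨h, h'⟩)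
          · rintro (h | h | ⟨h, h'⟩)
            · exact ⟨Or.inl h, h ▸ (hadj v hv).1.symm⟩
            · exact ⟨Or.inr (Or.inl h), h ▸ (hadj v hv).2.symm⟩
            · exact ⟨Or.inr (Or.inr h), h'⟩
        have h3 : (nbr G (U.erase v) v).card < k := by
          refine lt_of_le_of_lt (Finset.card_le_card ?_) hlt
          intro x hx
          exact (mem_nbr.1 hx).1
        rw [h1]
        refine dens_insert ?_ ?_ ?_
        · simp [hva, hvb]
        · exact ih _ hlt (U.erase v) rfl (fun h => ha (mem_of_mem_erase h))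
            (fun h => hb (mem_of_mem_erase h)) (fun x hx => hadj x (mem_of_mem_erase hx)) _
        · rw [h2]
          exact ih _ h3 (nbr G (U.erase v) v) rfl
            (fun h => ha (mem_of_mem_erase (mem_nbr.1 h).1))
            (fun h => hb (mem_of_mem_erase (mem_nbr.1 h).1))
            (fun x hx => hadj x (mem_of_mem_erase (mem_nbr.1 hx).1)) _

end Pool.Agent.H4.Singer3
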