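import Pool.Agent.H4.Singer3.SSplit
import Pool.Agent.H4.Singer3.SFinL2

/-!
# Singer project, part three: the main theorem
-/

set_option autoImplicit false
set_option linter.unusedSectionVars false

open Finset

namespace Pool.Agent.H4.Singer3

open Pool.Agent.H4.Singer

variable {V : Type} [DecidableEq V] [Fintype V]

theorem good_of_tame {n : ℕ} {G : SimpleGraph V} {U : Finset V} (h : Tame n G U) :
    Good n G U := by
  induction h with
  | empty G => exact good_empty G
  | level _ ih => exact good_level ih
  | mono _ hW hH ih => exact good_mono_local ih hW hH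
  | cone _ hv hadj ih => exact good_cone ih hv hadj
  | susp _ ha hb hab hn h1 h2 ih => exact good_susp ih ha hb hab hn h1 h2
  | glue _ _ _ hno ih1 ih2 ih3 => exact good_glue ih1 ih2 ih3 hno
  | even he _ ih => exact good_even he ih
  | split hu hw huw hsq _ _ _ ih1 ih2 ih3 => exact good_split hu hw huw hsq ih1 ih2 ih3

/-- the main theorem -/
theorem l2_tame {n : ℕ} {G : SimpleGraph V} (h : Tame n G univ) {i : ℕ} (hi : n < 2 * i) :
    L2HomologyZero G i := by
  refine l2_of_dens G i (good_of_tame h ∅ univ i (Finset.empty_subset _) (by simp)
    (Finset.Subset.refl _) (by simp) ?_)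
  rw [Finset.card_empty, add_zero]
  exact hi

end Pool.Agent.H4.Singer3
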