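import Pool.Agent.H4.Singer3.SBasic

/-!
# Singer project, part three: renaming the vertices
-/

set_option autoImplicit false
set_option linter.unusedSectionVars false

open Finset

namespace Pool.Agent.H4.Singer3

variable {V : Type} [DecidableEq V] [Fintype V]

/-- the renamed generators -/
def permGen (e : Equiv.Perm V) {H : SimpleGraph V} {P : Type} [Group P] (D : Gen H P) :
    Gen (H.comap e) P where
  g v := D.g (e v)
  sq v := D.sq (e v)
  comm u v h := D.comm (e u) (e v) h
  bit p v := D.bit p (e v)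
  bit_mul p v := by
    funext x
    rw [D.bit_mul]
    by_cases hx : x = v
    · subst hx
      rw [Function.update_self, Function.update_self]
    · rw [Function.update_of_ne hx, Function.update_of_ne (fun h => hx (e.injective h))]

/-- the renaming of chains -/
def permMap (e : Equiv.Perm V) (P : Type) :
    (Finset V → P → ZMod 2) ≃ₗ[ZMod 2] (Finset V → P → ZMod 2) :=
  LinearEquiv.funCongrLeft (ZMod 2) (P → ZMod 2) (Equiv.finsetCongr e)

theorem permMap_apply (e : Equiv.Perm V) {P : Type} (f : Finset V → P → ZMod 2) (σ : Finset V)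
    (p : P) : permMap e P f σ p = f (σ.map e.toEmbedding) p := rfl

theorem map_map_symm (e : Equiv.Perm V) (σ : Finset V) :
    (σ.map e.symm.toEmbedding).map e.toEmbedding = σ := by
  ext x
  simp only [mem_map, Equiv.coe_toEmbedding]
  constructor
  · rintro ⟨a, ⟨b, hb, rfl⟩, rfl⟩
    rwa [Equiv.apply_symm_apply]
  · exact fun h => ⟨e.symm x, ⟨x, h, rfl⟩, e.apply_symm_apply x⟩

theorem compl_map_perm (e : Equiv.Perm V) (τ : Finset V) :
    (τ.map e.toEmbedding)ᶜ = τᶜ.map e.toEmbedding := by
  ext x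
  simp only [mem_map, mem_compl, Equiv.coe_toEmbedding]
  constructor
  · intro h
    exact ⟨e.symm x, fun h1 => h ⟨e.symm x, h1, e.apply_symm_apply x⟩, e.apply_symm_apply x⟩
  · rintro ⟨a, ha, rfl⟩ ⟨b, hb, hab⟩
    exact ha (e.injective hab ▸ hb)

theorem permMap_bd (e : Equiv.Perm V) {P : Type} (f : Finset V → P → ZMod 2) :
    bd (permMap e P f) = permMap e P (bd f) := by
  funext τ p
  rw [permMap_apply, bd_apply, bd_apply, compl_map_perm, Finset.sum_map]
  refine Finset.sum_congr rfl fun v _ => ?_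
  rw [permMap_apply, Finset.map_insert]

theorem KU_perm (e : Equiv.Perm V) (H : SimpleGraph V) (W σ : Finset V) :
    KU (H.comap e) (W.map e.symm.toEmbedding) σ ↔ KU H W (σ.map e.toEmbedding) := by
  unfold KU
  refine and_congr ⟨fun h x hx => ?_, fun h x hx => ?_⟩ ⟨fun h a ha b hb hab => ?_,
    fun h a ha b hb hab => ?_⟩
  · simp only [mem_map, Equiv.coe_toEmbedding] at hx
    obtain ⟨y, hy, rfl⟩ := hx
    have h1 := h hy
    simp only [mem_map, Equiv.coe_toEmbedding] at h1
    obtain ⟨z, hz, rfl⟩ := h1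
    rwa [Equiv.apply_symm_apply]
  · simp only [mem_map, Equiv.coe_toEmbedding]
    refine ⟨e x, h ?_, e.symm_apply_apply x⟩
    simp only [mem_map, Equiv.coe_toEmbedding]
    exact ⟨x, hx, rfl⟩
  · simp only [coe_map, Set.mem_image, Equiv.coe_toEmbedding] at ha hb
    obtain ⟨a, ha, rfl⟩ := ha
    obtain ⟨b, hb, rfl⟩ := hb
    exact h ha hb (fun h1 => hab (by rw [h1]))
  · have ha' : e a ∈ ((σ.map e.toEmbedding : Finset V) : Set V) := by
      simp only [coe_map, Set.mem_image, Equiv.coe_toEmbedding]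
      exact ⟨a, ha, rfl⟩
    have hb' : e b ∈ ((σ.map e.toEmbedding : Finset V) : Set V) := by
      simp only [coe_map, Set.mem_image, Equiv.coe_toEmbedding]
      exact ⟨b, hb, rfl⟩
    exact h ha' hb' (fun h1 => hab (e.injective h1))

theorem permMap_mem_CK (e : Equiv.Perm V) {H : SimpleGraph V} (W : Finset V) (i : ℕ) {P : Type}
    [Group P] (D : Gen H P) (f : Finset V → P → ZMod 2) :
    permMap e P f ∈ CK (permGen e D).act (KU (H.comap e) (W.map e.symm.toEmbedding)) i ↔
      f ∈ CK D.act (KU H W) i := by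
  rw [mem_CK, mem_CK]
  constructor
  · rintro ⟨h1, h2⟩
    refine ⟨fun σ p hne => ?_, fun σ v hv p => ?_⟩
    · have h3 := h1 (σ.map e.symm.toEmbedding) p (by rwa [permMap_apply, map_map_symm])
      rw [KU_perm, map_map_symm, card_map] at h3
      exact h3
    · have h3 := h2 (σ.map e.symm.toEmbedding) (e.symm v) (by
        simp only [mem_map, Equiv.coe_toEmbedding]
        exact ⟨v, hv, rfl⟩) p
      rw [permMap_apply, permMap_apply, map_map_symm] at h3
      have h4 : (permGen e D).act.s (e.symm v) p = D.act.s v p := by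
        change p * D.g (e (e.symm v)) = p * D.g v
        rw [Equiv.apply_symm_apply]
      rw [h4] at h3
      exact h3
  · rintro ⟨h1, h2⟩
    refine ⟨fun σ p hne => ?_, fun σ v hv p => ?_⟩
    · rw [permMap_apply] at hne
      have h3 := h1 _ p hne
      rw [card_map] at h3
      exact ⟨(KU_perm e H W σ).2 h3.1, h3.2⟩
    · rw [permMap_apply, permMap_apply]
      exact h2 _ (e v) (by
        simp only [mem_map, Equiv.coe_toEmbedding]
        exact ⟨v, hv, rfl⟩) p

theorem CK_perm (e : Equiv.Perm V) {H : SimpleGraph V} (W : Finset V) (i : ℕ) {P : Type}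
    [Group P] (D : Gen H P) :
    CK (permGen e D).act (KU (H.comap e) (W.map e.symm.toEmbedding)) i =
      (CK D.act (KU H W) i).map (permMap e P : (Finset V → P → ZMod 2) →ₗ[ZMod 2] _) := by
  ext f
  rw [Submodule.mem_map]
  constructor
  · intro hf
    refine ⟨(permMap e P).symm f, ?_, LinearEquiv.apply_symm_apply _ _⟩
    rw [← permMap_mem_CK e W i D, LinearEquiv.apply_symm_apply]
    exact hf
  · rintro ⟨g, hg, rfl⟩
    exact (permMap_mem_CK e W i D g).2 hg

theorem bet_perm (e : Equiv.Perm V) {H : SimpleGraph V} (W : Finset V) (i : ℕ) {P : Type}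
    [Group P] (D : Gen H P) :
    bet (permGen e D).act (KU (H.comap e) (W.map e.symm.toEmbedding)) i =
      bet D.act (KU H W) i := by
  have hB : BK (permGen e D).act (KU (H.comap e) (W.map e.symm.toEmbedding)) i =
      (BK D.act (KU H W) i).map (permMap e P : (Finset V → P → ZMod 2) →ₗ[ZMod 2] _) := by
    unfold BK
    rw [CK_perm]
    ext f
    simp only [Submodule.mem_map]
    constructor
    · rintro ⟨_, ⟨g, hg, rfl⟩, rfl⟩
      exact ⟨bd g, ⟨g, hg, rfl⟩, (permMap_bd e g).symm⟩
    · rintro ⟨_, ⟨g, hg, rfl⟩, rfl⟩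
      exact ⟨_, ⟨g, hg, rfl⟩, permMap_bd e g⟩
  have hZ : ZK (permGen e D).act (KU (H.comap e) (W.map e.symm.toEmbedding)) i =
      (ZK D.act (KU H W) i).map (permMap e P : (Finset V → P → ZMod 2) →ₗ[ZMod 2] _) := by
    ext f
    rw [mem_ZK, CK_perm]
    simp only [Submodule.mem_map, mem_ZK]
    constructor
    · rintro ⟨⟨g, hg, rfl⟩, h2⟩
      refine ⟨g, ⟨hg, ?_⟩, rfl⟩
      have h3 : permMap e P (bd g) = 0 := by rw [← permMap_bd]; exact h2
      exact (LinearEquiv.map_eq_zero_iff _).1 h3
    · rintro ⟨g, ⟨hg, h2⟩, rfl⟩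
      refine ⟨⟨g, hg, rfl⟩, ?_⟩
      change bd (permMap e P g) = 0
      rw [permMap_bd, h2, map_zero]
  unfold bet hdim
  rw [hB, hZ, LinearEquiv.finrank_map_eq, LinearEquiv.finrank_map_eq]

/-- Invariance under a permutation `e` of the vertices. For `D : Gen H P` use the generators
`v ↦ D.g (e v)` with bits `p v ↦ D.bit p (e v)`, and the linear equivalence of
`Finset V → P → ZMod 2` given by `f ↦ fun σ p => f (σ.map e.toEmbedding) p`, which maps `CK`, `ZK`,
`BK` of `KU H W` onto those of `KU (H.comap e) (W.map e.symm.toEmbedding)` and commutes with `bd`. -/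
theorem dens_perm (e : Equiv.Perm V) (H : SimpleGraph V) (W : Finset V) (i : ℕ)
    (h : Dens H W i) : Dens (H.comap e) (W.map e.symm.toEmbedding) i := by
  intro m
  obtain ⟨P, hG, hF, D, h2, h3⟩ := h m
  refine ⟨P, hG, hF, permGen e D, h2, ?_⟩
  rw [bet_perm]
  exact h3

end Pool.Agent.H4.Singer3
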