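import Pool.Agent.H4.Singer3.SDens
import Pool.Agent.H4.Singer3.SAgree
import Pool.Agent.H4.Singer3.SPerm

/-!
# Singer project, part three: the closure properties
-/

set_option autoImplicit false
set_option linter.unusedSectionVars false

open Finset

namespace Pool.Agent.H4.Singer3

variable {V : Type} [DecidableEq V] [Fintype V] {n : ℕ} {G H : SimpleGraph V} {U W : Finset V}

theorem isClique_insert' {σ : Finset V} {v : V} (h : G.IsClique (σ : Set V))
    (hv : ∀ s ∈ σ, G.Adj s v) : G.IsClique ((insert v σ : Finset V) : Set V) := by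
  intro x hx y hy hne
  rw [mem_coe, mem_insert] at hx hy
  rcases hx with rfl | hx
  · rcases hy with rfl | hy
    · exact absurd rfl hne
    · exact (hv y hy).symm
  · rcases hy with rfl | hy
    · exact hv x hx
    · exact h (by exact_mod_cast hx) (by exact_mod_cast hy) hne

theorem isClique_erase' {σ : Finset V} {v : V} (h : G.IsClique (σ : Set V)) :
    G.IsClique ((σ.erase v : Finset V) : Set V) :=
  h.subset (by exact_mod_cast Finset.erase_subset v σ)

theorem good_empty (G : SimpleGraph V) : Good 0 G ∅ := by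
  intro σ W i hσ _ hW _ hn
  rw [Finset.subset_empty] at hσ hW
  subst hσ hW
  rw [Finset.card_empty, add_zero] at hn
  obtain ⟨j, rfl⟩ : ∃ j, i = j + 1 := ⟨i - 1, by omega⟩
  exact dens_empty G j

theorem good_level (h : Good n G U) : Good (n + 1) G U :=
  fun σ W i hσ hc hW hadj hn => h σ W i hσ hc hW hadj (by omega)

theorem good_subset (h : Good n G U) (hWU : W ⊆ U) : Good n G W :=
  fun σ T i hσ hc hT hadj hn => h σ T i (hσ.trans hWU) hc (hT.trans hWU) hadj hn

theorem good_delete (h : Good n G U) {a b : V} (hab : G.Adj a b)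
    (hadj : ∀ x y, H.Adj x y ↔ G.Adj x y ∧ ¬ (x = a ∧ y = b) ∧ ¬ (x = b ∧ y = a)) :
    Good n H U := by
  have hH : H ≤ G := fun x y h => ((hadj x y).1 h).1
  intro σ W i hσ hc hW hs hn
  have hc' : G.IsClique (σ : Set V) := fun x hx y hy hne => hH (hc hx hy hne)
  have hs' : ∀ s ∈ σ, ∀ x ∈ W, G.Adj s x := fun s hs1 x hx => hH (hs s hs1 x hx)
  have h1 := h σ W i hσ hc' hW hs' hn
  by_cases hW2 : a ∈ W ∧ b ∈ W
  · rcases i with _ | i
    · exact dens_mono_zero hH h1
    · refine dens_delete hW2.1 hW2.2 hab H hadj h1 ?_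
      refine h (insert b (insert a σ)) _ i ?_ ?_ ?_ ?_ ?_
      · intro x hx
        rw [mem_insert, mem_insert] at hx
        rcases hx with rfl | rfl | hx
        · exact hW hW2.2
        · exact hW hW2.1
        · exact hσ hx
      · refine isClique_insert' (isClique_insert' hc' fun s hs1 => hs' s hs1 a hW2.1) ?_
        intro s hs1
        rw [mem_insert] at hs1
        rcases hs1 with rfl | hs1
        · exact hab
        · exact hs' s hs1 b hW2.2
      · intro x hx
        exact hW (mem_nbr.1 (mem_nbr.1 hx).1).1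
      · intro s hs1 x hx
        rw [mem_insert, mem_insert] at hs1
        have hx1 := mem_nbr.1 hx
        have hx2 := mem_nbr.1 hx1.1
        rcases hs1 with rfl | rfl | hs1
        · exact hx1.2
        · exact hx2.2
        · exact hs' s hs1 x hx2.1
      · have ha : a ∉ σ := fun ha => (hs' a ha a hW2.1).ne rfl
        have hb : b ∉ insert a σ := by
          rw [mem_insert, not_or]
          exact ⟨hab.ne.symm, fun hb => (hs' b hb b hW2.2).ne rfl⟩
        rw [Finset.card_insert_of_notMem hb, Finset.card_insert_of_notMem ha]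
        omega
  · refine dens_mono_eq hH (fun x hx y hy hxy => (hadj x y).2 ⟨hxy, ?_, ?_⟩) h1
    · rintro ⟨rfl, rfl⟩
      exact hW2 ⟨hx, hy⟩
    · rintro ⟨rfl, rfl⟩
      exact hW2 ⟨hy, hx⟩

theorem good_mono_aux (k : ℕ) : ∀ (G : SimpleGraph V), Good n G U → H ≤ G →
    {p : V × V | G.Adj p.1 p.2 ∧ ¬ H.Adj p.1 p.2}.ncard = k → Good n H U := by
  induction k using Nat.strong_induction_on with
  | _ k ih =>
    intro G hG hHG hk
    by_cases hne : ∃ a b, G.Adj a b ∧ ¬ H.Adj a b
    · obtain ⟨a, b, hab, hnab⟩ := hne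
      let K : SimpleGraph V :=
        { Adj := fun x y => G.Adj x y ∧ ¬ (x = a ∧ y = b) ∧ ¬ (x = b ∧ y = a)
          symm := ⟨by
            rintro x y ⟨h1, h2, h3⟩
            exact ⟨h1.symm, fun h => h3 ⟨h.2, h.1⟩, fun h => h2 ⟨h.2, h.1⟩⟩⟩
          loopless := ⟨fun x h => h.1.ne rfl⟩ }
      have hK : Good n K U := good_delete hG hab fun x y => Iff.rfl
      have hHK : H ≤ K := by
        intro x y hxy
        refine ⟨hHG hxy, ?_, ?_⟩
        · rintro ⟨rfl, rfl⟩
          exact hnab hxy
        · rintro ⟨rfl, rfl⟩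
          exact hnab hxy.symm
      refine ih _ ?_ K hK hHK rfl
      rw [← hk]
      refine Set.ncard_lt_ncard ?_ (Set.toFinite _)
      refine ⟨fun p hp => ⟨hp.1.1, hp.2⟩, fun hsub => ?_⟩
      have : ((a, b) : V × V) ∈ {p : V × V | K.Adj p.1 p.2 ∧ ¬ H.Adj p.1 p.2} :=
        hsub ⟨hab, hnab⟩
      exact this.1.2.1 ⟨rfl, rfl⟩
    · have : G = H := by
        refine le_antisymm (fun x y hxy => ?_) hHG
        by_contra hn
        exact hne ⟨x, y, hxy, hn⟩
      rw [← this]
      exact hG

theorem good_mono (h : Good n G U) (hH : H ≤ G) (hW : W ⊆ U) : Good n H W :=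
  good_subset (good_mono_aux _ G h hH rfl) hW

theorem good_agree (h : Good n G U) (hadj : ∀ x ∈ U, ∀ y ∈ U, (H.Adj x y ↔ G.Adj x y)) :
    Good n H U := by
  intro σ W i hσ hc hW hs hn
  refine dens_agree (fun x hx y hy => hadj x (hW hx) y (hW hy)) (h σ W i hσ ?_ hW ?_ hn)
  · intro x hx y hy hne
    exact (hadj x (hσ (by exact_mod_cast hx)) y (hσ (by exact_mod_cast hy))).1 (hc hx hy hne)
  · intro s hs1 x hx
    exact (hadj s (hσ hs1) x (hW hx)).1 (hs s hs1 x hx)

theorem good_mono_local (h : Good n G U) (hW : W ⊆ U)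
    (hH : ∀ x ∈ W, ∀ y ∈ W, H.Adj x y → G.Adj x y) : Good n H W := by
  let K : SimpleGraph V :=
    { Adj := fun x y => H.Adj x y ∧ x ∈ W ∧ y ∈ W
      symm := ⟨by
        rintro x y ⟨h1, h2, h3⟩
        exact ⟨h1.symm, h3, h2⟩⟩
      loopless := ⟨fun x h => h.1.ne rfl⟩ }
  have hK : K ≤ G := fun x y hxy => hH x hxy.2.1 y hxy.2.2 hxy.1
  refine good_agree (good_mono h hK hW) fun x hx y hy => ?_
  exact ⟨fun h => ⟨h, hx, hy⟩, fun h => h.1⟩

theorem good_cone {v : V} (h : Good n G U) (hv : v ∉ U) (hadj : ∀ x ∈ U, G.Adj v x) :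
    Good (n + 1) G (insert v U) := by
  intro σ W i hσ hc hW hs hn
  have hWe : W.erase v ⊆ U := fun x hx =>
    (mem_insert.1 (hW (mem_of_mem_erase hx))).resolve_left (ne_of_mem_erase hx)
  have hσe : σ.erase v ⊆ U := fun x hx =>
    (mem_insert.1 (hσ (mem_of_mem_erase hx))).resolve_left (ne_of_mem_erase hx)
  by_cases hvσ : v ∈ σ
  · have hvW : v ∉ W := fun hvW => (hs v hvσ v hvW).ne rfl
    have hW' : W ⊆ U := by
      rw [Finset.erase_eq_of_notMem hvW] at hWe
      exact hWe
    refine h (σ.erase v) W i hσe (isClique_erase' hc) hW'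
      (fun s hs1 x hx => hs s (mem_of_mem_erase hs1) x hx) ?_
    have := Finset.card_erase_add_one hvσ
    omega
  · rw [Finset.erase_eq_of_notMem hvσ] at hσe
    by_cases hvW : v ∈ W
    · rw [← Finset.insert_erase hvW]
      refine dens_cone (Finset.notMem_erase v W) (fun x hx => hadj x (hWe hx)) ?_
      exact h σ (W.erase v) i hσe hc hWe (fun s hs1 x hx => hs s hs1 x (mem_of_mem_erase hx))
        (by omega)
    · rw [Finset.erase_eq_of_notMem hvW] at hWe
      exact h σ W i hσe hc hWe hs (by omega)

theorem good_susp {a b : V} (h : Good n G U) (ha : a ∉ U) (hb : b ∉ U) (hab : a ≠ b)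
    (hn' : ¬ G.Adj a b) (h1 : ∀ x ∈ U, G.Adj a x) (h2 : ∀ x ∈ U, G.Adj b x) :
    Good (n + 1) G (insert a (insert b U)) := by
  intro σ W i hσ hc hW hs hn
  by_cases haW : a ∈ W
  · have haσ : a ∉ σ := fun h => (hs a h a haW).ne rfl
    have hbσ : b ∉ σ := fun h => hn' (hs b h a haW).symm
    by_cases hbW : b ∈ W
    · have hWe : W = insert a (insert b ((W.erase a).erase b)) := by
        rw [Finset.insert_erase (mem_erase.2 ⟨hab.symm, hbW⟩), Finset.insert_erase haW]
      have hsub : (W.erase a).erase b ⊆ U := by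
        intro x hx
        rw [mem_erase, mem_erase] at hx
        have := hW hx.2.2
        rw [mem_insert, mem_insert] at this
        tauto
      rw [hWe]
      refine dens_susp hab hn' _ _ rfl (by simp) (by simp) (fun x hx => ?_) i
      exact ⟨h1 x (hsub hx), h2 x (hsub hx)⟩
    · have hg : Good (n + 1) G (insert a U) := good_cone h ha h1
      refine hg σ W i ?_ hc ?_ hs hn
      · intro x hx
        have := hσ hx
        rw [mem_insert, mem_insert] at this
        rw [mem_insert]
        rcases this with h | h | h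
        · exact Or.inl h
        · exact absurd (h ▸ hx) hbσ
        · exact Or.inr h
      · intro x hx
        have := hW hx
        rw [mem_insert, mem_insert] at this
        rw [mem_insert]
        rcases this with h | h | h
        · exact Or.inl h
        · exact absurd (h ▸ hx) hbW
        · exact Or.inr h
  · by_cases haσ : a ∈ σ
    · have hbW : b ∉ W := fun h => hn' (hs a haσ b h)
      have hbσ : b ∉ σ := fun h => hn' (hc (by exact_mod_cast haσ) (by exact_mod_cast h) hab)
      have hg : Good (n + 1) G (insert a U) := good_cone h ha h1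
      refine hg σ W i ?_ hc ?_ hs hn
      · intro x hx
        have := hσ hx
        rw [mem_insert, mem_insert] at this
        rw [mem_insert]
        rcases this with h | h | h
        · exact Or.inl h
        · exact absurd (h ▸ hx) hbσ
        · exact Or.inr h
      · intro x hx
        have := hW hx
        rw [mem_insert, mem_insert] at this
        rw [mem_insert]
        rcases this with h | h | h
        · exact Or.inl h
        · exact absurd (h ▸ hx) hbW
        · exact Or.inr h
    · have hg : Good (n + 1) G (insert b U) := good_cone h hb h2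
      refine hg σ W i ?_ hc ?_ hs hn
      · intro x hx
        have := hσ hx
        rw [mem_insert] at this
        rcases this with h | h
        · exact absurd (h ▸ hx) haσ
        · exact h
      · intro x hx
        have := hW hx
        rw [mem_insert] at this
        rcases this with h | h
        · exact absurd (h ▸ hx) haW
        · exact h

theorem good_glue (hU : Good (n + 2) G U) (hW : Good (n + 2) G W) (hUW : Good n G (U ∩ W))
    (hno : ∀ x ∈ U, x ∉ W → ∀ y ∈ W, y ∉ U → ¬ G.Adj x y) : Good (n + 2) G (U ∪ W) := by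
  intro σ T i hσ hc hT hs hn
  by_cases h1 : ∃ x ∈ σ, x ∉ W
  · obtain ⟨x, hx, hxW⟩ := h1
    have hxU : x ∈ U := (mem_union.1 (hσ hx)).resolve_right hxW
    refine hU σ T i (fun y hy => ?_) hc (fun y hy => ?_) hs hn
    · by_contra hyU
      have hyW : y ∈ W := (mem_union.1 (hσ hy)).resolve_left hyU
      have hne : x ≠ y := fun h => hxW (h ▸ hyW)
      exact hno x hxU hxW y hyW hyU (hc (by exact_mod_cast hx) (by exact_mod_cast hy) hne)
    · by_contra hyU
      have hyW : y ∈ W := (mem_union.1 (hT hy)).resolve_left hyU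
      exact hno x hxU hxW y hyW hyU (hs x hx y hy)
  · by_cases h2 : ∃ x ∈ σ, x ∉ U
    · obtain ⟨x, hx, hxU⟩ := h2
      have hxW : x ∈ W := (mem_union.1 (hσ hx)).resolve_left hxU
      refine hW σ T i (fun y hy => ?_) hc (fun y hy => ?_) hs hn
      · by_contra hyW
        exact h1 ⟨y, hy, hyW⟩
      · by_contra hyW
        have hyU : y ∈ U := (mem_union.1 (hT hy)).resolve_right hyW
        exact hno y hyU hyW x hxW hxU (hs x hx y hy).symm
    · push Not at h1 h2
      have hσi : σ ⊆ U ∩ W := fun x hx => mem_inter.2 ⟨h2 x hx, h1 x hx⟩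
      have hTU : ∀ j, n + 2 < 2 * j + σ.card → Dens G (T ∩ U) j := fun j hj =>
        hU σ (T ∩ U) j h2 hc Finset.inter_subset_right
          (fun s hs1 x hx => hs s hs1 x (mem_inter.1 hx).1) hj
      have hTW : ∀ j, n + 2 < 2 * j + σ.card → Dens G (T ∩ W) j := fun j hj =>
        hW σ (T ∩ W) j h1 hc Finset.inter_subset_right
          (fun s hs1 x hx => hs s hs1 x (mem_inter.1 hx).1) hj
      rcases i with _ | i
      · exact dens_zero_mono Finset.inter_subset_left (hTU 0 hn)
      · have hT' : T = (T ∩ U) ∪ (T ∩ W) := by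
          rw [← Finset.inter_union_distrib_left]
          exact (Finset.inter_eq_left.2 hT).symm
        rw [hT']
        refine dens_union ?_ (hTU _ hn) (hTW _ hn) ?_
        · intro x hx hxW y hy hyU
          rw [mem_inter] at hx hy
          exact hno x hx.2 (fun h => hxW (mem_inter.2 ⟨hx.1, h⟩)) y hy.2
            (fun h => hyU (mem_inter.2 ⟨hy.1, h⟩))
        · refine hUW σ _ i hσi hc ?_ ?_ (by omega)
          · intro x hx
            rw [mem_inter, mem_inter, mem_inter] at hx
            exact mem_inter.2 ⟨hx.1.2, hx.2.2⟩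
          · intro s hs1 x hx
            rw [mem_inter, mem_inter] at hx
            exact hs s hs1 x hx.1.1

theorem good_even (he : Even n) (h : ∀ v ∈ U, Good (n + 1) G (nbr G U v)) : Good (n + 2) G U := by
  intro σ W i hσ hc hW hs hn
  rcases σ.eq_empty_or_nonempty with rfl | ⟨v, hv⟩
  · rw [Finset.card_empty, add_zero] at hn
    clear hσ hc hs
    induction W using Finset.induction_on generalizing i with
    | empty =>
      obtain ⟨j, rfl⟩ : ∃ j, i = j + 1 := ⟨i - 1, by omega⟩
      exact dens_empty G j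
    | insert v W hv ih =>
      obtain ⟨j, rfl⟩ : ∃ j, i = j + 1 := ⟨i - 1, by omega⟩
      have hWU : W ⊆ U := (Finset.subset_insert v W).trans hW
      refine dens_insert hv (ih (j + 1) hWU hn) ?_
      refine h v (hW (mem_insert_self v W)) ∅ (nbr G W v) j (Finset.empty_subset _) (by simp) ?_
        (by simp) ?_
      · intro x hx
        rw [mem_nbr] at hx ⊢
        exact ⟨hWU hx.1, hx.2⟩
      · rw [Finset.card_empty, add_zero]
        obtain ⟨k, hk⟩ := he
        omega
  · refine h v (hσ hv) (σ.erase v) W i ?_ (isClique_erase' hc) ?_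
      (fun s hs1 x hx => hs s (mem_of_mem_erase hs1) x hx) ?_
    · intro x hx
      rw [mem_nbr]
      exact ⟨hσ (mem_of_mem_erase hx), hc (by exact_mod_cast hv)
        (by exact_mod_cast (mem_of_mem_erase hx)) (ne_of_mem_erase hx).symm⟩
    · intro x hx
      rw [mem_nbr]
      exact ⟨hW hx, hs v hv x hx⟩
    · have := Finset.card_erase_add_one hv
      omega

end Pool.Agent.H4.Singer3
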