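import Pool.Agent.H4.Singer3.SSubDefs

/-!
# Singer project, part three: renaming the vertices of tame graphs
-/

set_option autoImplicit false
set_option linter.unusedSectionVars false

open Finset

namespace Pool.Agent.H4.Singer3

variable {V : Type} [DecidableEq V] [Fintype V]

theorem mem_mapsymm (e : Equiv.Perm V) (U : Finset V) (x : V) :
    x ∈ U.map e.symm.toEmbedding ↔ e x ∈ U := by
  rw [Finset.mem_map_equiv, Equiv.symm_symm]

theorem nbr_mono' {G : SimpleGraph V} {U W : Finset V} (v : V) (h : W ⊆ U) :
    nbr G W v ⊆ nbr G U v := by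
  intro x hx
  rw [mem_nbr] at hx ⊢
  exact ⟨h hx.1, hx.2⟩

theorem tame_perm (e : Equiv.Perm V) {n : ℕ} {G : SimpleGraph V} {U : Finset V}
    (h : Tame n G U) : Tame n (G.comap e) (U.map e.symm.toEmbedding) := by
  have hnbr : ∀ (G : SimpleGraph V) (U : Finset V) (v : V),
      nbr (G.comap e) (U.map e.symm.toEmbedding) v = (nbr G U (e v)).map e.symm.toEmbedding := by
    intro G U v
    ext x
    rw [mem_nbr, mem_mapsymm, mem_mapsymm, mem_nbr]
    rfl
  induction h with
  | empty G =>
    rw [Finset.map_empty]
    exact Tame.empty _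
  | level _ ih => exact Tame.level ih
  | mono _ hW hH ih =>
    refine Tame.mono ih (Finset.map_subset_map.2 hW) ?_
    intro x hx y hy hxy
    rw [mem_mapsymm] at hx hy
    exact hH _ hx _ hy hxy
  | cone _ hv hadj ih =>
    rename_i n G U v _
    rw [Finset.map_insert]
    refine Tame.cone ih ?_ ?_
    · rw [mem_mapsymm]
      simpa using hv
    · intro x hx
      rw [mem_mapsymm] at hx
      change G.Adj (e (e.symm v)) (e x)
      rw [Equiv.apply_symm_apply]
      exact hadj _ hx
  | susp _ ha hb hab hn h1 h2 ih =>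
    rename_i n G U a b _
    rw [Finset.map_insert, Finset.map_insert]
    refine Tame.susp ih ?_ ?_ ?_ ?_ ?_ ?_
    · rw [mem_mapsymm]
      simpa using ha
    · rw [mem_mapsymm]
      simpa using hb
    · intro h
      exact hab (e.symm.injective h)
    · intro h
      apply hn
      have h' : G.Adj (e (e.symm a)) (e (e.symm b)) := h
      rwa [Equiv.apply_symm_apply, Equiv.apply_symm_apply] at h'
    · intro x hx
      rw [mem_mapsymm] at hx
      change G.Adj (e (e.symm a)) (e x)
      rw [Equiv.apply_symm_apply]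
      exact h1 _ hx
    · intro x hx
      rw [mem_mapsymm] at hx
      change G.Adj (e (e.symm b)) (e x)
      rw [Equiv.apply_symm_apply]
      exact h2 _ hx
  | glue _ _ _ hno ih1 ih2 ih3 =>
    rw [Finset.map_inter] at ih3
    rw [Finset.map_union]
    refine Tame.glue ih1 ih2 ih3 ?_
    intro x hx hx' y hy hy'
    rw [mem_mapsymm] at hx hx' hy hy'
    exact hno _ hx hx' _ hy hy'
  | even he _ ih =>
    refine Tame.even he ?_
    intro v hv
    rw [mem_mapsymm] at hv
    rw [hnbr]
    exact ih _ hv
  | split hu hw huw hsq _ _ _ ih1 ih2 ih3 =>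
    rename_i n G U u w _ _ _
    refine Tame.split (u := e.symm u) (w := e.symm w) ?_ ?_ ?_ ?_ ?_ ?_ ?_
    · rw [mem_mapsymm, Equiv.apply_symm_apply]
      exact hu
    · rw [mem_mapsymm, Equiv.apply_symm_apply]
      exact hw
    · change G.Adj (e (e.symm u)) (e (e.symm w))
      rw [Equiv.apply_symm_apply, Equiv.apply_symm_apply]
      exact huw
    · intro x hx y hy h1 h2 h3 h4 h5 h6
      rw [mem_mapsymm] at hx hy
      simp only [SimpleGraph.comap_adj, Equiv.apply_symm_apply] at h1 h2 h4 h5 ⊢
      refine hsq _ hx _ hy h1 h2 ?_ h4 h5 ?_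
      · rintro rfl
        simp at h3
      · rintro rfl
        simp at h6
    · refine Tame.mono ih1 ?_ ?_
      · intro x hx
        rw [mem_mapsymm, mem_erase]
        rw [mem_erase, mem_mapsymm] at hx
        refine ⟨?_, hx.2⟩
        rintro rfl
        simp at hx
      · rintro x _ y _ ⟨h1, h2, h3, h4⟩
        refine ⟨fun h => h1 (e.injective h), ?_, ?_, ?_⟩
        · rintro rfl
          simp at h2
        · rintro rfl
          simp at h3
        · simp only [SimpleGraph.comap_adj, Equiv.apply_symm_apply] at h4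
          rcases h4 with h | ⟨h, h'⟩ | ⟨h, h'⟩
          · exact Or.inl h
          · exact Or.inr (Or.inl ⟨by rw [h, Equiv.apply_symm_apply], h'⟩)
          · exact Or.inr (Or.inr ⟨by rw [h, Equiv.apply_symm_apply], h'⟩)
    · rw [hnbr, Equiv.apply_symm_apply]
      exact ih2
    · rw [hnbr, Equiv.apply_symm_apply]
      exact ih3

end Pool.Agent.H4.Singer3
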