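import Pool.Agent.H4.Singer3.SBasic
import Pool.Agent.H4.Singer.TowerProd

/-!
# Singer project, part three: products of two-groups
-/

set_option autoImplicit false
set_option linter.unusedSectionVars false

open Finset

namespace Pool.Agent.H4.Singer3

variable {V : Type} [DecidableEq V] [Fintype V] {G : SimpleGraph V}

/-! ### double covers -/

private def colOf (G : SimpleGraph V) : Pool.Agent.H4.Singer.ColGraph V V where
  adj := G.Adj
  symm := fun _ _ h => h.symm
  col := id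
  ne := fun _ _ h => h.ne

private def toInv {Ω : Type} (X : Act G Ω) : Pool.Agent.H4.Singer.InvAct (colOf G) Ω where
  s := X.s
  invol := X.invol
  comm := X.comm
  bit := X.bit
  bit_s := X.bit_s

private theorem exists_half3 {Ω : Type} [Finite Ω] (X : Act G Ω) (τ : Ω → Ω)
    (hτs : ∀ v ω, τ (X.s v ω) = X.s v (τ ω)) (hτ2 : ∀ ω, τ (τ ω) = ω) (hτ : ∀ ω, τ ω ≠ ω)
    (hbit : ∀ ω, X.bit (τ ω) = X.bit ω) (σ : Finset V) (hσ : G.IsClique (σ : Set V)) :
    ∃ D : Ω → Prop, (∀ v ∈ σ, ∀ ω, D (X.s v ω) ↔ D ω) ∧ ∀ ω, D ω ↔ ¬ D (τ ω) :=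
  Pool.Agent.H4.Singer.exists_half (toInv X) τ hτs hτ2 hτ hbit σ
    (fun u hu v hv huv => hσ (by exact_mod_cast hu) (by exact_mod_cast hv) huv)

/-- composition with a map -/
private def pl {Ω Ω' : Type} (p : Ω' → Ω) :
    (Finset V → Ω → ZMod 2) →ₗ[ZMod 2] (Finset V → Ω' → ZMod 2) where
  toFun f σ ω := f σ (p ω)
  map_add' _ _ := rfl
  map_smul' _ _ := rfl

private theorem pl_apply {Ω Ω' : Type} (p : Ω' → Ω) (f : Finset V → Ω → ZMod 2) (σ : Finset V)
    (ω : Ω') : pl p f σ ω = f σ (p ω) := rfl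

private theorem pl_bd {Ω Ω' : Type} (p : Ω' → Ω) (f : Finset V → Ω → ZMod 2) :
    pl p (bd f) = bd (pl p f) := rfl

private def ps {Ω Ω' : Type} (s : Ω → Ω') (τ : Ω' → Ω') :
    (Finset V → Ω' → ZMod 2) →ₗ[ZMod 2] (Finset V → Ω → ZMod 2) where
  toFun g σ ω := g σ (s ω) + g σ (τ (s ω))
  map_add' f g := by
    funext σ ω
    simp only [Pi.add_apply]
    ring
  map_smul' c f := by
    funext σ ω
    simp only [Pi.smul_apply, smul_eq_mul, RingHom.id_apply]
    ring

private theorem ps_apply {Ω Ω' : Type} (s : Ω → Ω') (τ : Ω' → Ω') (g : Finset V → Ω' → ZMod 2)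
    (σ : Finset V) (ω : Ω) : ps s τ g σ ω = g σ (s ω) + g σ (τ (s ω)) := rfl

private theorem ps_bd {Ω Ω' : Type} (s : Ω → Ω') (τ : Ω' → Ω') (g : Finset V → Ω' → ZMod 2) :
    ps s τ (bd g) = bd (ps s τ g) := by
  funext σ ω
  rw [ps_apply, bd_apply, bd_apply, bd_apply, ← Finset.sum_add_distrib]
  exact Finset.sum_congr rfl fun v _ => rfl

private theorem bet_double3 {Ω Ω' : Type} [Fintype Ω] [Fintype Ω'] (X : Act G Ω) (X' : Act G Ω')
    {𝒦 : Finset V → Prop} (h𝒦 : ∀ σ, 𝒦 σ → ∀ τ ⊆ σ, 𝒦 τ)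
    (hcl : ∀ σ, 𝒦 σ → G.IsClique (σ : Set V)) (i : ℕ) (p : Ω' → Ω)
    (hp : ∀ v ω, p (X'.s v ω) = X.s v (p ω)) (hbit : ∀ ω, X'.bit ω = X.bit (p ω))
    (hsurj : Function.Surjective p) (τ : Ω' → Ω') (hτs : ∀ v ω, τ (X'.s v ω) = X'.s v (τ ω))
    (hτ2 : ∀ ω, τ (τ ω) = ω) (hτ : ∀ ω, τ ω ≠ ω)
    (hfib : ∀ ω ω', p ω = p ω' ↔ ω' = ω ∨ ω' = τ ω) :
    bet X' 𝒦 i ≤ 2 * bet X 𝒦 i := by
  classical
  obtain ⟨s, hs⟩ := hsurj.hasRightInverse
  have hs' : ∀ ω, p (s ω) = ω := hs
  have hpτ : ∀ ω, p (τ ω) = p ω := fun ω => ((hfib ω (τ ω)).2 (Or.inr rfl)).symm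
  have hsec : ∀ ω', s (p ω') = ω' ∨ s (p ω') = τ ω' := by
    intro ω'
    exact (hfib ω' (s (p ω'))).1 (hs' (p ω')).symm
  have hcc : ∀ a : ZMod 2, a + a = 0 := fun a => CharTwo.add_self_eq_zero a
  have hneg : ∀ a : ZMod 2, -a = a := fun a => CharTwo.neg_eq a
  have hpush : ∀ (g : Finset V → Ω' → ZMod 2) (σ : Finset V) (ω' : Ω'),
      ps s τ g σ (p ω') = g σ ω' + g σ (τ ω') := by
    intro g σ ω'
    rw [ps_apply]
    rcases hsec ω' with h | h
    · rw [h]
    · rw [h, hτ2, add_comm]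
  -- the maps preserve chains
  have hpull_mem : ∀ (j : ℕ) (f : Finset V → Ω → ZMod 2), f ∈ CK X 𝒦 j →
      pl p f ∈ CK X' 𝒦 j := by
    intro j f hf
    rw [mem_CK] at hf ⊢
    refine ⟨fun σ ω h => hf.1 σ (p ω) h, fun σ v hv ω => ?_⟩
    rw [pl_apply, pl_apply, hp, hf.2 σ v hv]
  have hpush_mem : ∀ (j : ℕ) (g : Finset V → Ω' → ZMod 2), g ∈ CK X' 𝒦 j →
      ps s τ g ∈ CK X 𝒦 j := by
    intro j g hg
    rw [mem_CK] at hg ⊢
    refine ⟨fun σ ω h => ?_, fun σ v hv ω => ?_⟩
    · rw [ps_apply] at h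
      by_cases h1 : g σ (s ω) = 0
      · by_cases h2 : g σ (τ (s ω)) = 0
        · exact absurd (by rw [h1, h2, add_zero]) h
        · exact hg.1 _ _ h2
      · exact hg.1 _ _ h1
    · have e1 : X.s v ω = p (X'.s v (s ω)) := by rw [hp, hs']
      rw [e1, hpush, hτs, hg.2 σ v hv, hg.2 σ v hv, ps_apply]
  -- the map `r` is an inverse of the pull back on the kernel
  have hinv : ∀ g : Finset V → Ω' → ZMod 2, ps s τ g = 0 → pl p (pl s g) = g := by
    intro g hg
    funext σ ω'
    have h1 : g σ ω' + g σ (τ ω') = 0 := by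
      rw [← hpush, hg]
      rfl
    have h2 : g σ (τ ω') = g σ ω' := by
      have : g σ (τ ω') = - g σ ω' := by
        rw [eq_neg_iff_add_eq_zero, add_comm]
        exact h1
      rw [this, hneg]
    rw [pl_apply, pl_apply]
    rcases hsec ω' with h | h
    · rw [h]
    · rw [h, h2]
  have hr_mem : ∀ (j : ℕ) (g : Finset V → Ω' → ZMod 2), g ∈ CK X' 𝒦 j → ps s τ g = 0 →
      pl s g ∈ CK X 𝒦 j := by
    intro j g hg h0
    have h1 := hinv g h0
    rw [mem_CK] at hg ⊢
    refine ⟨fun σ ω h => hg.1 σ (s ω) h, fun σ v hv ω => ?_⟩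
    have e1 : X.s v ω = p (X'.s v (s ω)) := by rw [hp, hs']
    have e2 : pl s g σ (p (X'.s v (s ω))) = g σ (X'.s v (s ω)) :=
      congrFun (congrFun h1 σ) (X'.s v (s ω))
    rw [e1, e2, hg.2 σ v hv]
    rfl
  -- surjectivity
  have hpush_surj : ∀ (j : ℕ) (f : Finset V → Ω → ZMod 2), f ∈ CK X 𝒦 j →
      ∃ g ∈ CK X' 𝒦 j, ps s τ g = f := by
    intro j f hf
    rw [mem_CK] at hf
    have hD : ∀ σ : Finset V, ∃ D : Ω' → Prop, 𝒦 σ →
        (∀ v ∈ σ, ∀ ω, D (X'.s v ω) ↔ D ω) ∧ ∀ ω, D ω ↔ ¬ D (τ ω) := by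
      intro σ
      by_cases hσ : 𝒦 σ
      · obtain ⟨D, hD⟩ := exists_half3 X' τ hτs hτ2 hτ
          (fun ω => by rw [hbit, hbit, hpτ]) σ (hcl σ hσ)
        exact ⟨D, fun _ => hD⟩
      · exact ⟨fun _ => True, fun h => absurd h hσ⟩
    choose D hD using hD
    refine ⟨fun σ ω => if D σ ω then f σ (p ω) else 0, ?_, ?_⟩
    · rw [mem_CK]
      refine ⟨fun σ ω h => ?_, fun σ v hv ω => ?_⟩
      · by_cases h1 : D σ ω
        · rw [if_pos h1] at h
          exact hf.1 _ _ h
        · rw [if_neg h1] at h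
          exact absurd rfl h
      · by_cases hσ : 𝒦 σ
        · have h1 := (hD σ hσ).1 v hv ω
          by_cases h2 : D σ ω
          · simp only [if_pos (h1.2 h2), if_pos h2]
            rw [hp, hf.2 σ v hv]
          · simp only [if_neg (fun h => h2 (h1.1 h)), if_neg h2]
        · have h0 : ∀ ω, f σ ω = 0 := by
            intro ω
            by_contra h
            exact hσ (hf.1 _ _ h).1
          simp only [h0, ite_self]
    · funext σ ω
      rw [ps_apply]
      by_cases hσ : 𝒦 σ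
      · have h1 := (hD σ hσ).2 (s ω)
        by_cases h2 : D σ (s ω)
        · simp only [if_pos h2, if_neg (h1.1 h2), hs', add_zero]
        · have h3 : D σ (τ (s ω)) := by
            by_contra h
            exact h2 (h1.2 h)
          simp only [if_neg h2, if_pos h3, hpτ, hs', zero_add]
      · have h0 : ∀ ω, f σ ω = 0 := by
          intro ω
          by_contra h
          exact hσ (hf.1 _ _ h).1
        simp only [h0, ite_self, add_zero]
  have hmain : hdim (ZK X' 𝒦 i) (BK X' 𝒦 i) ≤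
      hdim (ZK X 𝒦 i) (BK X 𝒦 i) + hdim (ZK X 𝒦 i) (BK X 𝒦 i) := by
    refine hdim_le (ZK X' 𝒦 i) (BK X' 𝒦 i) (ZK X 𝒦 i) (BK X 𝒦 i) (ZK X 𝒦 i) (BK X 𝒦 i)
      (BK_le_ZK X' h𝒦 i) (BK_le_ZK X h𝒦 i) (BK_le_ZK X h𝒦 i) (ps s τ) (pl p) ?_ ?_ ?_ ?_
    · intro z hz
      rw [mem_ZK] at hz ⊢
      exact ⟨hpush_mem i z hz.1, by rw [← ps_bd, hz.2, map_zero]⟩
    · rintro _ ⟨y, hy, rfl⟩
      exact ⟨ps s τ y, hpush_mem _ y hy, (ps_bd s τ y).symm⟩
    · intro z hz hψ
      rw [mem_ZK] at hz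
      obtain ⟨y'', hy'', hyz⟩ := hψ
      obtain ⟨y, hy, hyy⟩ := hpush_surj (i + 1) y'' hy''
      have hker : ps s τ (z - bd y) = 0 := by
        rw [map_sub, ps_bd, hyy, hyz, sub_self]
      have hmem : z - bd y ∈ CK X' 𝒦 i := Submodule.sub_mem _ hz.1 (bd_mem_CK X' h𝒦 hy)
      refine ⟨pl s (z - bd y), ?_, ?_⟩
      · rw [mem_ZK]
        refine ⟨hr_mem i _ hmem hker, ?_⟩
        rw [← pl_bd, map_sub, hz.2, bd_bd, sub_zero, map_zero]
      · rw [hinv _ hker, sub_sub_cancel_left]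
        exact Submodule.neg_mem _ ⟨y, hy, rfl⟩
    · rintro _ ⟨y, hy, rfl⟩
      exact ⟨pl p y, hpull_mem _ y hy, (pl_bd p y).symm⟩
  unfold bet
  omega

/-- Betti numbers do not change under equivariant bijections. -/
private theorem bet_le_of_equiv {Ω Ω' : Type} [Fintype Ω] [Fintype Ω'] (X : Act G Ω)
    (X' : Act G Ω') {𝒦 : Finset V → Prop} (h𝒦 : ∀ σ, 𝒦 σ → ∀ τ ⊆ σ, 𝒦 τ) (i : ℕ) (e : Ω ≃ Ω')
    (he : ∀ v ω, e (X.s v ω) = X'.s v (e ω)) : bet X 𝒦 i ≤ bet X' 𝒦 i := by
  have he' : ∀ v ω, e.symm (X'.s v ω) = X.s v (e.symm ω) := fun v ω => by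
    rw [Equiv.symm_apply_eq, he, Equiv.apply_symm_apply]
  have h1 : ∀ (j : ℕ) (f : Finset V → Ω → ZMod 2), f ∈ CK X 𝒦 j → pl e.symm f ∈ CK X' 𝒦 j := by
    intro j f hf
    rw [mem_CK] at hf ⊢
    refine ⟨fun σ ω h => hf.1 σ _ h, fun σ v hv ω => ?_⟩
    rw [pl_apply, pl_apply, he', hf.2 σ v hv]
  have h2 : ∀ (j : ℕ) (f : Finset V → Ω' → ZMod 2), f ∈ CK X' 𝒦 j → pl e f ∈ CK X 𝒦 j := by
    intro j f hf
    rw [mem_CK] at hf ⊢
    refine ⟨fun σ ω h => hf.1 σ _ h, fun σ v hv ω => ?_⟩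
    rw [pl_apply, pl_apply, he, hf.2 σ v hv]
  have h3 : ∀ f : Finset V → Ω → ZMod 2, pl e (pl e.symm f) = f := by
    intro f
    funext σ ω
    rw [pl_apply, pl_apply, Equiv.symm_apply_apply]
  unfold bet
  refine hdim_le_of_inj _ _ _ _ (BK_le_ZK X h𝒦 i) (BK_le_ZK X' h𝒦 i) (pl e.symm) ?_ ?_ ?_
  · intro z hz
    rw [mem_ZK] at hz ⊢
    exact ⟨h1 i z hz.1, by rw [← pl_bd, hz.2, map_zero]⟩
  · rintro _ ⟨y, hy, rfl⟩
    exact ⟨pl e.symm y, h1 _ y hy, (pl_bd _ y).symm⟩
  · rintro z _ ⟨y, hy, hyz⟩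
    refine ⟨pl e y, h2 _ y hy, ?_⟩
    rw [← pl_bd, hyz, h3]

/-! ### products with two-groups -/

/-- the product of a group with elements `g v` and a set with an action -/
private def prodAct3 {Q Ω : Type} [Group Q] (g : V → Q) (hg : ∀ v, g v * g v = 1)
    (hgc : ∀ u v, G.Adj u v → g u * g v = g v * g u) (X : Act G Ω) : Act G (Q × Ω) where
  s v p := (p.1 * g v, X.s v p.2)
  invol v p := by simp [X.invol, mul_assoc, hg]
  comm u v h p := by simp [X.comm u v h, mul_assoc, hgc u v h]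
  bit p := X.bit p.2
  bit_s v p := X.bit_s v p.2

/-- a nontrivial finite two-group has a central element of order two -/
private theorem exists_central_two3 {P : Type} [Group P] [Fintype P] (hP : IsPGroup 2 P)
    (hc : Fintype.card P ≠ 1) : ∃ z : P, z ≠ 1 ∧ z * z = 1 ∧ ∀ x, z * x = x * z := by
  haveI : Fact (Nat.Prime 2) := ⟨Nat.prime_two⟩
  haveI : Nontrivial P := by
    rw [← Fintype.one_lt_card_iff_nontrivial]
    have : 0 < Fintype.card P := Fintype.card_pos
    omega
  haveI := hP.center_nontrivial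
  have h1 : 2 ∣ Nat.card (Subgroup.center P) := by
    rcases (hP.to_subgroup (Subgroup.center P)).card_eq_or_dvd with h | h
    · exact absurd h (by
        have := Finite.one_lt_card (α := Subgroup.center P)
        omega)
    · exact h
  obtain ⟨c, hc2⟩ := exists_prime_orderOf_dvd_card' 2 h1
  have h2 : c ^ 2 = 1 := by rw [← hc2]; exact pow_orderOf_eq_one c
  have h3 : c ≠ 1 := by
    intro h
    rw [h, orderOf_one] at hc2
    exact absurd hc2 (by decide)
  refine ⟨c, fun h => h3 (Subtype.ext h), ?_, fun x => (Subgroup.mem_center_iff.1 c.2 x).symm⟩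
  have := congrArg Subtype.val h2
  rwa [pow_two] at this

/-- the central subgroup `{1, z}` -/
private def twoSub3 {P : Type} [Group P] (z : P) (hz : z * z = 1) : Subgroup P where
  carrier := {x | x = 1 ∨ x = z}
  mul_mem' := by
    rintro a b (rfl | rfl) (rfl | rfl)
    · exact Or.inl (mul_one _)
    · exact Or.inr (one_mul _)
    · exact Or.inr (mul_one _)
    · exact Or.inl hz
  one_mem' := Or.inl rfl
  inv_mem' := by
    rintro a (rfl | rfl)
    · exact Or.inl inv_one
    · exact Or.inr (inv_eq_of_mul_eq_one_left hz)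

private theorem mem_twoSub3 {P : Type} [Group P] (z : P) (hz : z * z = 1) (x : P) :
    x ∈ twoSub3 z hz ↔ x = 1 ∨ x = z := Iff.rfl

private theorem twoSub3_normal {P : Type} [Group P] (z : P) (hz : z * z = 1)
    (hzc : ∀ x, z * x = x * z) : (twoSub3 z hz).Normal := by
  refine ⟨fun n hn x => ?_⟩
  rw [mem_twoSub3] at hn ⊢
  rcases hn with rfl | rfl
  · left; group
  · right; rw [← hzc, mul_inv_cancel_right]

private theorem card_twoSub3 {P : Type} [Group P] (z : P) (hz : z * z = 1) (hz1 : z ≠ 1) :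
    Nat.card (twoSub3 z hz) = 2 := by
  rw [Nat.card_eq_two_iff]
  refine ⟨⟨1, Or.inl rfl⟩, ⟨z, Or.inr rfl⟩, fun h => hz1 (congrArg Subtype.val h).symm, ?_⟩
  ext ⟨x, hx⟩
  simp only [Set.mem_insert_iff, Set.mem_singleton_iff, Set.mem_univ, iff_true, Subtype.mk.injEq]
  exact hx

private theorem bet_prod_aux3 {Ω : Type} [Fintype Ω] (X : Act G Ω) (U : Finset V) (i : ℕ)
    (n : ℕ) : ∀ (P : Type) [Group P] [Fintype P],
    Fintype.card P ≤ n → IsPGroup 2 P → ∀ (g : V → P) (hg : ∀ v, g v * g v = 1)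
    (hgc : ∀ u v, G.Adj u v → g u * g v = g v * g u),
    bet (prodAct3 g hg hgc X) (KU G U) i ≤ Fintype.card P * bet X (KU G U) i := by
  induction n with
  | zero =>
    intro P _ _ hn
    have : 0 < Fintype.card P := Fintype.card_pos
    omega
  | succ n ih =>
    intro P _ _ hn hP g hg hgc
    by_cases hc : Fintype.card P = 1
    · have hsub : Subsingleton P := Fintype.card_le_one_iff_subsingleton.1 hc.le
      rw [hc, one_mul]
      exact bet_le_of_equiv (prodAct3 g hg hgc X) X (KU_down' G U) i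
        { toFun := fun p => p.2
          invFun := fun ω => (1, ω)
          left_inv := fun p => Prod.ext (Subsingleton.elim _ _) rfl
          right_inv := fun ω => rfl } (fun v ω => rfl)
    · obtain ⟨z, hz1, hz, hzc⟩ := exists_central_two3 hP hc
      haveI := twoSub3_normal z hz hzc
      letI : Fintype (P ⧸ twoSub3 z hz) := Fintype.ofFinite _
      have hcard : Fintype.card P = Fintype.card (P ⧸ twoSub3 z hz) * 2 := by
        rw [← card_twoSub3 z hz hz1, ← Nat.card_eq_fintype_card, ← Nat.card_eq_fintype_card]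
        exact Subgroup.card_eq_card_quotient_mul_card_subgroup _
      have hpos : 0 < Fintype.card (P ⧸ twoSub3 z hz) := Fintype.card_pos
      have hg' : ∀ v, ((g v : P) : P ⧸ twoSub3 z hz) * (g v : P) = 1 := fun v => by
        rw [← QuotientGroup.mk_mul, hg, QuotientGroup.mk_one]
      have hgc' : ∀ u v, G.Adj u v → ((g u : P) : P ⧸ twoSub3 z hz) * (g v : P) =
          ((g v : P) : P ⧸ twoSub3 z hz) * (g u : P) := fun u v h => by
        rw [← QuotientGroup.mk_mul, hgc u v h, QuotientGroup.mk_mul]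
      have h1 := ih (P ⧸ twoSub3 z hz) (by omega) (hP.to_quotient _)
        (fun v => ((g v : P) : P ⧸ twoSub3 z hz)) hg' hgc'
      have h2 : bet (prodAct3 g hg hgc X) (KU G U) i ≤
          2 * bet (prodAct3 (fun v => ((g v : P) : P ⧸ twoSub3 z hz)) hg' hgc' X) (KU G U) i := by
        refine bet_double3 _ _ (KU_down' G U) (fun σ hσ => hσ.2) i
          (fun p => ((p.1 : P ⧸ twoSub3 z hz), p.2))
          (fun v p => rfl) (fun p => rfl) ?_ (fun p => (z * p.1, p.2)) ?_ ?_ ?_ ?_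
        · rintro ⟨x, ω⟩
          obtain ⟨y, rfl⟩ := QuotientGroup.mk_surjective x
          exact ⟨(y, ω), rfl⟩
        · intro v p
          show (z * (p.1 * g v), X.s v p.2) = ((z * p.1) * g v, X.s v p.2)
          rw [mul_assoc]
        · intro p
          show (z * (z * p.1), p.2) = p
          rw [← mul_assoc, hz, one_mul]
        · intro p h
          have h3 : z * p.1 = p.1 := congrArg Prod.fst h
          exact hz1 (mul_eq_right.1 h3)
        · rintro ⟨x, ω⟩ ⟨x', ω'⟩
          simp only [Prod.mk.injEq]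
          rw [QuotientGroup.eq, mem_twoSub3]
          constructor
          · rintro ⟨h | h, rfl⟩
            · left
              exact ⟨(inv_mul_eq_one.1 h).symm, rfl⟩
            · right
              refine ⟨?_, rfl⟩
              rw [hzc, ← h, mul_inv_cancel_left]
          · rintro (⟨rfl, rfl⟩ | ⟨rfl, rfl⟩)
            · exact ⟨Or.inl (inv_mul_cancel _), rfl⟩
            · refine ⟨Or.inr ?_, rfl⟩
              rw [hzc, inv_mul_cancel_left]
      calc bet (prodAct3 g hg hgc X) (KU G U) i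
          ≤ 2 * bet (prodAct3 (fun v => ((g v : P) : P ⧸ twoSub3 z hz)) hg' hgc' X)
              (KU G U) i := h2
        _ ≤ 2 * (Fintype.card (P ⧸ twoSub3 z hz) * bet X (KU G U) i) := Nat.mul_le_mul_left 2 h1
        _ = Fintype.card P * bet X (KU G U) i := by rw [hcard]; ring

/-- the diagonal generators of a product -/
def Gen.prod {P Q : Type} [Group P] [Group Q] (D : Gen G P) (E : Gen G Q) : Gen G (P × Q) where
  g v := (D.g v, E.g v)
  sq v := by rw [Prod.mk_mul_mk, D.sq, E.sq]; rfl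
  comm u v h := by rw [Prod.mk_mul_mk, Prod.mk_mul_mk, D.comm u v h, E.comm u v h]
  bit p := D.bit p.1
  bit_mul p v := D.bit_mul p.1 v

/-- The same proof as `Pool.Agent.H4.Singer.bet_prod_le` (files `DoubleCover`, `Half`, `TowerProd` of
part one): induction on the order of the two-group `Q`, a central element `z` of order two gives the
double cover `P × Q → P × Q / z`, and for a double cover with free involution the Betti number is at
most twice as large (exact sequence `0 → C(base) → C(cover) → C(base) → 0` in characteristic two).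
Either repeat that proof for the chain complexes `CK X 𝒦` (simpler here: no signs), or deduce it from
part one applied to the induced coloured graph on the subtype `{v // v ∈ U}` with colours `V`.
It may be convenient to prove it first for an arbitrary finite set `Ω` with an action instead of
`P`. -/
theorem bet_prod_left {P Q : Type} [Group P] [Group Q] [Fintype P] [Fintype Q]
    (hQ : IsPGroup 2 Q) (D : Gen G P) (E : Gen G Q) (U : Finset V) (i : ℕ) :
    bet (D.prod E).act (KU G U) i ≤ Fintype.card Q * bet D.act (KU G U) i := by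
  refine le_trans (bet_le_of_equiv (D.prod E).act (prodAct3 E.g E.sq E.comm D.act)
    (KU_down' G U) i (Equiv.prodComm P Q) (fun v ω => rfl)) ?_
  exact bet_prod_aux3 D.act U i (Fintype.card Q) Q le_rfl hQ E.g E.sq E.comm

/-- the same with the factors exchanged (the map to the cube plays no role in `bet`) -/
theorem bet_prod_right {P Q : Type} [Group P] [Group Q] [Fintype P] [Fintype Q]
    (hP : IsPGroup 2 P) (D : Gen G P) (E : Gen G Q) (U : Finset V) (i : ℕ) :
    bet (D.prod E).act (KU G U) i ≤ Fintype.card P * bet E.act (KU G U) i := by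
  refine le_trans (bet_le_of_equiv (D.prod E).act (prodAct3 D.g D.sq D.comm E.act)
    (KU_down' G U) i (Equiv.refl (P × Q)) (fun v ω => rfl)) ?_
  exact bet_prod_aux3 E.act U i (Fintype.card P) P le_rfl hP D.g D.sq D.comm

end Pool.Agent.H4.Singer3
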