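import Pool.Agent.H4.Singer3.SGood

/-!
# Singer project, part three: vertex splits
-/

set_option autoImplicit false
set_option linter.unusedSectionVars false

open Finset

namespace Pool.Agent.H4.Singer3

variable {V : Type} [DecidableEq V] [Fintype V] {n : ℕ} {G : SimpleGraph V} {U : Finset V}
  {u w : V}

/-- the graph without the edges at `u` -/
def cutG (G : SimpleGraph V) (u : V) : SimpleGraph V where
  Adj a b := G.Adj a b ∧ a ≠ u ∧ b ≠ u
  symm := ⟨by
    rintro a b ⟨h1, h2, h3⟩
    exact ⟨h1.symm, h3, h2⟩⟩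
  loopless := ⟨fun a h => h.1.ne rfl⟩

theorem cutG_le : cutG G u ≤ contr G u w := by
  rintro a b ⟨h1, h2, h3⟩
  exact ⟨h1.ne, h2, h3, Or.inl h1⟩

/-- the case of a set without `u` -/
theorem split_aux1 (hc : Good (n + 1) (contr G u w) (U.erase u)) {σ W : Finset V} {i : ℕ}
    (hσ : σ ⊆ U) (hcl : G.IsClique (σ : Set V)) (hW : W ⊆ U) (hs : ∀ s ∈ σ, ∀ x ∈ W, G.Adj s x)
    (hn : n + 1 < 2 * i + σ.card) (huσ : u ∉ σ) (huW : u ∉ W) : Dens G W i := by
  have h1 : Good (n + 1) (cutG G u) (U.erase u) := good_mono hc cutG_le (Finset.Subset.refl _)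
  have hne : ∀ {T : Finset V}, u ∉ T → ∀ x ∈ T, x ≠ u := fun hT x hx h => hT (h ▸ hx)
  have h2 : Dens (cutG G u) W i := by
    refine h1 σ W i ?_ ?_ ?_ ?_ hn
    · exact fun x hx => mem_erase.2 ⟨hne huσ x hx, hσ hx⟩
    · intro a ha b hb hab
      exact ⟨hcl ha hb hab, hne huσ a (by exact_mod_cast ha), hne huσ b (by exact_mod_cast hb)⟩
    · exact fun x hx => mem_erase.2 ⟨hne huW x hx, hW hx⟩
    · exact fun s hs1 x hx => ⟨hs s hs1 x hx, hne huσ s hs1, hne huW x hx⟩
  refine dens_agree (fun x hx y hy => ?_) h2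
  exact ⟨fun h => ⟨h, hne huW x hx, hne huW y hy⟩, fun h => h.1⟩

/-- the case of a set without `w` -/
theorem split_aux2 (hw : w ∈ U) (huw : G.Adj u w)
    (hc : Good (n + 1) (contr G u w) (U.erase u)) {σ W : Finset V} {i : ℕ}
    (hσ : σ ⊆ U) (hcl : G.IsClique (σ : Set V)) (hW : W ⊆ U) (hs : ∀ s ∈ σ, ∀ x ∈ W, G.Adj s x)
    (hn : n + 1 < 2 * i + σ.card) (huσ : u ∉ σ) (hwσ : w ∉ σ) (hwW : w ∉ W) :
    Dens G W i := by
  have hwu : w ≠ u := huw.ne.symm
  let e : Equiv.Perm V := Equiv.swap u w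
  have heu : e u = w := Equiv.swap_apply_left u w
  have hew : e w = u := Equiv.swap_apply_right u w
  have heo : ∀ x, x ≠ u → x ≠ w → e x = x := fun x h1 h2 => Equiv.swap_apply_of_ne_of_ne h1 h2
  have hee : ∀ x, e (e x) = x := fun x => Equiv.swap_apply_self u w x
  have hes : e.symm = e := Equiv.symm_swap u w
  let K : SimpleGraph V :=
    { Adj := fun a b => G.Adj (e a) (e b) ∧ a ≠ u ∧ b ≠ u
      symm := ⟨by
        rintro a b ⟨h1, h2, h3⟩
        exact ⟨h1.symm, h3, h2⟩⟩
      loopless := ⟨fun a h => h.1.ne rfl⟩ }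
  have hK : K ≤ contr G u w := by
    rintro a b ⟨h1, h2, h3⟩
    have hab : a ≠ b := by
      rintro rfl
      exact h1.ne rfl
    refine ⟨hab, h2, h3, ?_⟩
    by_cases ha : a = w
    · have hb : b ≠ w := fun hb => hab (ha.trans hb.symm)
      refine Or.inr (Or.inl ⟨ha, ?_⟩)
      rw [ha, hew, heo b h3 hb] at h1
      exact h1
    · by_cases hb : b = w
      · refine Or.inr (Or.inr ⟨hb, ?_⟩)
        rw [hb, hew, heo a h2 ha] at h1
        exact h1.symm
      · refine Or.inl ?_
        rw [heo a h2 ha, heo b h3 hb] at h1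
        exact h1
  have h1 : Good (n + 1) K (U.erase u) := good_mono hc hK (Finset.Subset.refl _)
  have hneu : ∀ x ∈ σ, x ≠ u := fun x hx h => huσ (h ▸ hx)
  have hnew : ∀ x ∈ σ, x ≠ w := fun x hx h => hwσ (h ▸ hx)
  have hneW : ∀ x ∈ W, x ≠ w := fun x hx h => hwW (h ▸ hx)
  have hmem : ∀ x, x ∈ W.map e.toEmbedding ↔ e x ∈ W := by
    intro x
    rw [Finset.mem_map_equiv, hes]
  have h2 : Dens K (W.map e.toEmbedding) i := by
    refine h1 σ _ i ?_ ?_ ?_ ?_ hn
    · exact fun x hx => mem_erase.2 ⟨hneu x hx, hσ hx⟩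
    · intro a ha b hb hab
      have ha' : a ∈ σ := by exact_mod_cast ha
      have hb' : b ∈ σ := by exact_mod_cast hb
      refine ⟨?_, hneu a ha', hneu b hb'⟩
      rw [heo a (hneu a ha') (hnew a ha'), heo b (hneu b hb') (hnew b hb')]
      exact hcl ha hb hab
    · intro x hx
      rw [hmem] at hx
      have hxu : x ≠ u := by
        rintro rfl
        rw [heu] at hx
        exact hwW hx
      refine mem_erase.2 ⟨hxu, ?_⟩
      by_cases hxw : x = w
      · rw [hxw]
        exact hw
      · rw [heo x hxu hxw] at hx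
        exact hW hx
    · intro s hs1 x hx
      rw [hmem] at hx
      have hxu : x ≠ u := by
        rintro rfl
        rw [heu] at hx
        exact hwW hx
      refine ⟨?_, hneu s hs1, hxu⟩
      rw [heo s (hneu s hs1) (hnew s hs1)]
      exact hs s hs1 _ hx
  have h3 := dens_perm e K (W.map e.toEmbedding) i h2
  have h4 : (W.map e.toEmbedding).map e.symm.toEmbedding = W := by
    ext x
    rw [Finset.mem_map_equiv, Equiv.symm_symm, hmem, hee]
  rw [h4] at h3
  refine dens_agree (fun x hx y hy => ?_) h3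
  change _ ↔ (G.Adj (e (e x)) (e (e y)) ∧ e x ≠ u ∧ e y ≠ u)
  rw [hee, hee]
  have hx1 : ∀ z ∈ W, e z ≠ u := by
    intro z hz h
    have : z = w := by
      rw [← hee z, h, heu]
    exact hneW z hz this
  exact ⟨fun h => ⟨h, hx1 x hx, hx1 y hy⟩, fun h => h.1⟩

theorem good_split (hu : u ∈ U) (hw : w ∈ U) (huw : G.Adj u w) (hsq : NoSquare G U u w)
    (hc : Good (n + 1) (contr G u w) (U.erase u)) (hlu : Good n G (nbr G U u))
    (hlw : Good n G (nbr G U w)) : Good (n + 1) G U := by
  intro σ W i hσ hcl hW hs hn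
  have hlink : ∀ v, v ∈ σ → Good n G (nbr G U v) → Dens G W i := by
    intro v hv hg
    refine hg (σ.erase v) W i ?_ (isClique_erase' hcl) ?_
      (fun s hs1 x hx => hs s (mem_of_mem_erase hs1) x hx) ?_
    · intro x hx
      rw [mem_nbr]
      exact ⟨hσ (mem_of_mem_erase hx), hcl (by exact_mod_cast hv)
        (by exact_mod_cast (mem_of_mem_erase hx)) (ne_of_mem_erase hx).symm⟩
    · intro x hx
      rw [mem_nbr]
      exact ⟨hW hx, hs v hv x hx⟩
    · have := Finset.card_erase_add_one hv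
      omega
  by_cases huσ : u ∈ σ
  · exact hlink u huσ hlu
  by_cases hwσ : w ∈ σ
  · exact hlink w hwσ hlw
  by_cases huW : u ∈ W
  swap
  · exact split_aux1 hc hσ hcl hW hs hn huσ huW
  by_cases hwW : w ∈ W
  swap
  · exact split_aux2 hw huw hc hσ hcl hW hs hn huσ hwσ hwW
  rcases i with _ | i
  · refine dens_zero_mono (Finset.erase_subset u W) ?_
    exact split_aux1 hc hσ hcl ((Finset.erase_subset u W).trans hW)
      (fun s hs1 x hx => hs s hs1 x (mem_of_mem_erase hx)) hn huσ (Finset.notMem_erase u W)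
  · have hneu : ∀ x ∈ σ, x ≠ u := fun x hx h => huσ (h ▸ hx)
    have hcl' : (contr G u w).IsClique (σ : Set V) := by
      intro a ha b hb hab
      exact ⟨hab, hneu a (by exact_mod_cast ha), hneu b (by exact_mod_cast hb),
        Or.inl (hcl ha hb hab)⟩
    have hσ' : σ ⊆ U.erase u := fun x hx => mem_erase.2 ⟨hneu x hx, hσ hx⟩
    have hT : ∀ T : Finset V, T ⊆ W.erase u → Dens (contr G u w) T (i + 1) := by
      intro T hTW
      refine hc σ T (i + 1) hσ' hcl' ?_ ?_ hn
      · intro x hx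
        have hx' := hTW hx
        rw [mem_erase] at hx' ⊢
        exact ⟨hx'.1, hW hx'.2⟩
      · intro s hs1 x hx
        have hx' := hTW hx
        rw [mem_erase] at hx'
        have h1 := hs s hs1 x hx'.2
        exact ⟨h1.ne, hneu s hs1, hx'.1, Or.inl h1⟩
    have hsq' : NoSquare G W u w := fun x hx y hy => hsq x (hW hx) y (hW hy)
    refine dens_contr huw huW hwW hsq' (hT _ (Finset.Subset.refl _)) (hT _ ?_) ?_
    · intro x hx
      unfold BB at hx
      rw [mem_erase, mem_nbr] at hx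
      exact mem_erase.2 ⟨hx.2.2.ne.symm, hx.2.1⟩
    · refine dens_agree (H := G) ?_ ?_
      · intro x hx y hy
        have hz : ∀ z ∈ ZZ G W u w, z ≠ u ∧ z ≠ w := by
          intro z hz
          unfold ZZ at hz
          rw [mem_nbr, mem_nbr] at hz
          exact ⟨hz.1.2.ne.symm, hz.2.ne.symm⟩
        exact contr_adj_of_ne (hz x hx).1 (hz y hy).1 (hz x hx).2 (hz y hy).2
      · refine hlu (insert w σ) _ i ?_ ?_ ?_ ?_ ?_
        · intro x hx
          rw [mem_nbr]
          rw [mem_insert] at hx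
          rcases hx with rfl | hx
          · exact ⟨hw, huw⟩
          · exact ⟨hσ hx, (hs x hx u huW).symm⟩
        · exact isClique_insert' hcl fun s hs1 => hs s hs1 w hwW
        · intro x hx
          unfold ZZ at hx
          rw [mem_nbr, mem_nbr] at hx
          rw [mem_nbr]
          exact ⟨hW hx.1.1, hx.1.2⟩
        · intro s hs1 x hx
          unfold ZZ at hx
          rw [mem_nbr, mem_nbr] at hx
          rw [mem_insert] at hs1
          rcases hs1 with rfl | hs1
          · exact hx.2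
          · exact hs s hs1 x hx.1.1
        · rw [Finset.card_insert_of_notMem hwσ]
          omega

end Pool.Agent.H4.Singer3
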