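import Pool.Agent.H4.Singer3.SIso

/-!
# Singer project, part three: iterated edge subdivisions of cross-polytopes are tame
-/

set_option autoImplicit false
set_option linter.unusedSectionVars false

open Finset

namespace Pool.Agent.H4.Singer3

variable {V : Type} [DecidableEq V] [Fintype V]

theorem IsSubdivision.swap {G H : SimpleGraph V} {U : Finset V} {x u v : V}
    (h : IsSubdivision G H U x u v) : IsSubdivision G H U x v u where
  hx := h.hx
  hu := h.hv
  hv := h.hu
  huv := h.huv.symm
  h1 a ha b hb := by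
    rw [h.h1 a ha b hb]
    tauto
  h2 a ha := by
    rw [h.h2 a ha]
    tauto

section

variable {G H : SimpleGraph V} {U : Finset V} {x u v : V} {n : ℕ}

theorem IsSubdivision.le (h : IsSubdivision G H U x u v) {a b : V} (ha : a ∈ U) (hb : b ∈ U)
    (hab : H.Adj a b) : G.Adj a b := ((h.h1 a ha b hb).1 hab).1

theorem IsSubdivision.not_adj (h : IsSubdivision G H U x u v) : ¬ H.Adj u v := fun h' =>
  ((h.h1 u h.hu v h.hv).1 h').2.1 ⟨rfl, rfl⟩

theorem IsSubdivision.adj_of (h : IsSubdivision G H U x u v) {a b : V} (ha : a ∈ U) (hb : b ∈ U)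
    (hab : G.Adj a b) (h1 : a ≠ u) (h2 : a ≠ v) : H.Adj a b :=
  (h.h1 a ha b hb).2 ⟨hab, fun h' => h1 h'.1, fun h' => h2 h'.1⟩

theorem IsSubdivision.adj_u (h : IsSubdivision G H U x u v) {b : V} (hb : b ∈ U)
    (hab : G.Adj u b) (h1 : b ≠ v) : H.Adj u b :=
  (h.h1 u h.hu b hb).2 ⟨hab, fun h' => h1 h'.2, fun h' => h.huv.ne h'.1⟩

/-- simplices without `x` are simplices of the old complex -/
theorem IsSubdivision.clique (h : IsSubdivision G H U x u v) {τ : Finset V} (hτ : τ ⊆ U)
    (hc : H.IsClique (τ : Set V)) : G.IsClique (τ : Set V) :=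
  fun _ ha _ hb hab => h.le (hτ (by exact_mod_cast ha)) (hτ (by exact_mod_cast hb))
    (hc ha hb hab)

theorem isClique_ins {τ : Finset V} {v : V} (h : G.IsClique (τ : Set V))
    (hv : ∀ s ∈ τ, G.Adj s v) : G.IsClique ((insert v τ : Finset V) : Set V) := by
  intro x hx y hy hne
  rw [mem_coe, mem_insert] at hx hy
  rcases hx with rfl | hx
  · rcases hy with rfl | hy
    · exact absurd rfl hne
    · exact (hv y hy).symm
  · rcases hy with rfl | hy
    · exact hv x hx
    · exact h (by exact_mod_cast hx) (by exact_mod_cast hy) hne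

/-- Case A1: `x` is in the simplex, `u` and `v` are not. -/
theorem sub_caseA1 (h : IsSubdivision G H U x u v) (hL : LinkTame n G U) {τ : Finset V}
    (hτ : τ ⊆ U) (hc : H.IsClique ((insert x τ : Finset V) : Set V)) (hu : u ∉ τ) (hv : v ∉ τ) :
    ∃ m, m + (insert x τ).card = n ∧ Tame m H (lkS H (insert x U) (insert x τ)) := by
  have hxτ : x ∉ τ := fun hx => h.hx (hτ hx)
  have hadj : ∀ s ∈ τ, H.Adj x s := fun s hs =>
    hc (by simp) (by simp [hs]) (fun h' => hxτ (h' ▸ hs))
  have hE : ∀ s ∈ τ, G.Adj u s ∧ G.Adj v s := by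
    intro s hs
    rcases (h.h2 s (hτ hs)).1 (hadj s hs) with h1 | h1 | h1
    · exact absurd (h1 ▸ hs) hu
    · exact absurd (h1 ▸ hs) hv
    · exact h1
  have hcτ : G.IsClique (τ : Set V) :=
    h.clique hτ (hc.subset (by exact_mod_cast Finset.subset_insert x τ))
  obtain ⟨m, hm, ht⟩ := hL (insert u (insert v τ)) (by
      intro a ha
      rw [mem_insert, mem_insert] at ha
      rcases ha with rfl | rfl | ha
      · exact h.hu
      · exact h.hv
      · exact hτ ha)
    (isClique_ins (isClique_ins hcτ fun s hs => (hE s hs).2.symm) (by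
      intro s hs
      rw [mem_insert] at hs
      rcases hs with rfl | hs
      · exact h.huv.symm
      · exact (hE s hs).1.symm))
  have hu' : u ∉ insert v τ := by
    rw [mem_insert, not_or]
    exact ⟨h.huv.ne, hu⟩
  rw [Finset.card_insert_of_notMem hu', Finset.card_insert_of_notMem hv] at hm
  refine ⟨m + 1, ?_, ?_⟩
  · rw [Finset.card_insert_of_notMem hxτ]
    omega
  · set T := lkS G U (insert u (insert v τ)) with hT
    have hTm : ∀ y, y ∈ T ↔ y ∈ U ∧ G.Adj u y ∧ G.Adj v y ∧ ∀ s ∈ τ, G.Adj s y := by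
      intro y
      rw [hT, mem_lkS]
      constructor
      · rintro ⟨h1, h2⟩
        exact ⟨h1, h2 u (by simp), h2 v (by simp), fun s hs => h2 s (by simp [hs])⟩
      · rintro ⟨h1, h2, h3, h4⟩
        refine ⟨h1, fun s hs => ?_⟩
        rw [mem_insert, mem_insert] at hs
        rcases hs with rfl | rfl | hs
        · exact h2
        · exact h3
        · exact h4 s hs
    have hTH : Tame m H T := Tame.mono ht (Finset.Subset.refl _) fun a ha b hb hab =>
      h.le ((hTm a).1 ha).1 ((hTm b).1 hb).1 hab
    have hsus : Tame (m + 1) H (insert u (insert v T)) := by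
      refine Tame.susp hTH ?_ ?_ h.huv.ne h.not_adj ?_ ?_
      · exact fun h1 => ((hTm u).1 h1).2.1.ne rfl
      · exact fun h1 => ((hTm v).1 h1).2.2.1.ne rfl
      · intro y hy
        have hy' := (hTm y).1 hy
        exact h.adj_u hy'.1 hy'.2.1 hy'.2.2.1.ne.symm
      · intro y hy
        have hy' := (hTm y).1 hy
        exact h.swap.adj_u hy'.1 hy'.2.2.1 hy'.2.1.ne.symm
    refine Tame.mono hsus ?_ fun a _ b _ hab => hab
    intro y hy
    rw [mem_lkS, mem_insert] at hy
    obtain ⟨hy1, hy2⟩ := hy
    have hxy : H.Adj x y := hy2 x (by simp)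
    have hyU : y ∈ U := hy1.resolve_left fun h' => hxy.ne h'.symm
    rw [mem_insert, mem_insert]
    rcases (h.h2 y hyU).1 hxy with h1 | h1 | h1
    · exact Or.inl h1
    · exact Or.inr (Or.inl h1)
    · refine Or.inr (Or.inr ((hTm y).2 ⟨hyU, h1.1, h1.2, fun s hs => ?_⟩))
      exact h.le (hτ hs) hyU (hy2 s (by simp [hs]))

/-- Case A2: `x` and `u` are in the simplex. -/
theorem sub_caseA2 (h : IsSubdivision G H U x u v) (hL : LinkTame n G U) {τ : Finset V}
    (hτ : τ ⊆ U) (hc : H.IsClique ((insert x τ : Finset V) : Set V)) (hu : u ∈ τ) :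
    ∃ m, m + (insert x τ).card = n ∧ Tame m H (lkS H (insert x U) (insert x τ)) := by
  have hxτ : x ∉ τ := fun hx => h.hx (hτ hx)
  have hv : v ∉ τ := fun hv =>
    h.not_adj (hc (by simp [hu]) (by simp [hv]) h.huv.ne)
  have hadj : ∀ s ∈ τ, H.Adj x s := fun s hs =>
    hc (by simp) (by simp [hs]) (fun h' => hxτ (h' ▸ hs))
  have hE : ∀ s ∈ τ, s ≠ u → G.Adj u s ∧ G.Adj v s := by
    intro s hs hsu
    rcases (h.h2 s (hτ hs)).1 (hadj s hs) with h1 | h1 | h1
    · exact absurd h1 hsu
    · exact absurd (h1 ▸ hs) hv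
    · exact h1
  have hcτ : G.IsClique (τ : Set V) :=
    h.clique hτ (hc.subset (by exact_mod_cast Finset.subset_insert x τ))
  obtain ⟨m, hm, ht⟩ := hL (insert v τ) (by
      intro a ha
      rw [mem_insert] at ha
      rcases ha with rfl | ha
      · exact h.hv
      · exact hτ ha)
    (isClique_ins hcτ fun s hs => by
      by_cases hsu : s = u
      · rw [hsu]
        exact h.huv
      · exact (hE s hs hsu).2.symm)
  rw [Finset.card_insert_of_notMem hv] at hm
  refine ⟨m, ?_, ?_⟩
  · rw [Finset.card_insert_of_notMem hxτ]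
    exact hm
  · have key : ∀ y, y ∈ lkS H (insert x U) (insert x τ) →
        y ∈ U ∧ y ∈ lkS G U (insert v τ) := by
      intro y hy
      rw [mem_lkS, mem_insert] at hy
      obtain ⟨hy1, hy2⟩ := hy
      have hxy : H.Adj x y := hy2 x (by simp)
      have hyU : y ∈ U := hy1.resolve_left fun h' => hxy.ne h'.symm
      have huy : H.Adj u y := hy2 u (by simp [hu])
      refine ⟨hyU, ?_⟩
      rw [mem_lkS]
      refine ⟨hyU, fun s hs => ?_⟩
      rw [mem_insert] at hs
      rcases hs with rfl | hs
      · rcases (h.h2 y hyU).1 hxy with h1 | h1 | h1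
        · exact absurd h1.symm huy.ne
        · exact absurd (h1 ▸ huy) h.not_adj
        · exact h1.2
      · exact h.le (hτ hs) hyU (hy2 s (by simp [hs]))
    exact Tame.mono ht (fun y hy => (key y hy).2) fun a ha b hb hab =>
      h.le (key a ha).1 (key b hb).1 hab

/-- Case B2: `u` is in the simplex, `x` is not. -/
theorem sub_caseB2 (h : IsSubdivision G H U x u v) (hL : LinkTame n G U) {τ : Finset V}
    (hτ : τ ⊆ U) (hc : H.IsClique (τ : Set V)) (hu : u ∈ τ) :
    ∃ m, m + τ.card = n ∧ Tame m H (lkS H (insert x U) τ) := by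
  have hxτ : x ∉ τ := fun hx => h.hx (hτ hx)
  obtain ⟨m, hm, ht⟩ := hL τ hτ (h.clique hτ hc)
  refine ⟨m, hm, ?_⟩
  set T := lkS G U τ with hT
  have hvL : v ∉ lkS H (insert x U) τ := fun h1 => h.not_adj ((mem_lkS.1 h1).2 u hu)
  have huT : u ∉ T := fun h1 => ((mem_lkS.1 h1).2 u hu).ne rfl
  have huL : u ∉ lkS H (insert x U) τ := fun h1 => ((mem_lkS.1 h1).2 u hu).ne rfl
  have key : ∀ y, y ∈ lkS H (insert x U) τ → y ∈ U → y ∈ T := by
    intro y hy hyU
    rw [mem_lkS] at hy
    rw [hT, mem_lkS]
    exact ⟨hyU, fun s hs => h.le (hτ hs) hyU (hy.2 s hs)⟩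
  by_cases hxL : x ∈ lkS H (insert x U) τ
  · have hvT : v ∈ T := by
      rw [hT, mem_lkS]
      refine ⟨h.hv, fun s hs => ?_⟩
      have h1 : H.Adj x s := ((mem_lkS.1 hxL).2 s hs).symm
      rcases (h.h2 s (hτ hs)).1 h1 with h2 | h2 | h2
      · rw [h2]
        exact h.huv
      · exact absurd (hc (by exact_mod_cast hu) (by exact_mod_cast hs)
          (by rw [h2]; exact h.huv.ne)) (by rw [h2]; exact h.not_adj)
      · exact h2.2.symm
    have hxv : x ≠ v := fun h1 => h.hx (h1 ▸ h.hv)
    let e : Equiv.Perm V := Equiv.swap x v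
    have hex : e x = v := Equiv.swap_apply_left x v
    have heo : ∀ y, y ≠ x → y ≠ v → e y = y := fun y h1 h2 => Equiv.swap_apply_of_ne_of_ne h1 h2
    have hp := tame_perm e ht
    have hcase : ∀ y ∈ lkS H (insert x U) τ, y = x ∨ (y ∈ U ∧ y ≠ x ∧ y ≠ v) := by
      intro y hy
      have h1 := (mem_lkS.1 hy).1
      rw [mem_insert] at h1
      rcases h1 with h1 | h1
      · exact Or.inl h1
      · refine Or.inr ⟨h1, fun h2 => h.hx (h2 ▸ h1), fun h2 => hvL (h2 ▸ hy)⟩
    refine Tame.mono hp ?_ ?_
    · intro y hy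
      rw [mem_mapsymm]
      rcases hcase y hy with h1 | h1
      · rw [h1, hex]
        exact hvT
      · rw [heo y h1.2.1 h1.2.2]
        exact key y hy h1.1
    · intro a ha b hb hab
      change G.Adj (e a) (e b)
      have hxb : ∀ b ∈ lkS H (insert x U) τ, H.Adj x b → G.Adj v (e b) := by
        intro b hb hxb
        rcases hcase b hb with h1 | h1
        · exact absurd h1.symm hxb.ne
        · rw [heo b h1.2.1 h1.2.2]
          rcases (h.h2 b h1.1).1 hxb with h2 | h2 | h2
          · exact absurd (h2 ▸ hb) huL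
          · exact absurd h2 h1.2.2
          · exact h2.2
      rcases hcase a ha with h1 | h1
      · rw [h1, hex]
        exact hxb b hb (h1 ▸ hab)
      · rcases hcase b hb with h2 | h2
        · rw [h2, hex]
          exact (hxb a ha (h2 ▸ hab.symm)).symm
        · rw [heo a h1.2.1 h1.2.2, heo b h2.2.1 h2.2.2]
          exact h.le h1.1 h2.1 hab
  · have hsub : ∀ y ∈ lkS H (insert x U) τ, y ∈ U := by
      intro y hy
      have h1 := (mem_lkS.1 hy).1
      rw [mem_insert] at h1
      rcases h1 with h1 | h1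
      · exact absurd (h1 ▸ hy) hxL
      · exact h1
    exact Tame.mono ht (fun y hy => key y hy (hsub y hy)) fun a ha b hb hab =>
      h.le (hsub a ha) (hsub b hb) hab

/-- Case B1: `x`, `u`, `v` are not in the simplex. -/
theorem sub_caseB1 (h : IsSubdivision G H U x u v) (hL : LinkTame n G U) {τ : Finset V}
    (hτ : τ ⊆ U) (hc : H.IsClique (τ : Set V)) (hu : u ∉ τ) (hv : v ∉ τ) :
    ∃ m, m + τ.card = n ∧ Tame m H (lkS H (insert x U) τ) := by
  have hxτ : x ∉ τ := fun hx => h.hx (hτ hx)
  obtain ⟨m, hm, ht⟩ := hL τ hτ (h.clique hτ hc)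
  refine ⟨m, hm, ?_⟩
  set T := lkS G U τ with hT
  have key : ∀ y, y ∈ lkS H (insert x U) τ → y ∈ U → y ∈ T := by
    intro y hy hyU
    rw [mem_lkS] at hy
    rw [hT, mem_lkS]
    exact ⟨hyU, fun s hs => h.le (hτ hs) hyU (hy.2 s hs)⟩
  have hTU : ∀ y, y ∈ T → y ∈ U := fun y hy => (mem_lkS.1 hy).1
  by_cases hxL : x ∈ lkS H (insert x U) τ
  · have hE : ∀ s ∈ τ, G.Adj u s ∧ G.Adj v s := by
      intro s hs
      have h1 : H.Adj x s := ((mem_lkS.1 hxL).2 s hs).symm
      rcases (h.h2 s (hτ hs)).1 h1 with h2 | h2 | h2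
      · exact absurd (h2 ▸ hs) hu
      · exact absurd (h2 ▸ hs) hv
      · exact h2
    have huT : u ∈ T := mem_lkS.2 ⟨h.hu, fun s hs => (hE s hs).1.symm⟩
    have hvT : v ∈ T := mem_lkS.2 ⟨h.hv, fun s hs => (hE s hs).2.symm⟩
    have hxT : x ∉ T := fun h1 => h.hx (hTU x h1)
    have hxu : H.Adj x u := (h.h2 u h.hu).2 (Or.inl rfl)
    have hτH : ∀ s ∈ τ, ∀ y ∈ U, G.Adj s y → H.Adj s y := fun s hs y hy hsy =>
      h.adj_of (hτ hs) hy hsy (fun h1 => hu (h1 ▸ hs)) (fun h1 => hv (h1 ▸ hs))
    have hcx : H.IsClique ((insert x τ : Finset V) : Set V) :=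
      isClique_ins hc fun s hs => (mem_lkS.1 hxL).2 s hs
    have hcu : H.IsClique ((insert u τ : Finset V) : Set V) :=
      isClique_ins hc fun s hs => hτH s hs u h.hu (hE s hs).1.symm
    obtain ⟨m1, hm1, ht1⟩ := sub_caseA1 h hL hτ hcx hu hv
    obtain ⟨m2, hm2, ht2⟩ := sub_caseB2 h hL (τ := insert u τ) (by
        intro a ha
        rw [mem_insert] at ha
        rcases ha with rfl | ha
        · exact h.hu
        · exact hτ ha) hcu (mem_insert_self u τ)
    rw [Finset.card_insert_of_notMem hxτ] at hm1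
    rw [Finset.card_insert_of_notMem hu] at hm2
    have h12 : m2 = m1 := by omega
    have hmm : m = m1 + 1 := by omega
    subst h12
    subst hmm
    have hins : Tame (m2 + 1) H (insert x T) := by
      refine Tame.split (u := x) (w := u) (mem_insert_self x T) (mem_insert_of_mem huT) hxu
        ?_ ?_ ?_ ?_
      · intro y hy z hz hxy hnuy hyu huz hnxz hzx hyz
        rw [mem_insert] at hy hz
        have hyT : y ∈ T := hy.resolve_left fun h1 => hxy.ne h1.symm
        have hzT : z ∈ T := hz.resolve_left hzx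
        have hyU := hTU y hyT
        have hzU := hTU z hzT
        have hyv : y = v := by
          rcases (h.h2 y hyU).1 hxy with h1 | h1 | h1
          · exact absurd h1 hyu
          · exact h1
          · by_contra hne
            exact hnuy (h.adj_u hyU h1.1 hne)
        subst hyv
        refine hnxz ((h.h2 z hzU).2 (Or.inr (Or.inr ⟨h.le h.hu hzU huz, h.le hyU hzU hyz⟩)))
      · refine Tame.mono ht ?_ ?_
        · intro y hy
          rw [mem_erase, mem_insert] at hy
          exact hy.2.resolve_left hy.1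
        · intro a ha b hb hab
          rw [mem_erase, mem_insert] at ha hb
          have haU := hTU a (ha.2.resolve_left ha.1)
          have hbU := hTU b (hb.2.resolve_left hb.1)
          obtain ⟨h1, -, -, h4⟩ := hab
          have hx2 : ∀ b ∈ U, u ≠ b → H.Adj x b → G.Adj u b := by
            intro b hbU hub hxb
            rcases (h.h2 b hbU).1 hxb with h2 | h2 | h2
            · exact absurd h2.symm hub
            · rw [h2]
              exact h.huv
            · exact h2.1
          rcases h4 with h4 | ⟨h4, h5⟩ | ⟨h4, h5⟩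
          · exact h.le haU hbU h4
          · rw [h4] at h1 ⊢
            exact hx2 b hbU h1 h5
          · rw [h4] at h1 ⊢
            exact (hx2 a haU h1.symm h5).symm
      · refine Tame.mono ht1 ?_ fun a _ b _ hab => hab
        intro y hy
        rw [mem_nbr, mem_insert] at hy
        have hyT : y ∈ T := hy.1.resolve_left fun h1 => hy.2.ne h1.symm
        rw [mem_lkS]
        refine ⟨mem_insert_of_mem (hTU y hyT), fun s hs => ?_⟩
        rw [mem_insert] at hs
        rcases hs with rfl | hs
        · exact hy.2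
        · exact hτH s hs y (hTU y hyT) ((mem_lkS.1 hyT).2 s hs)
      · refine Tame.mono ht2 ?_ fun a _ b _ hab => hab
        intro y hy
        rw [mem_nbr, mem_insert] at hy
        rw [mem_lkS, mem_insert]
        rcases hy.1 with h1 | hyT
        · refine ⟨Or.inl h1, fun s hs => ?_⟩
          rw [mem_insert] at hs
          rcases hs with rfl | hs
          · exact hy.2
          · rw [h1]
            exact (mem_lkS.1 hxL).2 s hs
        · refine ⟨Or.inr (hTU y hyT), fun s hs => ?_⟩
          rw [mem_insert] at hs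
          rcases hs with rfl | hs
          · exact hy.2
          · exact hτH s hs y (hTU y hyT) ((mem_lkS.1 hyT).2 s hs)
    refine Tame.mono hins ?_ fun a _ b _ hab => hab
    intro y hy
    have h1 := (mem_lkS.1 hy).1
    rw [mem_insert] at h1 ⊢
    exact h1.imp id fun h2 => key y hy h2
  · have hsub : ∀ y ∈ lkS H (insert x U) τ, y ∈ U := by
      intro y hy
      have h1 := (mem_lkS.1 hy).1
      rw [mem_insert] at h1
      rcases h1 with h1 | h1
      · exact absurd (h1 ▸ hy) hxL
      · exact h1
    exact Tame.mono ht (fun y hy => key y hy (hsub y hy)) fun a ha b hb hab =>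
      h.le (hsub a ha) (hsub b hb) hab

theorem linkTame_sub (h : IsSubdivision G H U x u v) (hL : LinkTame n G U) :
    LinkTame n H (insert x U) := by
  intro τ hτ hc
  by_cases hxτ : x ∈ τ
  · have hτ0 : τ = insert x (τ.erase x) := (Finset.insert_erase hxτ).symm
    have hsub : τ.erase x ⊆ U := fun y hy =>
      (mem_insert.1 (hτ (mem_of_mem_erase hy))).resolve_left (ne_of_mem_erase hy)
    rw [hτ0] at hc ⊢
    by_cases hu : u ∈ τ.erase x
    · exact sub_caseA2 h hL hsub hc hu
    · by_cases hv : v ∈ τ.erase x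
      · exact sub_caseA2 h.swap hL hsub hc hv
      · exact sub_caseA1 h hL hsub hc hu hv
  · have hsub : τ ⊆ U := fun y hy =>
      (mem_insert.1 (hτ hy)).resolve_left fun h1 => hxτ (h1 ▸ hy)
    by_cases hu : u ∈ τ
    · exact sub_caseB2 h hL hsub hc hu
    · by_cases hv : v ∈ τ
      · exact sub_caseB2 h.swap hL hsub hc hv
      · exact sub_caseB1 h hL hsub hc hu hv

end

/-! ## Cross-polytopes -/

theorem tame_cross {n : ℕ} {G : SimpleGraph V} (f : Fin n × Bool → V)
    (hf : Function.Injective f) (hG : ∀ a b, G.Adj (f a) (f b) ↔ a.1 ≠ b.1) (S : Finset (Fin n)) :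
    Tame S.card G ((S ×ˢ (univ : Finset Bool)).image f) := by
  induction S using Finset.induction_on with
  | empty =>
    rw [Finset.empty_product, Finset.image_empty, Finset.card_empty]
    exact Tame.empty G
  | insert i S hi ih =>
    rw [Finset.card_insert_of_notMem hi]
    have hmem : ∀ j b, f (j, b) ∈ (S ×ˢ (univ : Finset Bool)).image f ↔ j ∈ S := by
      intro j b
      rw [mem_image]
      constructor
      · rintro ⟨p, hp, hpe⟩
        have h1 : p.1 = j := congrArg Prod.fst (hf hpe)
        rw [← h1]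
        exact (mem_product.1 hp).1
      · intro hj
        exact ⟨(j, b), mem_product.2 ⟨hj, mem_univ _⟩, rfl⟩
    have hs : Tame (S.card + 1) G
        (insert (f (i, true)) (insert (f (i, false)) ((S ×ˢ (univ : Finset Bool)).image f))) := by
      refine Tame.susp ih ?_ ?_ ?_ ?_ ?_ ?_
      · rw [hmem]
        exact hi
      · rw [hmem]
        exact hi
      · intro h
        have := congrArg Prod.snd (hf h)
        simp at this
      · rw [hG]
        simp
      · intro y hy
        obtain ⟨p, hp, rfl⟩ := mem_image.1 hy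
        rw [hG]
        intro h
        have h1 : i = p.1 := h
        rw [h1] at hi
        exact hi (mem_product.1 hp).1
      · intro y hy
        obtain ⟨p, hp, rfl⟩ := mem_image.1 hy
        rw [hG]
        intro h
        have h1 : i = p.1 := h
        rw [h1] at hi
        exact hi (mem_product.1 hp).1
    refine Tame.mono hs ?_ fun a _ b _ hab => hab
    intro y hy
    obtain ⟨⟨j, b⟩, hp, rfl⟩ := mem_image.1 hy
    rw [mem_product, mem_insert] at hp
    rw [mem_insert, mem_insert, hmem]
    rcases hp.1 with h1 | h1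
    · have h1' : j = i := h1
      subst h1'
      cases b
      · exact Or.inr (Or.inl rfl)
      · exact Or.inl rfl
    · exact Or.inr (Or.inr h1)

theorem linkTame_cross {n : ℕ} {G : SimpleGraph V} (f : Fin n × Bool → V)
    (hf : Function.Injective f) (hG : ∀ a b, G.Adj (f a) (f b) ↔ a.1 ≠ b.1) :
    LinkTame n G (univ.image f) := by
  classical
  intro τ hτ hc
  let S : Finset (Fin n) := univ.filter fun i => ∃ b, f (i, b) ∈ τ
  have hcard : τ.card = S.card := by
    have h1 : ∀ i ∈ S, ∃ b, f (i, b) ∈ τ := fun i hi => (mem_filter.1 hi).2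
    refine le_antisymm ?_ ?_
    · have h2 : τ ⊆ S.image (fun i => if h : ∃ b, f (i, b) ∈ τ then f (i, h.choose) else
          f (i, true)) := by
        intro y hy
        obtain ⟨⟨i, b⟩, -, rfl⟩ := mem_image.1 (hτ hy)
        rw [mem_image]
        have hex : ∃ b, f (i, b) ∈ τ := ⟨b, hy⟩
        refine ⟨i, mem_filter.2 ⟨mem_univ _, hex⟩, ?_⟩
        rw [dif_pos hex]
        by_contra hne
        have h3 := hc (by exact_mod_cast hex.choose_spec) (by exact_mod_cast hy) hne
        rw [hG] at h3
        exact h3 rfl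
      exact (Finset.card_le_card h2).trans Finset.card_image_le
    · have h2 : S.card ≤ ((S.attach.image fun i => f (i.1, (h1 i.1 i.2).choose))).card := by
        rw [Finset.card_image_of_injective, Finset.card_attach]
        intro i j hij
        have := congrArg Prod.fst (hf hij)
        exact Subtype.ext this
      refine h2.trans (Finset.card_le_card ?_)
      intro y hy
      obtain ⟨i, -, rfl⟩ := mem_image.1 hy
      exact (h1 i.1 i.2).choose_spec
  refine ⟨Sᶜ.card, ?_, ?_⟩
  · rw [hcard, add_comm, Finset.card_add_card_compl, Fintype.card_fin]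
  · refine Tame.mono (tame_cross f hf hG Sᶜ) ?_ fun a _ b _ hab => hab
    intro y hy
    obtain ⟨hy1, hy2⟩ := mem_lkS.1 hy
    obtain ⟨⟨i, b⟩, -, rfl⟩ := mem_image.1 hy1
    refine mem_image.2 ⟨(i, b), mem_product.2 ⟨?_, mem_univ _⟩, rfl⟩
    rw [mem_compl]
    intro hi
    obtain ⟨c, hc'⟩ := (mem_filter.1 hi).2
    have := hy2 _ hc'
    rw [hG] at this
    exact this rfl

/-! ## The class of subdivided cross-polytopes -/

theorem linkTame_of_isSubCross {n : ℕ} {G : SimpleGraph V} {U : Finset V}
    (h : IsSubCross n G U) : LinkTame n G U := by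
  induction h with
  | cross f hf hG => exact linkTame_cross f hf hG
  | step _ hs ih => exact linkTame_sub hs ih

theorem tame_of_isSubCross {n : ℕ} {G : SimpleGraph V} {U : Finset V}
    (h : IsSubCross n G U) : Tame n G U := by
  obtain ⟨m, hm, ht⟩ := linkTame_of_isSubCross h ∅ (Finset.empty_subset _) (by simp)
  rw [Finset.card_empty, add_zero] at hm
  subst hm
  refine Tame.mono ht ?_ fun a _ b _ hab => hab
  intro x hx
  rw [mem_lkS]
  exact ⟨hx, by simp⟩

end Pool.Agent.H4.Singer3
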