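import Pool.Agent.H4.Singer3.SDefs

/-!
# Singer project, part three: edge subdivisions of cross-polytopes
-/

set_option autoImplicit false
set_option linter.unusedSectionVars false

open Finset

namespace Pool.Agent.H4.Singer3

variable {V : Type} [DecidableEq V] [Fintype V]

/-- The induced subgraph of `H` on `U` and `x` is obtained from the induced subgraph of `G` on `U`
by subdividing the edge `u v` of the flag complex, with new vertex `x`: the edge `u v` is deleted
and `x` is joined to `u`, `v` and the common neighbours of `u` and `v`. -/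
structure IsSubdivision (G H : SimpleGraph V) (U : Finset V) (x u v : V) : Prop where
  hx : x ∉ U
  hu : u ∈ U
  hv : v ∈ U
  huv : G.Adj u v
  h1 : ∀ a ∈ U, ∀ b ∈ U,
    (H.Adj a b ↔ G.Adj a b ∧ ¬ (a = u ∧ b = v) ∧ ¬ (a = v ∧ b = u))
  h2 : ∀ a ∈ U, (H.Adj x a ↔ a = u ∨ a = v ∨ (G.Adj u a ∧ G.Adj v a))

/-- The flag complex of the induced subgraph on `U` is obtained from the boundary complex of the
cross-polytope of dimension `n` by a sequence of edge subdivisions. -/
inductive IsSubCross (n : ℕ) : SimpleGraph V → Finset V → Prop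
  | cross {G : SimpleGraph V} (f : Fin n × Bool → V) : Function.Injective f →
      (∀ a b, G.Adj (f a) (f b) ↔ a.1 ≠ b.1) → IsSubCross n G (univ.image f)
  | step {G H : SimpleGraph V} {U : Finset V} {x u v : V} : IsSubCross n G U →
      IsSubdivision G H U x u v → IsSubCross n H (insert x U)

/-- the link of `τ` in `U` -/
noncomputable def lkS (G : SimpleGraph V) (U τ : Finset V) : Finset V := by
  classical exact U.filter fun x => ∀ s ∈ τ, G.Adj s x

theorem mem_lkS {G : SimpleGraph V} {U τ : Finset V} {x : V} :
    x ∈ lkS G U τ ↔ x ∈ U ∧ ∀ s ∈ τ, G.Adj s x := by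
  unfold lkS
  simp

/-- all links of simplices are in the class -/
def LinkTame (n : ℕ) (G : SimpleGraph V) (U : Finset V) : Prop :=
  ∀ τ ⊆ U, G.IsClique (τ : Set V) → ∃ m, m + τ.card = n ∧ Tame m G (lkS G U τ)

end Pool.Agent.H4.Singer3
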